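import Mathlib
import Pool.Agent.N916.AM.Stm

/-!
# Project SN (helper818): the law of the orders

`AMF`: the natural density of helper916's abstract machine is independent of every event which depends
only on the numbers of the prime factors in the classes modulo `M`. `GLC`: the joint Gaussian law of
the numbers of the prime factors `2 mod 3` and of the prime factors modulo which `3` is not a square.
-/

set_option autoImplicit false

open scoped Classical

namespace Pool.Agent.N818.SN

open Finset Filter
open Pool.Agent.N916.AM (SS LAH)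

/-- the numbers of the elements in the classes modulo `M` -/
noncomputable def cn (M : ℕ) (S : Finset ℕ) : ℕ → ℕ := fun a => (S.filter fun p => p % M = a).card

/-- SN-AMF: the density machine with an event depending on the numbers of primes in the classes -/
def S_AMF : Prop := ∀ (M : ℕ) (K : Finset ℕ) (G : Finset ℕ → Prop) (c : ℝ), 8 ∣ M → 0 < M →
  0 ≤ c → c ≤ 1 → LAH M K G c → ∀ (A : ℕ → (ℕ → ℕ) → Prop) (ε : ℝ), 0 < ε →
  ∃ X₀ : ℕ, ∀ X : ℕ, X₀ ≤ X →
    |(((SS M K X).filter fun S => A X (cn M S) ∧ G S).card : ℝ) -
      c * (((SS M K X).filter fun S => A X (cn M S)).card : ℝ)| ≤ ε * X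

/-- the number of the prime factors `2` modulo `3` -/
noncomputable def mB (n : ℕ) : ℕ := (n.primeFactors.filter fun p => p % 12 = 5 ∨ p % 12 = 11).card

/-- the number of the prime factors `5, 7` modulo `12` -/
noncomputable def mC (n : ℕ) : ℕ := (n.primeFactors.filter fun p => p % 12 = 5 ∨ p % 12 = 7).card

/-- SN-GLC: the joint Gaussian law -/
def S_GLC : Prop := ∀ u v t : ℝ, (u ≠ 0 ∨ v ≠ 0) → Tendsto (fun X : ℕ =>
  (((Icc 1 X).filter fun n => (Squarefree n ∧ n % 24 = 11) ∧
    u * mB n + v * mC n ≤ (u + v) / 2 * Real.log (Real.log X) +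
      t * √((u ^ 2 + u * v + v ^ 2) / 2 * Real.log (Real.log X))).card : ℝ) /
  (((Icc 1 X).filter fun n => Squarefree n ∧ n % 24 = 11).card : ℝ)) atTop
  (nhds ((ProbabilityTheory.gaussianReal 0 1).real (Set.Iic t)))

end Pool.Agent.N818.SN
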