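import Mathlib
import Pool.Agent.Z702.Defs
import Pool.Agent.N877.P24.Defs

/-!
# Project SN (helper818): the curves 2-isogenous to the twists of the non-CM curve `X_0(24)`

`n ≡ 11 mod 24` is squarefree and `WA n : y² = x (x + n) (x - 3 n)` is the twist of `X_0(24)` by `-n`
(helper877's family). Its quotients by the points `(0, 0)` and `(3 n, 0)` are
`WB n : y² = x³ + n x² + n² x` and `WC n : y² = x³ - 14 n x² + n² x`. They are the curves `WZ a b` of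
`Z702` with `(a, b) = (α n, n²)`, `α = 1, -14`; `α² - 4 = -3, 3 * 8²`. Statements of the parts.
-/

set_option autoImplicit false

open scoped Classical

namespace Pool.Agent.N818.SN

open Finset NumberField IsDedekindDomain WeierstrassCurve
open Pool.Agent.Z702 (LocI WZ)
open Pool.Agent.N877.P24 (Qc)

/-- the class -/
def Fm (n : ℕ) : Prop := Squarefree n ∧ n % 24 = 11

/-- the twist of `X_0(24)` by `-n` -/
def WA (n : ℕ) : WeierstrassCurve ℤ := ⟨0, -2 * n, 0, -3 * n ^ 2, 0⟩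

/-- the quotient by `(0, 0)` -/
def WB (n : ℕ) : WeierstrassCurve ℤ := ⟨0, n, 0, n ^ 2, 0⟩

/-- the quotient by `(3 n, 0)` -/
def WC (n : ℕ) : WeierstrassCurve ℤ := ⟨0, -14 * n, 0, n ^ 2, 0⟩

/-- the curve over the ring `R` -/
abbrev base (W : WeierstrassCurve ℤ) (R : Type) [CommRing R] : WeierstrassCurve R :=
  W.map (Int.castRingHom R)

/-- `W` is a global minimal equation -/
def Minimal (W : WeierstrassCurve ℤ) : Prop :=
  W.Δ ≠ 0 ∧ ∀ (W' : WeierstrassCurve ℤ) (C : VariableChange ℚ), C • base W ℚ = base W' ℚ →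
    |W.Δ| ≤ |W'.Δ|

/-- The point `P` of `W` over `ℚ_p` reduces to a singular point of the curve modulo `p`. -/
def SingularReduction (W : WeierstrassCurve ℤ) (p : ℕ) [Fact p.Prime]
    (P : (base W ℚ_[p]).toAffine.Point) : Prop :=
  ∃ x y h, P = Affine.Point.some x y h ∧ ‖x‖ ≤ 1 ∧ ‖y‖ ≤ 1 ∧
    ‖W.a₁ * y - (3 * x ^ 2 + 2 * W.a₂ * x + W.a₄)‖ < 1 ∧ ‖2 * y + W.a₁ * x + W.a₃‖ < 1

/-- `c p` is the Tamagawa number `[W(ℚ_p) : W⁰(ℚ_p)]` for all primes `p` -/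
def IsTamagawa (W : WeierstrassCurve ℤ) (c : ℕ → ℕ) : Prop :=
  ∀ (p : ℕ) [Fact p.Prime], (∃ H : AddSubgroup (base W ℚ_[p]).toAffine.Point,
    (∀ P, P ∈ H ↔ ¬ SingularReduction W p P) ∧ H.index = c p) ∧ (¬ (p : ℤ) ∣ W.Δ → c p = 1)

/-- the Tamagawa numbers of `WB n` -/
noncomputable def cB (n p : ℕ) : ℕ :=
  if p = 2 then 2 else if p ∣ n then (if p % 3 = 1 then 4 else 2) else 1

/-- the Tamagawa numbers of `WC n` -/
noncomputable def cC (n p : ℕ) : ℕ :=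
  if p = 2 then 2 else if p ∣ n then (if IsSquare (3 : ZMod p) then 4 else 2) else 1

/-- SN-MIN: the equations are minimal -/
def S_MIN : Prop := ∀ n : ℕ, Fm n → Minimal (WB n) ∧ Minimal (WC n)

/-- SN-TB: the Tamagawa numbers of `WB n` -/
def S_TB : Prop := ∀ n : ℕ, Fm n → IsTamagawa (WB n) (cB n)

/-- SN-TC: the Tamagawa numbers of `WC n` -/
def S_TC : Prop := ∀ n : ℕ, Fm n → IsTamagawa (WC n) (cC n)

/-- SN-LB: `WB n` and `WA n` have the same Euler factors -/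
def S_LB : Prop := ∀ n : ℕ, Fm n → ∀ v : HeightOneSpectrum (𝓞 ℚ),
    ((base (WB n) ℚ).baseChange (v.adicCompletion ℚ)).localEulerFactor
        (v.adicCompletionIntegers ℚ) =
      ((base (WA n) ℚ).baseChange (v.adicCompletion ℚ)).localEulerFactor
        (v.adicCompletionIntegers ℚ)

/-- SN-LC: `WC n` and `WA n` have the same Euler factors -/
def S_LC : Prop := ∀ n : ℕ, Fm n → ∀ v : HeightOneSpectrum (𝓞 ℚ),
    ((base (WC n) ℚ).baseChange (v.adicCompletion ℚ)).localEulerFactor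
        (v.adicCompletionIntegers ℚ) =
      ((base (WA n) ℚ).baseChange (v.adicCompletion ℚ)).localEulerFactor
        (v.adicCompletionIntegers ℚ)

/-- `4 x³ + b₂ x² + 2 b₄ x + b₆` -/
def cubic (W : WeierstrassCurve ℤ) (x : ℝ) : ℝ := 4 * x ^ 3 + W.b₂ * x ^ 2 + 2 * W.b₄ * x + W.b₆

/-- the real period -/
noncomputable def Omega (W : WeierstrassCurve ℤ) : ℝ :=
  2 * ∫ x in {x : ℝ | 0 < cubic W x}, 1 / √(cubic W x)

/-- SN-OB: the real period of `WB n` -/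
def S_OB : Prop := ∀ n : ℕ, 0 < n → Omega (WB n) = Omega (WA n)

/-- SN-OC: the real period of `WC n` -/
def S_OC : Prop := ∀ n : ℕ, 0 < n → 2 * Omega (WC n) = Omega (WA n)

/-- the order of the torsion subgroup -/
noncomputable def torsOrder (W : WeierstrassCurve ℤ) : ℕ :=
  Nat.card (AddCommGroup.torsion (base W ℚ).toAffine.Point)

/-- SN-TO: the torsion subgroups of the isogenous curves -/
def S_TO : Prop := ∀ n : ℕ, Fm n → torsOrder (WA n) = 4 →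
  torsOrder (WB n) = 2 ∧ torsOrder (WC n) = 2

/-! ### The Selmer groups of the isogenies -/

/-- `d` is a square, or `a² - 4 b` times a square, or the first coordinate, up to squares, of a point of
the isogenous curve `Y² = X (X² - 2 a X + a² - 4 b)` -/
def LK (K : Type) [Field K] (a b d : ℤ) : Prop :=
  IsSquare (d : K) ∨ IsSquare ((d : K) * ((a : K) ^ 2 - 4 * (b : K))) ∨ LocI K a b d

/-- SN-T2B: at two, `α = 1` -/
def S_T2B : Prop := ∀ n d : ℤ, n % 8 = 3 →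
  (Squarefree d → LK ℚ_[2] n (n ^ 2) d → d % 4 = 1) ∧ (d % 4 = 1 → LocI ℚ_[2] n (n ^ 2) d)

/-- SN-T2C: at two, `α = -14` -/
def S_T2C : Prop := ∀ n d : ℤ, n % 8 = 3 →
  (Squarefree d → LK ℚ_[2] (-14 * n) (n ^ 2) d → ¬ (2 : ℤ) ∣ d) ∧
  (¬ (2 : ℤ) ∣ d → LocI ℚ_[2] (-14 * n) (n ^ 2) d)

/-- SN-T3: at three and at the real place -/
def S_T3 : Prop := ∀ n d : ℤ, n % 3 = 2 → 0 < n → Squarefree d →
  LocI ℚ_[3] n (n ^ 2) d ∧ LocI ℚ_[3] (-14 * n) (n ^ 2) d ∧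
  LocI ℝ n (n ^ 2) d ∧ LocI ℝ (-14 * n) (n ^ 2) d

/-- SN-NP: necessity at the primes `p > 3` -/
def S_NP : Prop := ∀ (p : ℕ) [Fact p.Prime] (α n d : ℤ), p ≠ 2 → p ≠ 3 → α = 1 ∨ α = -14 →
  Squarefree n → Squarefree d → LK ℚ_[p] (α * n) (n ^ 2) d →
  (¬ (p : ℤ) ∣ n → ¬ (p : ℤ) ∣ d) ∧
  ((p : ℤ) ∣ n → IsSquare ((α ^ 2 - 4 : ℤ) : ZMod p) →
    (¬ (p : ℤ) ∣ d → IsSquare (d : ZMod p)) ∧
    ∀ n' d' : ℤ, n = p * n' → d = p * d' → IsSquare ((-n' * d' : ℤ) : ZMod p))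

/-- SN-SP: sufficiency at the primes `p > 3` -/
def S_SP : Prop := ∀ (p : ℕ) [Fact p.Prime] (α n d : ℤ), p ≠ 2 → p ≠ 3 → α = 1 ∨ α = -14 →
  Squarefree n → Squarefree d →
  (¬ (p : ℤ) ∣ n → ¬ (p : ℤ) ∣ d → LocI ℚ_[p] (α * n) (n ^ 2) d) ∧
  ((p : ℤ) ∣ n → ¬ IsSquare ((α ^ 2 - 4 : ℤ) : ZMod p) → LocI ℚ_[p] (α * n) (n ^ 2) d) ∧
  (¬ (p : ℤ) ∣ d → IsSquare (d : ZMod p) → LocI ℚ_[p] (α * n) (n ^ 2) d) ∧
  ∀ n' d' : ℤ, n = p * n' → d = p * d' → IsSquare ((-n' * d' : ℤ) : ZMod p) →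
    LocI ℚ_[p] (α * n) (n ^ 2) d

/-- SN-TR: the classes of the rational points, if `E(ℚ)` is finite of order twice twice an odd
number -/
def S_TR : Prop := ∀ a n d : ℤ, n ≠ 0 → a ^ 2 - 4 * n ^ 2 ≠ 0 → d ≠ 0 →
  (∃ k : ℕ, Odd k ∧ Nat.card (WZ (-2 * a) (a ^ 2 - 4 * n ^ 2)).toAffine.Point = 4 * k) →
  LocI ℚ a (n ^ 2) d →
  IsSquare (d : ℚ) ∨ IsSquare ((d : ℚ) * ((a : ℚ) ^ 2 - 4 * (n : ℚ) ^ 2)) ∨
    IsSquare ((d : ℚ) * ((a : ℚ) + 2 * n)) ∨ IsSquare ((d : ℚ) * ((a : ℚ) - 2 * n))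

/-- `p` or `-p`, congruent to one modulo four -/
def st (p : ℕ) : ℤ := if p % 4 = 1 then p else -p

/-- the sign of `st p` -/
def sg (p : ℕ) : ℤ := if p % 4 = 1 then 1 else -1

/-- the condition for `α = 1`: the product of the `st q`, `q ∈ J`, is in the Selmer group -/
def CB (P J : Finset ℕ) : Prop := J ⊆ P ∧ ∀ p ∈ P, p % 3 = 1 →
  (p ∉ J → IsSquare ((∏ q ∈ J, st q : ℤ) : ZMod p)) ∧
  (p ∈ J → IsSquare ((-(∏ q ∈ P.erase p, (q : ℤ)) * (sg p * ∏ q ∈ J.erase p, st q) : ℤ) : ZMod p))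

/-- the condition for `α = -14`: the product of the `q ∈ J` is in the Selmer group -/
def CC (P J : Finset ℕ) : Prop := J ⊆ P ∧ ∀ p ∈ P, IsSquare (3 : ZMod p) →
  (p ∉ J → IsSquare ((∏ q ∈ J, (q : ℤ) : ℤ) : ZMod p)) ∧
  (p ∈ J → IsSquare ((-(∏ q ∈ P.erase p, (q : ℤ)) * (∏ q ∈ J.erase p, (q : ℤ)) : ℤ) : ZMod p))

/-- SN-JB: the number of the sets for `α = 1`, and the complement -/
def S_JB : Prop := ∀ n : ℕ, Fm n → Qc n →
  (n.primeFactors.powerset.filter fun J => CB n.primeFactors J).card =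
    2 ^ (n.primeFactors.filter fun p => p % 3 = 2).card ∧
  ∀ J, CB n.primeFactors J → CB n.primeFactors (n.primeFactors \ J)

/-- SN-JC: the number of the sets for `α = -14` -/
def S_JC : Prop := ∀ n : ℕ, Fm n → Qc n →
  (n.primeFactors.powerset.filter fun J => CC n.primeFactors J).card =
    2 ^ (n.primeFactors.filter fun p => ¬ IsSquare (3 : ZMod p)).card

/-- SN-UB: few numbers have less than `V` prime factors in a class modulo twelve -/
def S_UB : Prop := ∀ (a V : ℕ) (ε : ℝ), Nat.Coprime a 12 → 0 < ε → ∃ X₀ : ℕ, ∀ X : ℕ, X₀ ≤ X →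
  (((Icc 1 X).filter fun n => (n.primeFactors.filter fun p => p % 12 = a % 12).card < V).card : ℝ) ≤
    ε * X

end Pool.Agent.N818.SN
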