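import Mathlib
import Pool.Agent.N818.SN.Stm

/-!
# Project SN (helper818), second part: the other three curves of the isogeny class

`WD n : y² = x (x + n) (x + 9 n)` is the quotient of `WA n` by `(-n, 0)`, and
`WE n : y² = x³ - 14 n x² + 81 n² x`, `WF n : y² = x³ + 34 n x² + n² x` are the quotients of `WD n` by
`(-n, 0)` and `(-9 n, 0)`. For `WZ a b` with `(a, b) = (10 n, 9 n²), (-14 n, 81 n²), (34 n, n²)` the
isogenous curve is `Y² = X (X - ρ₁ n) (X - ρ₂ n)` with `(ρ₁, ρ₂) = (4, 16), (-32, 4), (32, 36)`.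
-/

set_option autoImplicit false

open scoped Classical

namespace Pool.Agent.N818.SN

open Finset NumberField IsDedekindDomain WeierstrassCurve
open Pool.Agent.Z702 (LocI WZ)
open Pool.Agent.N877.P24 (Qc)
open Pool.Agent.TH841.SH.D (Sha)

/-- the quotient of `WA n` by `(-n, 0)` -/
def WD (n : ℕ) : WeierstrassCurve ℤ := ⟨0, 10 * n, 0, 9 * n ^ 2, 0⟩

/-- the quotient of `WD n` by `(-n, 0)` -/
def WE (n : ℕ) : WeierstrassCurve ℤ := ⟨0, -14 * n, 0, 81 * n ^ 2, 0⟩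

/-- the quotient of `WD n` by `(-9 n, 0)` -/
def WF (n : ℕ) : WeierstrassCurve ℤ := ⟨0, 34 * n, 0, n ^ 2, 0⟩

/-- the Tamagawa numbers of `WD n` -/
noncomputable def cD (n p : ℕ) : ℕ := if p = 2 ∨ p = 3 then 2 else if p ∣ n then 4 else 1

/-- the Tamagawa numbers of `WE n` -/
noncomputable def cE (n p : ℕ) : ℕ :=
  if p = 3 then 2 else if p ∣ n then (if IsSquare (-2 : ZMod p) then 4 else 2) else 1

/-- the Tamagawa numbers of `WF n` -/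
noncomputable def cF (n p : ℕ) : ℕ :=
  if p = 3 then 2 else if p ∣ n then (if IsSquare (2 : ZMod p) then 4 else 2) else 1

/-- SN-MIN2: the equations are minimal -/
def S_MIN2 : Prop := ∀ n : ℕ, Fm n → Minimal (WD n) ∧ Minimal (WE n) ∧ Minimal (WF n)

/-- SN-TO2: the torsion subgroups -/
def S_TO2 : Prop := ∀ n : ℕ, Fm n → torsOrder (WA n) = 4 →
  torsOrder (WD n) = 4 ∧ torsOrder (WE n) = 2 ∧ torsOrder (WF n) = 2

/-- SN-TD: the Tamagawa numbers of `WD n` -/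
def S_TD : Prop := ∀ n : ℕ, Fm n → IsTamagawa (WD n) (cD n)

/-- SN-TE: the Tamagawa numbers of `WE n` -/
def S_TE : Prop := ∀ n : ℕ, Fm n → IsTamagawa (WE n) (cE n)

/-- SN-TF: the Tamagawa numbers of `WF n` -/
def S_TF : Prop := ∀ n : ℕ, Fm n → IsTamagawa (WF n) (cF n)

/-- SN-LD: `WD n` and `WA n` have the same Euler factors -/
def S_LD : Prop := ∀ n : ℕ, Fm n → ∀ v : HeightOneSpectrum (𝓞 ℚ),
    ((base (WD n) ℚ).baseChange (v.adicCompletion ℚ)).localEulerFactor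
        (v.adicCompletionIntegers ℚ) =
      ((base (WA n) ℚ).baseChange (v.adicCompletion ℚ)).localEulerFactor
        (v.adicCompletionIntegers ℚ)

/-- SN-LE: `WE n` and `WD n` have the same Euler factors -/
def S_LE : Prop := ∀ n : ℕ, Fm n → ∀ v : HeightOneSpectrum (𝓞 ℚ),
    ((base (WE n) ℚ).baseChange (v.adicCompletion ℚ)).localEulerFactor
        (v.adicCompletionIntegers ℚ) =
      ((base (WD n) ℚ).baseChange (v.adicCompletion ℚ)).localEulerFactor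
        (v.adicCompletionIntegers ℚ)

/-- SN-LF: `WF n` and `WD n` have the same Euler factors -/
def S_LF : Prop := ∀ n : ℕ, Fm n → ∀ v : HeightOneSpectrum (𝓞 ℚ),
    ((base (WF n) ℚ).baseChange (v.adicCompletion ℚ)).localEulerFactor
        (v.adicCompletionIntegers ℚ) =
      ((base (WD n) ℚ).baseChange (v.adicCompletion ℚ)).localEulerFactor
        (v.adicCompletionIntegers ℚ)

/-- SN-OD: the real period of `WD n` -/
def S_OD : Prop := ∀ n : ℕ, 0 < n → Omega (WD n) = Omega (WA n)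

/-- SN-OE: the real period of `WE n` -/
def S_OE : Prop := ∀ n : ℕ, 0 < n → 2 * Omega (WE n) = Omega (WD n)

/-- SN-OF: the real period of `WF n` -/
def S_OF : Prop := ∀ n : ℕ, 0 < n → Omega (WF n) = Omega (WD n)

/-! ### the local conditions -/

/-- SN-LOCD: necessary conditions for `WD n` -/
def S_LOCD : Prop := ∀ n d : ℤ, n % 24 = 11 → 0 < n → Squarefree n → Squarefree d →
  (LK ℚ_[2] (10 * n) (9 * n ^ 2) d → ¬ (2 : ℤ) ∣ d) ∧
  (LK ℚ_[3] (10 * n) (9 * n ^ 2) d → ¬ (3 : ℤ) ∣ d) ∧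
  (LK ℝ (10 * n) (9 * n ^ 2) d → 0 < d) ∧
  ∀ (p : ℕ) [Fact p.Prime], p ≠ 2 → p ≠ 3 → LK ℚ_[p] (10 * n) (9 * n ^ 2) d →
    (¬ (p : ℤ) ∣ n → ¬ (p : ℤ) ∣ d) ∧
    ((p : ℤ) ∣ n → (¬ (p : ℤ) ∣ d → IsSquare (d : ZMod p)) ∧
      ∀ n' d' : ℤ, n = p * n' → d = p * d' → IsSquare ((n' * d' : ℤ) : ZMod p))

/-- necessary conditions for `(a, b) = (α n, β n²)`, where `e` is the class of `a² - 4 b` -/
def NPG (α β e : ℤ) : Prop := ∀ (p : ℕ) [Fact p.Prime] (n d : ℤ), p ≠ 2 → p ≠ 3 →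
  Squarefree n → Squarefree d → LK ℚ_[p] (α * n) (β * n ^ 2) d →
  (¬ (p : ℤ) ∣ n → ¬ (p : ℤ) ∣ d) ∧
  ((p : ℤ) ∣ n → IsSquare (e : ZMod p) → (¬ (p : ℤ) ∣ d → IsSquare (d : ZMod p)) ∧
    ∀ n' d' : ℤ, n = p * n' → d = p * d' → IsSquare ((n' * d' : ℤ) : ZMod p))

/-- sufficient conditions for `(a, b) = (α n, β n²)`, where `e` is the class of `a² - 4 b` -/
def SPG (α β e : ℤ) : Prop := ∀ (p : ℕ) [Fact p.Prime] (n d : ℤ), p ≠ 2 → p ≠ 3 →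
  Squarefree n → Squarefree d →
  (¬ (p : ℤ) ∣ n → ¬ (p : ℤ) ∣ d → LocI ℚ_[p] (α * n) (β * n ^ 2) d) ∧
  ((p : ℤ) ∣ n → ¬ IsSquare (e : ZMod p) → LocI ℚ_[p] (α * n) (β * n ^ 2) d) ∧
  (¬ (p : ℤ) ∣ d → IsSquare (d : ZMod p) → LocI ℚ_[p] (α * n) (β * n ^ 2) d) ∧
  ∀ n' d' : ℤ, n = p * n' → d = p * d' → IsSquare ((n' * d' : ℤ) : ZMod p) →
    LocI ℚ_[p] (α * n) (β * n ^ 2) d

/-- the conditions at three: `d` is prime to three -/
def T3G (α β : ℤ) : Prop := ∀ n d : ℤ, n % 3 = 2 → Squarefree d →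
  (LK ℚ_[3] (α * n) (β * n ^ 2) d → ¬ (3 : ℤ) ∣ d) ∧
  (¬ (3 : ℤ) ∣ d → LocI ℚ_[3] (α * n) (β * n ^ 2) d)

/-- SN-LOCE: the conditions for `WE n` -/
def S_LOCE : Prop := NPG (-14) 81 (-2) ∧ SPG (-14) 81 (-2) ∧ T3G (-14) 81 ∧
  ∀ n d : ℤ, Squarefree d → (n % 8 = 3 → LocI ℚ_[2] (-14 * n) (81 * n ^ 2) d) ∧
    (0 < n → LocI ℝ (-14 * n) (81 * n ^ 2) d)

/-- SN-LOCF: the conditions for `WF n` -/
def S_LOCF : Prop := NPG 34 1 2 ∧ SPG 34 1 2 ∧ T3G 34 1 ∧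
  ∀ n d : ℤ, Squarefree d → (n % 8 = 3 → LocI ℚ_[2] (34 * n) (1 * n ^ 2) d) ∧
    (0 < n → (LK ℝ (34 * n) (1 * n ^ 2) d → 0 < d) ∧ (0 < d → LocI ℝ (34 * n) (1 * n ^ 2) d))

/-! ### the linear systems -/

/-- the condition on `d = e ∏ q ∈ J, q`, at the primes modulo which `c` is a square -/
def CG (c e : ℤ) (P J : Finset ℕ) : Prop := J ⊆ P ∧ ∀ p ∈ P, IsSquare (c : ZMod p) →
  (p ∉ J → IsSquare ((e * ∏ q ∈ J, (q : ℤ) : ℤ) : ZMod p)) ∧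
  (p ∈ J → IsSquare (((∏ q ∈ P.erase p, (q : ℤ)) * (e * ∏ q ∈ J.erase p, (q : ℤ)) : ℤ) : ZMod p))

/-- SN-JD: only the trivial sets for `WD n` -/
def S_JD : Prop := ∀ n : ℕ, Fm n → Qc n → ∀ J, CG 1 1 n.primeFactors J → J = ∅ ∨ J = n.primeFactors

/-- SN-JE: the number of the solutions for `WE n` -/
def S_JE : Prop := ∀ n : ℕ, Fm n → Qc n →
  ((n.primeFactors.powerset.filter fun J => CG (-2) 1 n.primeFactors J).card +
    (n.primeFactors.powerset.filter fun J => CG (-2) (-1) n.primeFactors J).card =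
    2 * 2 ^ (n.primeFactors.filter fun p => ¬ IsSquare (-2 : ZMod p)).card) ∧
  ∀ J e, CG (-2) e n.primeFactors J → CG (-2) e n.primeFactors (n.primeFactors \ J)

/-- SN-JF: the number of the solutions for `WF n` -/
def S_JF : Prop := ∀ n : ℕ, Fm n → Qc n →
  (n.primeFactors.powerset.filter fun J => CG 2 1 n.primeFactors J).card =
    2 ^ (n.primeFactors.filter fun p => ¬ IsSquare (2 : ZMod p)).card ∧
  ∀ J, CG 2 1 n.primeFactors J → CG 2 1 n.primeFactors (n.primeFactors \ J)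

/-! ### the structure of the Tate-Shafarevich groups -/

/-- SN-SD: `Ш(WD n)` has no element of order two -/
def S_SD : Prop := S_LOCD → S_JD → ∀ n : ℕ, Fm n → Qc n →
  (∀ x : Sha (WZ (-2 * (10 * (n : ℤ))) ((10 * (n : ℤ)) ^ 2 - 4 * (9 * (n : ℤ) ^ 2))),
    x + x = 0 → x = 0) →
  ∀ x : Sha (WZ (10 * (n : ℤ)) (9 * (n : ℤ) ^ 2)), x + x = 0 → x = 0

/-- SN-SE: the 2-primary part of `Ш(WE n)` -/
def S_SE : Prop := S_LOCE → S_JE → S_TR → ∀ n : ℕ, Fm n → Qc n →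
  (∃ k : ℕ, Odd k ∧ Nat.card (WZ (-2 * (-14 * (n : ℤ)))
    ((-14 * (n : ℤ)) ^ 2 - 4 * (81 * (n : ℤ) ^ 2))).toAffine.Point = 4 * k) →
  (∀ x : Sha (WZ (-2 * (-14 * (n : ℤ))) ((-14 * (n : ℤ)) ^ 2 - 4 * (81 * (n : ℤ) ^ 2))),
    x + x = 0 → x = 0) →
  Nat.card {x : Sha (WZ (-14 * (n : ℤ)) (81 * (n : ℤ) ^ 2)) // ∃ k : ℕ, 2 ^ k • x = 0} =
    2 ^ (n.primeFactors.filter fun p => ¬ IsSquare (-2 : ZMod p)).card ∧
  ∀ x : Sha (WZ (-14 * (n : ℤ)) (81 * (n : ℤ) ^ 2)), (∃ k : ℕ, 2 ^ k • x = 0) → x + x = 0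

/-- SN-SF: the 2-primary part of `Ш(WF n)` -/
def S_SF : Prop := S_LOCF → S_JF → S_TR → ∀ n : ℕ, Fm n → Qc n →
  (∃ k : ℕ, Odd k ∧ Nat.card (WZ (-2 * (34 * (n : ℤ)))
    ((34 * (n : ℤ)) ^ 2 - 4 * (1 * (n : ℤ) ^ 2))).toAffine.Point = 4 * k) →
  (∀ x : Sha (WZ (-2 * (34 * (n : ℤ))) ((34 * (n : ℤ)) ^ 2 - 4 * (1 * (n : ℤ) ^ 2))),
    x + x = 0 → x = 0) →
  2 * Nat.card {x : Sha (WZ (34 * (n : ℤ)) (1 * (n : ℤ) ^ 2)) // ∃ k : ℕ, 2 ^ k • x = 0} =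
    2 ^ (n.primeFactors.filter fun p => ¬ IsSquare (2 : ZMod p)).card ∧
  ∀ x : Sha (WZ (34 * (n : ℤ)) (1 * (n : ℤ) ^ 2)), (∃ k : ℕ, 2 ^ k • x = 0) → x + x = 0

/-! ### the law -/

/-- the numbers of the prime factors in the classes modulo `24`, for the four curves -/
noncomputable def mX (i : Fin 4) (n : ℕ) : ℕ := (n.primeFactors.filter fun p =>
  p % 24 ∈ (![{5, 11, 17, 23}, {5, 7, 17, 19}, {5, 7, 13, 23}, {5, 11, 13, 19}] :
    Fin 4 → Finset ℕ) i).card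

/-- SN-GL4: the joint Gaussian law of the four numbers -/
def S_GL4 : Prop := ∀ (w : Fin 4 → ℝ) (t : ℝ), w ≠ 0 → Filter.Tendsto (fun X : ℕ =>
  (((Icc 1 X).filter fun n => (Squarefree n ∧ n % 24 = 11) ∧
    ∑ i, w i * mX i n ≤ (∑ i, w i) / 2 * Real.log (Real.log X) +
      t * √(((∑ i, w i) ^ 2 + ∑ i, w i ^ 2) / 4 * Real.log (Real.log X))).card : ℝ) /
  (((Icc 1 X).filter fun n => Squarefree n ∧ n % 24 = 11).card : ℝ)) Filter.atTop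
  (nhds ((ProbabilityTheory.gaussianReal 0 1).real (Set.Iic t)))

end Pool.Agent.N818.SN
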