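import Mathlib

/-!
# Project SN (helper818): the normal order of the number of the prime factors in a class modulo twelve
-/

set_option autoImplicit false

namespace Pool.Agent.N818.SN

open Finset

/-- SN-NO: the normal order -/
def S_NO : Prop := ∀ (a : ℕ) (ε : ℝ), Nat.Coprime a 12 → 0 < ε → ∃ X₀ : ℕ, ∀ X : ℕ, X₀ ≤ X →
  (((Icc 1 X).filter fun n => ε * Real.log (Real.log X) ≤
    |((n.primeFactors.filter fun p => p % 12 = a % 12).card : ℝ) -
      Real.log (Real.log X) / 4|).card : ℝ) ≤ ε * X

end Pool.Agent.N818.SN
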