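import Pool.Agent.N818.SN.StrC

/-!
# SN: the order of the 2-primary part of `Ш(WC n)`
-/

set_option autoImplicit false

open scoped Classical

namespace Pool.Agent.N818.SN

open Finset WeierstrassCurve
open Pool.Agent.TH841.SH.D
open Pool.Agent.Z702 (LocI WZ coc T0)
open Pool.Agent.N877.P24 (Qc)
open Pool.Agent.N818.SL (coc_add cls cls_eq cls_add cls_zero_iff prim lcb cob_of_eq coc_cob)

section

variable {n : ℕ} (hn : Fm n)

/-- the trivial classes -/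
lemma cob3 : IsCob (WZ (-14 * n) ((n : ℤ) ^ 2)) (coc (nn_ne hn) 3) :=
  coc_cob (nn_ne hn) (m := 24 * (n : ℤ)) (by norm_num)
    (mul_ne_zero (by norm_num) (n_ne hn)) (by ring)

lemma cobmnC : IsCob (WZ (-14 * n) ((n : ℤ) ^ 2)) (coc (nn_ne hn) (-(n : ℤ))) := by
  refine loc_cob (nn_ne hn) (habC hn) (neg_ne_zero.2 (n_ne hn)) ⟨-(16 * n : ℚ), 0, 4, ?_, ?_, ?_⟩
  · refine neg_ne_zero.2 (mul_ne_zero (by norm_num) ?_)
    exact_mod_cast n_ne hn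
  · push_cast
    ring
  · push_cast
    ring

lemma cobAll {c : ℤ} (hc : c = 1 ∨ c = 3 ∨ c = -n ∨ c = -3 * n) :
    IsCob (WZ (-14 * n) ((n : ℤ) ^ 2)) (coc (nn_ne hn) c) := by
  rcases hc with h | h | h | h
  · rw [h, Pool.Agent.N818.SL.coc_one]
    exact cob_zero _
  · rw [h]
    exact cob3 hn
  · rw [h]
    exact cobmnC hn
  · rw [h]
    have h3 : coc (a := -14 * (n : ℤ)) (nn_ne hn) (-3 * (n : ℤ)) =
        coc (nn_ne hn) 3 + coc (nn_ne hn) (-(n : ℤ)) :=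
      coc_add (nn_ne hn) (m := 1) (by norm_num) (neg_ne_zero.2 (n_ne hn)) one_ne_zero (by ring)
    rw [h3]
    exact cob_add (cob3 hn) (cobmnC hn)

include hn in
/-- the class of a set -/
theorem memC (hT2 : S_T2C) (hT3 : S_T3) (hSP : S_SP) {J : Finset ℕ} (hJ : CC n.primeFactors J) :
    coc (a := -14 * (n : ℤ)) (nn_ne hn) (dC J) ∈ shaCoc (WZ (-14 * n) ((n : ℤ) ^ 2)) := by
  have h24 := hn.2
  have hsf := dC_sqf hn hJ.1
  refine ⟨(Pool.Agent.Z488.t_COC _ _ (nn_ne hn) _).1, fun p hp => ?_, ?_⟩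
  · exact Pool.Agent.Y210.Z702.t_LOT _ _ (nn_ne hn) _ (habC hn) hsf.ne_zero ℚ_[p]
      (sufC hn hT2 hT3 hSP hJ p)
  · exact Pool.Agent.Y210.Z702.t_LOT _ _ (nn_ne hn) _ (habC hn) hsf.ne_zero ℝ
      (hT3 n _ (by omega) (n_pos hn) hsf).2.2.2

include hn in
/-- different sets give different classes -/
theorem injC (hTR : S_TR)
    (hk : ∃ k : ℕ, Odd k ∧
      Nat.card (WZ (-2 * (-14 * (n : ℤ))) ((-14 * (n : ℤ)) ^ 2 - 4 * (n : ℤ) ^ 2)).toAffine.Point =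
        4 * k)
    {J J' : Finset ℕ} (hJ : J ⊆ n.primeFactors) (hJ' : J' ⊆ n.primeFactors)
    (h : IsCob (WZ (-14 * n) ((n : ℤ) ^ 2)) (coc (nn_ne hn) (dC J) - coc (nn_ne hn) (dC J'))) :
    J = J' := by
  have hsJ := dC_sqf hn hJ
  have hsJ' := dC_sqf hn hJ'
  have hset : (J \ J') ∪ (J' \ J) ⊆ n.primeFactors := by
    intro q hq
    rw [mem_union, mem_sdiff, mem_sdiff] at hq
    rcases hq with hq | hq
    · exact hJ hq.1
    · exact hJ' hq.1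
  have hsc := dC_sqf hn hset
  have hi : dC (J ∩ J') ≠ 0 := (dC_sqf hn fun q hq => hJ (mem_inter.1 hq).1).ne_zero
  have hprod : dC J * dC J' = dC ((J \ J') ∪ (J' \ J)) * (dC (J ∩ J')) ^ 2 := by
    rw [dC_cast, dC_cast, dC_cast, dC_cast]
    exact_mod_cast Pool.Agent.N818.SL.prod_symm J J'
  rw [cob_sub (nn_ne hn) hsJ.ne_zero hsJ'.ne_zero hi hprod] at h
  have h1 := cob_tor hTR (n_ne hn) (nn_ne hn) (habC hn) hsc.ne_zero hk h
  obtain ⟨c, hc⟩ : ∃ c, c = dC ((J \ J') ∪ (J' \ J)) := ⟨_, rfl⟩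
  rw [← hc] at h1 hsc
  have hcpos : 0 < c := by
    rw [hc]
    exact dC_pos hn hset
  have hn0 : (n : ℚ) ≠ 0 := by exact_mod_cast n_ne hn
  have hnpos : (0 : ℚ) < n := by exact_mod_cast n_pos hn
  have hcQ : (0 : ℚ) < c := by exact_mod_cast hcpos
  have h3 : ¬ (3 : ℤ) ∣ c := by
    rw [hc]
    have := p_dC hn hset Nat.prime_three (three_not hn)
    exact_mod_cast this
  have hc1 : c = 1 := by
    rcases h1 with h1 | h1 | h1 | h1
    · exact one_of_sqZ hsc h1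
    · exfalso
      have h2 : IsSquare ((c : ℚ) * ((3 : ℤ) : ℚ)) := by
        refine sq_cancel (c := (8 * (n : ℚ)) ^ 2) (IsSquare.sq _)
          (pow_ne_zero 2 (mul_ne_zero (by norm_num) hn0)) ?_
        have e : (8 * (n : ℚ)) ^ 2 * ((c : ℚ) * ((3 : ℤ) : ℚ)) =
            (c : ℚ) * (((-14 * (n : ℤ) : ℤ) : ℚ) ^ 2 - 4 * (((n : ℤ)) : ℚ) ^ 2) := by
          push_cast
          ring
        rw [e]
        exact h1
      have h4 := eq_of_sqZ hsc Int.prime_three.squarefree h2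
      exact h3 ⟨1, by rw [h4]; norm_num⟩
    · exfalso
      have h4 := h1.nonneg
      push_cast at h4
      nlinarith [mul_pos hcQ hnpos]
    · exfalso
      have h4 := h1.nonneg
      push_cast at h4
      nlinarith [mul_pos hcQ hnpos]
  have hem : (J \ J') ∪ (J' \ J) = ∅ := by
    rw [Finset.eq_empty_iff_forall_notMem]
    intro q hq
    have hqp := (pf_ne hn (hset hq)).1
    have h5 := (dvd_dC hn hset hqp).2 hq
    rw [← hc, hc1] at h5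
    have h6 : (q : ℤ) ∣ ((1 : ℕ) : ℤ) := by exact_mod_cast h5
    rw [Int.natCast_dvd_natCast] at h6
    exact hqp.one_lt.ne' (Nat.dvd_one.1 h6)
  rw [Finset.union_eq_empty, Finset.sdiff_eq_empty_iff_subset,
    Finset.sdiff_eq_empty_iff_subset] at hem
  exact Finset.Subset.antisymm hem.1 hem.2

include hn in
/-- every class killed by a power of two is the class of a set -/
theorem surjC (hT2 : S_T2C) (hT3 : S_T3) (hNP : S_NP) (hSP : S_SP)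
    (hSha : ∀ x : Sha (WZ (-2 * (-14 * (n : ℤ))) ((-14 * (n : ℤ)) ^ 2 - 4 * (n : ℤ) ^ 2)),
      x + x = 0 → x = 0)
    (x : Sha (WZ (-14 * n) ((n : ℤ) ^ 2))) (k : ℕ) (hx : (2 ^ k) • x = 0) :
    ∃ (J : Finset ℕ) (hJ : CC n.primeFactors J),
      cls (WZ (-14 * n) ((n : ℤ) ^ 2)) ⟨coc (nn_ne hn) (dC J), memC hn hT2 hT3 hSP hJ⟩ = x := by
  obtain ⟨d, hd, hc, hx'⟩ := prim (nn_ne hn) (habC hn) hSha x k hx
  have hd0 : d ≠ 0 := hd.ne_zero
  have l1 : ∀ (p : ℕ) [Fact p.Prime], LK ℚ_[p] (-14 * n) ((n : ℤ) ^ 2) d := fun p _ =>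
    lcb _ _ (nn_ne hn) d hd0 ℚ_[p] (hc.2.1 p)
  obtain ⟨J, hJ, m, hm, c, hcc, hdJ⟩ := necC hn hT2 hNP hd l1
  refine ⟨J, hJ, ?_⟩
  rw [← hx']
  symm
  apply cls_eq
  exact (cob_sub (nn_ne hn) hd0 (dC_sqf hn hJ.1).ne_zero hm hdJ).2 (cobAll hn hcc)

include hn in
/-- **the 2-primary part of `Ш(WC n)`** -/
theorem strC (hT2 : S_T2C) (hT3 : S_T3) (hNP : S_NP) (hSP : S_SP) (hTR : S_TR) (hJC : S_JC)
    (hQ : Qc n)
    (hk : ∃ k : ℕ, Odd k ∧
      Nat.card (WZ (-2 * (-14 * (n : ℤ))) ((-14 * (n : ℤ)) ^ 2 - 4 * (n : ℤ) ^ 2)).toAffine.Point =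
        4 * k)
    (hSha : ∀ x : Sha (WZ (-2 * (-14 * (n : ℤ))) ((-14 * (n : ℤ)) ^ 2 - 4 * (n : ℤ) ^ 2)),
      x + x = 0 → x = 0) :
    Nat.card {x : Sha (WZ (-14 * n) ((n : ℤ) ^ 2)) // ∃ k : ℕ, 2 ^ k • x = 0} =
      2 ^ (n.primeFactors.filter fun p => ¬ IsSquare (3 : ZMod p)).card ∧
    ∀ x : Sha (WZ (-14 * n) ((n : ℤ) ^ 2)), (∃ k : ℕ, 2 ^ k • x = 0) → x + x = 0 := by
  have hcard := hJC n hn hQ
  have htwo : ∀ (J : Finset ℕ) (hJ : CC n.primeFactors J),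
      cls (WZ (-14 * n) ((n : ℤ) ^ 2)) ⟨coc (nn_ne hn) (dC J), memC hn hT2 hT3 hSP hJ⟩ +
      cls (WZ (-14 * n) ((n : ℤ) ^ 2)) ⟨coc (nn_ne hn) (dC J), memC hn hT2 hT3 hSP hJ⟩ = 0 := by
    intro J hJ
    rw [← cls_add, cls_zero_iff]
    change IsCob (WZ (-14 * n) ((n : ℤ) ^ 2)) (coc (nn_ne hn) (dC J) + coc (nn_ne hn) (dC J))
    rw [coc_two]
    exact (cob _).zero_mem
  refine ⟨?_, ?_⟩
  swap
  · rintro x ⟨k, hx⟩
    obtain ⟨J, hJ, rfl⟩ := surjC hn hT2 hT3 hNP hSP hSha x k hx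
    exact htwo J hJ
  let T := n.primeFactors.powerset.filter fun J => CC n.primeFactors J
  have hT : ∀ J : T, CC n.primeFactors (J : Finset ℕ) := fun J => (mem_filter.1 J.2).2
  let Φ : T → {x : Sha (WZ (-14 * n) ((n : ℤ) ^ 2)) // ∃ k : ℕ, 2 ^ k • x = 0} := fun J =>
    ⟨cls (WZ (-14 * n) ((n : ℤ) ^ 2)) ⟨coc (nn_ne hn) (dC J), memC hn hT2 hT3 hSP (hT J)⟩,
      ⟨1, by rw [pow_one, two_nsmul]; exact htwo _ (hT J)⟩⟩
  have hΦ : Function.Bijective Φ := by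
    constructor
    · intro J J' h
      exact Subtype.ext (injC hn hTR hk (hT J).1 (hT J').1 (cob_of_eq (congrArg Subtype.val h)))
    · rintro ⟨x, k, hx⟩
      obtain ⟨J, hJ, hJx⟩ := surjC hn hT2 hT3 hNP hSP hSha x k hx
      exact ⟨⟨J, mem_filter.2 ⟨mem_powerset.2 hJ.1, hJ⟩⟩, Subtype.ext hJx⟩
  have h0 : T.card = 2 ^ (n.primeFactors.filter fun p => ¬ IsSquare (3 : ZMod p)).card := hcard
  rw [← Nat.card_congr (Equiv.ofBijective Φ hΦ), Nat.card_eq_fintype_card, Fintype.card_coe, ← h0]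

end

end Pool.Agent.N818.SN
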