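import Pool.Agent.N818.SN.StrB

/-!
# SN: the order of the 2-primary part of `Ш(WB n)`
-/

set_option autoImplicit false

open scoped Classical

namespace Pool.Agent.N818.SN

open Finset WeierstrassCurve
open Pool.Agent.TH841.SH.D
open Pool.Agent.Z702 (LocI WZ coc T0)
open Pool.Agent.N877.P24 (Qc)
open Pool.Agent.N818.SL (coc_add cls cls_eq cls_add cls_zero_iff prim lcb cob_of_eq coc_cob)

section

variable {n : ℕ} (hn : Fm n)

include hn in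
/-- every class killed by a power of two is the class of a set -/
theorem surjB (hT2 : S_T2B) (hT3 : S_T3) (hNP : S_NP) (hSP : S_SP)
    (hSha : ∀ x : Sha (WZ (-2 * (n : ℤ)) ((n : ℤ) ^ 2 - 4 * (n : ℤ) ^ 2)), x + x = 0 → x = 0)
    (x : Sha (WZ n ((n : ℤ) ^ 2))) (k : ℕ) (hx : (2 ^ k) • x = 0) :
    ∃ (J : Finset ℕ) (hJ : CB n.primeFactors J),
      cls (WZ n ((n : ℤ) ^ 2)) ⟨coc (nn_ne hn) (∏ q ∈ J, st q), memB hn hT2 hT3 hSP hJ⟩ = x := by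
  obtain ⟨d, hd, hc, hx'⟩ := prim (nn_ne hn) (habB hn) hSha x k hx
  have hd0 : d ≠ 0 := hd.ne_zero
  have l1 : ∀ (p : ℕ) [Fact p.Prime], LK ℚ_[p] n ((n : ℤ) ^ 2) d := fun p _ =>
    lcb _ _ (nn_ne hn) d hd0 ℚ_[p] (hc.2.1 p)
  obtain ⟨J, hJ, hdJ⟩ := necB hn hT2 hNP hd l1
  refine ⟨J, hJ, ?_⟩
  rw [← hx']
  rcases hdJ with h | h
  · subst h
    rfl
  · symm
    apply cls_eq
    have hne := (dB_sqf hn hJ.1).ne_zero
    have h3 : coc (a := (n : ℤ)) (nn_ne hn) d =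
        coc (nn_ne hn) (-3) + coc (nn_ne hn) (∏ q ∈ J, st q) :=
      coc_add (nn_ne hn) (m := 1) (by norm_num) hne one_ne_zero (by rw [h]; ring)
    have e : coc (a := (n : ℤ)) (nn_ne hn) d - coc (nn_ne hn) (∏ q ∈ J, st q) =
        coc (nn_ne hn) (-3) := by
      rw [h3]
      abel
    change IsCob (WZ n ((n : ℤ) ^ 2)) (coc (nn_ne hn) d - coc (nn_ne hn) (∏ q ∈ J, st q))
    rw [e]
    exact cobm3 hn

include hn in
/-- **the 2-primary part of `Ш(WB n)`** -/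
theorem strB (hT2 : S_T2B) (hT3 : S_T3) (hNP : S_NP) (hSP : S_SP) (hTR : S_TR) (hJB : S_JB)
    (hQ : Qc n)
    (hk : ∃ k : ℕ, Odd k ∧
      Nat.card (WZ (-2 * (n : ℤ)) ((n : ℤ) ^ 2 - 4 * (n : ℤ) ^ 2)).toAffine.Point = 4 * k)
    (hSha : ∀ x : Sha (WZ (-2 * (n : ℤ)) ((n : ℤ) ^ 2 - 4 * (n : ℤ) ^ 2)), x + x = 0 → x = 0) :
    2 * Nat.card {x : Sha (WZ n ((n : ℤ) ^ 2)) // ∃ k : ℕ, 2 ^ k • x = 0} =
      2 ^ (n.primeFactors.filter fun p => p % 3 = 2).card ∧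
    ∀ x : Sha (WZ n ((n : ℤ) ^ 2)), (∃ k : ℕ, 2 ^ k • x = 0) → x + x = 0 := by
  obtain ⟨hcard, hcompl⟩ := hJB n hn hQ
  have htwo : ∀ (J : Finset ℕ) (hJ : CB n.primeFactors J),
      cls (WZ n ((n : ℤ) ^ 2)) ⟨coc (nn_ne hn) (∏ q ∈ J, st q), memB hn hT2 hT3 hSP hJ⟩ +
      cls (WZ n ((n : ℤ) ^ 2)) ⟨coc (nn_ne hn) (∏ q ∈ J, st q), memB hn hT2 hT3 hSP hJ⟩ = 0 := by
    intro J hJ
    rw [← cls_add, cls_zero_iff]
    change IsCob (WZ n ((n : ℤ) ^ 2)) (coc (nn_ne hn) (∏ q ∈ J, st q) +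
      coc (nn_ne hn) (∏ q ∈ J, st q))
    rw [coc_two]
    exact (cob _).zero_mem
  refine ⟨?_, ?_⟩
  swap
  · rintro x ⟨k, hx⟩
    obtain ⟨J, hJ, rfl⟩ := surjB hn hT2 hT3 hNP hSP hSha x k hx
    exact htwo J hJ
  obtain ⟨p₀, hp₀⟩ : n.primeFactors.Nonempty := by
    rw [Nat.nonempty_primeFactors]
    have := hn.2
    omega
  let T := n.primeFactors.powerset.filter fun J => CB n.primeFactors J
  let T₀ := T.filter fun J => p₀ ∉ J
  have hT : ∀ J : T₀, CB n.primeFactors (J : Finset ℕ) := fun J =>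
    (mem_filter.1 (mem_filter.1 J.2).1).2
  have hT' : ∀ J : T₀, p₀ ∉ (J : Finset ℕ) := fun J => (mem_filter.1 J.2).2
  have hclseq : ∀ (J J' : Finset ℕ) (hJ : CB n.primeFactors J) (hJ' : CB n.primeFactors J'),
      cls (WZ n ((n : ℤ) ^ 2)) ⟨coc (nn_ne hn) (∏ q ∈ J, st q), memB hn hT2 hT3 hSP hJ⟩ =
      cls (WZ n ((n : ℤ) ^ 2)) ⟨coc (nn_ne hn) (∏ q ∈ J', st q), memB hn hT2 hT3 hSP hJ'⟩ ↔
      (J' = J ∨ J' = n.primeFactors \ J) := by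
    intro J J' hJ hJ'
    rw [← injB hn hTR hk hJ.1 hJ'.1]
    exact ⟨fun h => cob_of_eq h, fun h => cls_eq h⟩
  let Φ : T₀ → {x : Sha (WZ n ((n : ℤ) ^ 2)) // ∃ k : ℕ, 2 ^ k • x = 0} := fun J =>
    ⟨cls (WZ n ((n : ℤ) ^ 2)) ⟨coc (nn_ne hn) (∏ q ∈ (J : Finset ℕ), st q),
      memB hn hT2 hT3 hSP (hT J)⟩, ⟨1, by rw [pow_one, two_nsmul]; exact htwo _ (hT J)⟩⟩
  have hΦ : Function.Bijective Φ := by
    constructor
    · intro J J' h
      rcases (hclseq _ _ (hT J) (hT J')).1 (congrArg Subtype.val h) with h1 | h1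
      · exact Subtype.ext h1.symm
      · exfalso
        apply hT' J'
        rw [h1]
        exact mem_sdiff.2 ⟨hp₀, hT' J⟩
    · rintro ⟨x, k, hx⟩
      obtain ⟨J, hJ, hJx⟩ := surjB hn hT2 hT3 hNP hSP hSha x k hx
      by_cases h : p₀ ∈ J
      · have hJc := hcompl J hJ
        refine ⟨⟨n.primeFactors \ J, mem_filter.2 ⟨mem_filter.2 ⟨mem_powerset.2 hJc.1, hJc⟩,
          fun h' => (mem_sdiff.1 h').2 h⟩⟩, Subtype.ext ?_⟩
        exact ((hclseq _ _ hJ hJc).2 (Or.inr rfl)).symm.trans hJx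
      · exact ⟨⟨J, mem_filter.2 ⟨mem_filter.2 ⟨mem_powerset.2 hJ.1, hJ⟩, h⟩⟩, Subtype.ext hJx⟩
  have h0 : T.card = 2 ^ (n.primeFactors.filter fun p => p % 3 = 2).card := hcard
  rw [← Nat.card_congr (Equiv.ofBijective Φ hΦ), Nat.card_eq_fintype_card, Fintype.card_coe, ← h0]
  have h1 : T₀.card + (T.filter fun J => ¬ p₀ ∉ J).card = T.card :=
    card_filter_add_card_filter_not _
  have h2 : T₀.card = (T.filter fun J => ¬ p₀ ∉ J).card := by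
    refine card_bij (fun J _ => n.primeFactors \ J) ?_ ?_ ?_
    · intro J hJ
      obtain ⟨h3, h4⟩ := mem_filter.1 hJ
      have h5 := hcompl J (mem_filter.1 h3).2
      exact mem_filter.2 ⟨mem_filter.2 ⟨mem_powerset.2 h5.1, h5⟩,
        fun h6 => h6 (mem_sdiff.2 ⟨hp₀, h4⟩)⟩
    · intro J hJ J' hJ' h
      have h3 := (mem_filter.1 (mem_filter.1 hJ).1).2.1
      have h4 := (mem_filter.1 (mem_filter.1 hJ').1).2.1
      have h5 : n.primeFactors \ (n.primeFactors \ J) = n.primeFactors \ (n.primeFactors \ J') := by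
        rw [h]
      rwa [Finset.sdiff_sdiff_eq_self h3, Finset.sdiff_sdiff_eq_self h4] at h5
    · intro J hJ
      obtain ⟨h3, h4⟩ := mem_filter.1 hJ
      have h5 := (mem_filter.1 h3).2
      have h6 := hcompl J h5
      refine ⟨n.primeFactors \ J, mem_filter.2 ⟨mem_filter.2 ⟨mem_powerset.2 h6.1, h6⟩,
        fun h7 => ?_⟩, Finset.sdiff_sdiff_eq_self h5.1⟩
      exact h4 (mem_sdiff.1 h7).2
  omega

end

end Pool.Agent.N818.SN
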