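import Pool.Agent.N818.SN.Core
import Pool.Agent.N818.SN.CntB
import Pool.Agent.N818.SN.CntC

/-!
# SN: the ranks and the 2-primary parts of the groups `Ш`, for all the curves of the isogeny class
-/

set_option autoImplicit false

open scoped Classical

namespace Pool.Agent.N818.SN

open WeierstrassCurve Finset
open Pool.Agent.TH841.SH.D (Sha)
open Pool.Agent.N877.P24 (Qc)
open Pool.Agent.Z702 (WZ LocI)
open Pool.Agent.Y700 (VR)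
open Pool.Agent.Y668 (Wt)

lemma base_WZ (a b : ℤ) : base ⟨0, a, 0, b, 0⟩ ℚ = WZ a b := by
  refine WeierstrassCurve.ext ?_ ?_ ?_ ?_ ?_ <;> simp [WZ, Wt, base]

lemma baseA (n : ℕ) : base (WA n) ℚ = WZ (-2 * n) (-3 * (n : ℤ) ^ 2) := base_WZ _ _
lemma baseB (n : ℕ) : base (WB n) ℚ = WZ n ((n : ℤ) ^ 2) := base_WZ _ _
lemma baseC (n : ℕ) : base (WC n) ℚ = WZ (-14 * n) ((n : ℤ) ^ 2) := base_WZ _ _
lemma baseD (n : ℕ) : base (WD n) ℚ = WZ (10 * n) (9 * (n : ℤ) ^ 2) := base_WZ _ _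
lemma baseE (n : ℕ) : base (WE n) ℚ = WZ (-14 * n) (81 * (n : ℤ) ^ 2) := base_WZ _ _
lemma baseF (n : ℕ) : base (WF n) ℚ = WZ (34 * n) (1 * (n : ℤ) ^ 2) := by
  rw [one_mul]
  exact base_WZ _ _

lemma WZ_Δ (a b : ℤ) : (WZ a b).Δ = 16 * (b : ℚ) ^ 2 * ((a : ℚ) ^ 2 - 4 * b) := by
  simp only [WZ, Wt, WeierstrassCurve.Δ, WeierstrassCurve.b₂, WeierstrassCurve.b₄,
    WeierstrassCurve.b₆, WeierstrassCurve.b₈]
  ring

lemma WZ_ne {a b : ℤ} (hb : b ≠ 0) (hab : a ^ 2 - 4 * b ≠ 0) : (WZ a b).Δ ≠ 0 := by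
  rw [WZ_Δ]
  have h1 : (b : ℚ) ≠ 0 := by exact_mod_cast hb
  have h2 : (a : ℚ) ^ 2 - 4 * b ≠ 0 := by exact_mod_cast hab
  exact mul_ne_zero (mul_ne_zero (by norm_num) (pow_ne_zero 2 h1)) h2

/-- the isogeny of degree two back -/
lemma vrF (a b : ℤ) : VR (Wt (-2 * ((-2 * a : ℤ) : ℚ))
    (((-2 * a : ℤ) : ℚ) ^ 2 - 4 * ((a ^ 2 - 4 * b : ℤ) : ℚ))) (WZ a b) 2 0 0 0 := by
  refine ⟨by norm_num, ?_, ?_, ?_, ?_, ?_⟩
  · simp [WZ, Wt]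
  · simp only [WZ, Wt]
    push_cast
    ring
  · simp [WZ, Wt]
  · simp only [WZ, Wt]
    push_cast
    ring
  · simp only [WZ, Wt]
    push_cast
    ring

/-- finiteness for the isogenous curve -/
lemma fin_back {a b : ℤ} (hb : b ≠ 0) (hab : a ^ 2 - 4 * b ≠ 0)
    (hf : Finite (WZ (-2 * a) (a ^ 2 - 4 * b)).toAffine.Point) : Finite (WZ a b).toAffine.Point := by
  have h6 := Pool.Agent.Y545.Z702.fin_iso (a := ((-2 * a : ℤ) : ℚ))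
    (b := ((a ^ 2 - 4 * b : ℤ) : ℚ)) (by exact_mod_cast hab) (by
      have e : ((-2 * a : ℤ) : ℚ) ^ 2 - 4 * ((a ^ 2 - 4 * b : ℤ) : ℚ) = 16 * (b : ℚ) := by
        push_cast
        ring
      rw [e]
      exact mul_ne_zero (by norm_num) (by exact_mod_cast hb)) hf
  exact (Pool.Agent.Z932.Z702.t_TRN _ _ _ _ _ _ (vrF a b) (WZ_ne hb hab)).1.1 h6

/-- the transfer to another equation of the same curve -/
lemma transfer {W W' : WeierstrassCurve ℚ} {u r : ℚ} (h : VR W W' u r 0 0) (hD : W'.Δ ≠ 0)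
    (hf : Finite W'.toAffine.Point) (ht : Nat.card (AddCommGroup.torsion W'.toAffine.Point) = 4)
    (hs : ∀ x : Sha W', x + x = 0 → x = 0) : Finite W.toAffine.Point ∧
    (∃ k : ℕ, Odd k ∧ Nat.card W.toAffine.Point = 4 * k) ∧ ∀ x : Sha W, x + x = 0 → x = 0 := by
  obtain ⟨h1, h2, h3⟩ := Pool.Agent.Z932.Z702.t_TRN _ _ _ _ _ _ h hD
  have hfW : Finite W.toAffine.Point := h1.2 hf
  refine ⟨hfW, ⟨1, odd_one, ?_⟩, h2.2 hs⟩
  have h4 : AddCommGroup.torsion W'.toAffine.Point = ⊤ := by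
    refine (AddSubgroup.eq_top_iff' _).2 fun x => ?_
    exact isOfFinAddOrder_of_finite x
  rw [h4] at ht
  rw [← Nat.card_congr (h.equiv hD).toEquiv, ← Nat.card_congr
    (AddSubgroup.topEquiv (G := W'.toAffine.Point)).toEquiv, ht]

/-- the rank is zero, and `Ш[2^∞]` is elementary of order `2^k` -/
def Elem (W : WeierstrassCurve ℤ) (k : ℕ) : Prop := Finite (base W ℚ).toAffine.Point ∧
  Nat.card {x : Sha (base W ℚ) // ∃ j : ℕ, 2 ^ j • x = 0} = 2 ^ k ∧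
  ∀ x : Sha (base W ℚ), (∃ j : ℕ, 2 ^ j • x = 0) → x + x = 0

lemma elem_zero {W : WeierstrassCurve ℤ} (hf : Finite (base W ℚ).toAffine.Point)
    (h : ∀ x : Sha (base W ℚ), x + x = 0 → x = 0) : Elem W 0 := by
  have h1 : ∀ (j : ℕ) (x : Sha (base W ℚ)), 2 ^ j • x = 0 → x = 0 := by
    intro j
    induction j with
    | zero => intro x hx; simpa using hx
    | succ j ih =>
      intro x hx
      rw [pow_succ, mul_nsmul] at hx
      have h2 := h (2 ^ j • x) (by rw [← two_nsmul]; exact hx)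
      exact ih x h2
  refine ⟨hf, ?_, fun x hx => ?_⟩
  · rw [pow_zero, Nat.card_eq_one_iff_unique]
    exact ⟨⟨fun x y => Subtype.ext ((h1 _ _ x.2.choose_spec).trans (h1 _ _ y.2.choose_spec).symm)⟩,
      ⟨⟨0, 0, by simp⟩⟩⟩
  · obtain ⟨j, hj⟩ := hx
    rw [h1 j x hj, add_zero]

section

variable {n : ℕ} (hn : Fm n)

/-- the finiteness and `Ш[2] = 0`, the torsion -/
def Hy (W : WeierstrassCurve ℤ) : Prop := Finite (base W ℚ).toAffine.Point ∧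
  Nat.card (AddCommGroup.torsion (base W ℚ).toAffine.Point) = 4 ∧
  ∀ x : Sha (base W ℚ), x + x = 0 → x = 0

include hn

lemma nQ : (n : ℚ) ≠ 0 := by
  have := hn.2
  have h : n ≠ 0 := by omega
  exact_mod_cast h

lemma nZ : (n : ℤ) ≠ 0 := by
  have := hn.2
  have h : n ≠ 0 := by omega
  exact_mod_cast h

lemma hyA (hQ : Qc n) (htor : torsOrder (WA n) = 4) : Hy (WA n) :=
  ⟨((critA hn).2 hQ).1, htor, ((critA hn).2 hQ).2⟩

lemma ΔA_ne : (base (WA n) ℚ).Δ ≠ 0 := by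
  rw [baseA]
  exact WZ_ne (mul_ne_zero (by norm_num) (pow_ne_zero 2 (nZ hn))) (by
    have e : (-2 * (n : ℤ)) ^ 2 - 4 * (-3 * (n : ℤ) ^ 2) = 16 * (n : ℤ) ^ 2 := by ring
    rw [e]
    exact mul_ne_zero (by norm_num) (pow_ne_zero 2 (nZ hn)))

lemma ΔD_ne : (base (WD n) ℚ).Δ ≠ 0 := by
  rw [baseD]
  exact WZ_ne (mul_ne_zero (by norm_num) (pow_ne_zero 2 (nZ hn))) (by
    have e : (10 * (n : ℤ)) ^ 2 - 4 * (9 * (n : ℤ) ^ 2) = 64 * (n : ℤ) ^ 2 := by ring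
    rw [e]
    exact mul_ne_zero (by norm_num) (pow_ne_zero 2 (nZ hn)))

/-- the hypotheses for `WB n` -/
lemma hypB (h : Hy (WA n)) :
    Finite (WZ (-2 * (n : ℤ)) ((n : ℤ) ^ 2 - 4 * (n : ℤ) ^ 2)).toAffine.Point ∧
    (∃ k : ℕ, Odd k ∧
      Nat.card (WZ (-2 * (n : ℤ)) ((n : ℤ) ^ 2 - 4 * (n : ℤ) ^ 2)).toAffine.Point = 4 * k) ∧
    ∀ x : Sha (WZ (-2 * (n : ℤ)) ((n : ℤ) ^ 2 - 4 * (n : ℤ) ^ 2)), x + x = 0 → x = 0 := by
  refine transfer (W' := base (WA n) ℚ) (u := 1) (r := 0) ?_ (ΔA_ne hn) h.1 h.2.1 h.2.2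
  rw [baseA]
  refine ⟨by norm_num, ?_, ?_, ?_, ?_, ?_⟩
  · simp [WZ, Wt]
  · simp only [WZ, Wt]
    push_cast
    ring
  · simp [WZ, Wt]
  · simp only [WZ, Wt]
    push_cast
    ring
  · simp only [WZ, Wt]
    push_cast
    ring

/-- the hypotheses for `WC n` -/
lemma hypC (h : Hy (WA n)) :
    Finite (WZ (-2 * (-14 * (n : ℤ))) ((-14 * (n : ℤ)) ^ 2 - 4 * (n : ℤ) ^ 2)).toAffine.Point ∧
    (∃ k : ℕ, Odd k ∧ Nat.card
      (WZ (-2 * (-14 * (n : ℤ))) ((-14 * (n : ℤ)) ^ 2 - 4 * (n : ℤ) ^ 2)).toAffine.Point = 4 * k) ∧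
    ∀ x : Sha (WZ (-2 * (-14 * (n : ℤ))) ((-14 * (n : ℤ)) ^ 2 - 4 * (n : ℤ) ^ 2)),
      x + x = 0 → x = 0 := by
  refine transfer (W' := base (WA n) ℚ) (u := 2) (r := -12 * n) ?_ (ΔA_ne hn) h.1 h.2.1 h.2.2
  rw [baseA]
  refine ⟨by norm_num, ?_, ?_, ?_, ?_, ?_⟩
  · simp [WZ, Wt]
  · simp only [WZ, Wt]
    push_cast
    ring
  · simp [WZ, Wt]
  · simp only [WZ, Wt]
    push_cast
    ring
  · simp only [WZ, Wt]
    push_cast
    ring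

/-- the hypotheses for `WD n` -/
lemma hypD (h : Hy (WA n)) :
    Finite (WZ (-2 * (10 * (n : ℤ))) ((10 * (n : ℤ)) ^ 2 - 4 * (9 * (n : ℤ) ^ 2))).toAffine.Point ∧
    (∃ k : ℕ, Odd k ∧ Nat.card (WZ (-2 * (10 * (n : ℤ)))
      ((10 * (n : ℤ)) ^ 2 - 4 * (9 * (n : ℤ) ^ 2))).toAffine.Point = 4 * k) ∧
    ∀ x : Sha (WZ (-2 * (10 * (n : ℤ))) ((10 * (n : ℤ)) ^ 2 - 4 * (9 * (n : ℤ) ^ 2))),
      x + x = 0 → x = 0 := by
  refine transfer (W' := base (WA n) ℚ) (u := 2) (r := 4 * n) ?_ (ΔA_ne hn) h.1 h.2.1 h.2.2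
  rw [baseA]
  refine ⟨by norm_num, ?_, ?_, ?_, ?_, ?_⟩
  · simp [WZ, Wt]
  · simp only [WZ, Wt]
    push_cast
    ring
  · simp [WZ, Wt]
  · simp only [WZ, Wt]
    push_cast
    ring
  · simp only [WZ, Wt]
    push_cast
    ring

/-- the hypotheses for `WE n` -/
lemma hypE (h : Hy (WD n)) :
    Finite (WZ (-2 * (-14 * (n : ℤ)))
      ((-14 * (n : ℤ)) ^ 2 - 4 * (81 * (n : ℤ) ^ 2))).toAffine.Point ∧
    (∃ k : ℕ, Odd k ∧ Nat.card (WZ (-2 * (-14 * (n : ℤ)))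
      ((-14 * (n : ℤ)) ^ 2 - 4 * (81 * (n : ℤ) ^ 2))).toAffine.Point = 4 * k) ∧
    ∀ x : Sha (WZ (-2 * (-14 * (n : ℤ))) ((-14 * (n : ℤ)) ^ 2 - 4 * (81 * (n : ℤ) ^ 2))),
      x + x = 0 → x = 0 := by
  refine transfer (W' := base (WD n) ℚ) (u := 2) (r := 4 * n) ?_ (ΔD_ne hn) h.1 h.2.1 h.2.2
  rw [baseD]
  refine ⟨by norm_num, ?_, ?_, ?_, ?_, ?_⟩
  · simp [WZ, Wt]
  · simp only [WZ, Wt]
    push_cast
    ring
  · simp [WZ, Wt]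
  · simp only [WZ, Wt]
    push_cast
    ring
  · simp only [WZ, Wt]
    push_cast
    ring

/-- the hypotheses for `WF n` -/
lemma hypF (h : Hy (WD n)) :
    Finite (WZ (-2 * (34 * (n : ℤ))) ((34 * (n : ℤ)) ^ 2 - 4 * (1 * (n : ℤ) ^ 2))).toAffine.Point ∧
    (∃ k : ℕ, Odd k ∧ Nat.card (WZ (-2 * (34 * (n : ℤ)))
      ((34 * (n : ℤ)) ^ 2 - 4 * (1 * (n : ℤ) ^ 2))).toAffine.Point = 4 * k) ∧
    ∀ x : Sha (WZ (-2 * (34 * (n : ℤ))) ((34 * (n : ℤ)) ^ 2 - 4 * (1 * (n : ℤ) ^ 2))),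
      x + x = 0 → x = 0 := by
  refine transfer (W' := base (WD n) ℚ) (u := 2) (r := 36 * n) ?_ (ΔD_ne hn) h.1 h.2.1 h.2.2
  rw [baseD]
  refine ⟨by norm_num, ?_, ?_, ?_, ?_, ?_⟩
  · simp [WZ, Wt]
  · simp only [WZ, Wt]
    push_cast
    ring
  · simp [WZ, Wt]
  · simp only [WZ, Wt]
    push_cast
    ring
  · simp only [WZ, Wt]
    push_cast
    ring

/-- **`WB n`** -/
theorem elemB (hT2 : S_T2B) (hT3 : S_T3) (hNP : S_NP) (hSP : S_SP) (hTR : S_TR) (hJB : S_JB)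
    (hQ : Qc n) (h : Hy (WA n)) :
    Elem (WB n) ((n.primeFactors.filter fun p => p % 3 = 2).card - 1) := by
  obtain ⟨h1, h2, h3⟩ := hypB hn h
  obtain ⟨h4, h5⟩ := strB hn hT2 hT3 hNP hSP hTR hJB hQ h2 h3
  have hf := fin_back (nn_ne hn) (by
    have e : (n : ℤ) ^ 2 - 4 * (n : ℤ) ^ 2 = -3 * (n : ℤ) ^ 2 := by ring
    rw [e]
    exact mul_ne_zero (by norm_num) (nn_ne hn)) h1
  unfold Elem
  rw [baseB]
  refine ⟨hf, ?_, h5⟩
  have h6 : (n.primeFactors.filter fun p => p % 3 = 2).card ≠ 0 := by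
    intro h0
    rw [h0] at h4
    omega
  obtain ⟨m, hm⟩ := Nat.exists_eq_succ_of_ne_zero h6
  rw [hm, Nat.succ_eq_add_one, pow_succ 2 m] at h4
  rw [hm, Nat.succ_eq_add_one, Nat.add_sub_cancel]
  exact Nat.eq_of_mul_eq_mul_left two_pos (h4.trans (mul_comm _ _))

/-- **`WC n`** -/
theorem elemC (hT2 : S_T2C) (hT3 : S_T3) (hNP : S_NP) (hSP : S_SP) (hTR : S_TR) (hJC : S_JC)
    (hQ : Qc n) (h : Hy (WA n)) :
    Elem (WC n) (n.primeFactors.filter fun p => ¬ IsSquare (3 : ZMod p)).card := by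
  obtain ⟨h1, h2, h3⟩ := hypC hn h
  obtain ⟨h4, h5⟩ := strC hn hT2 hT3 hNP hSP hTR hJC hQ h2 h3
  have hf := fin_back (nn_ne hn) (by
    have e : (-14 * (n : ℤ)) ^ 2 - 4 * (n : ℤ) ^ 2 = 192 * (n : ℤ) ^ 2 := by ring
    rw [e]
    exact mul_ne_zero (by norm_num) (nn_ne hn)) h1
  unfold Elem
  rw [baseC]
  exact ⟨hf, h4, h5⟩

/-- the hypotheses for `WD n`, `WE n` and `WF n` -/
theorem hyD (hSD : S_SD) (hLD : S_LOCD) (hJD : S_JD) (hTO : S_TO2) (hQ : Qc n) (h : Hy (WA n)) :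
    Hy (WD n) := by
  obtain ⟨h1, -, h3⟩ := hypD hn h
  have hf := fin_back (mul_ne_zero (by norm_num) (nn_ne hn)) (by
    have e : (10 * (n : ℤ)) ^ 2 - 4 * (9 * (n : ℤ) ^ 2) = 64 * (n : ℤ) ^ 2 := by ring
    rw [e]
    exact mul_ne_zero (by norm_num) (nn_ne hn)) h1
  refine ⟨?_, (hTO n hn h.2.1).1, ?_⟩
  · rw [baseD]
    exact hf
  · have h5 := hSD hLD hJD n hn hQ h3
    rw [baseD]
    exact h5

/-- **`WE n`** -/
theorem elemE (hSE : S_SE) (hLE : S_LOCE) (hJE : S_JE) (hTR : S_TR) (hQ : Qc n)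
    (h : Hy (WD n)) :
    Elem (WE n) (n.primeFactors.filter fun p => ¬ IsSquare (-2 : ZMod p)).card := by
  obtain ⟨h1, h2, h3⟩ := hypE hn h
  obtain ⟨h4, h5⟩ := hSE hLE hJE hTR n hn hQ h2 h3
  have hf := fin_back (mul_ne_zero (by norm_num) (nn_ne hn)) (by
    have e : (-14 * (n : ℤ)) ^ 2 - 4 * (81 * (n : ℤ) ^ 2) = -128 * (n : ℤ) ^ 2 := by ring
    rw [e]
    exact mul_ne_zero (by norm_num) (nn_ne hn)) h1
  unfold Elem
  rw [baseE]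
  exact ⟨hf, h4, h5⟩

/-- **`WF n`** -/
theorem elemF (hSF : S_SF) (hLF : S_LOCF) (hJF : S_JF) (hTR : S_TR) (hQ : Qc n)
    (h : Hy (WD n)) :
    Elem (WF n) ((n.primeFactors.filter fun p => ¬ IsSquare (2 : ZMod p)).card - 1) := by
  obtain ⟨h1, h2, h3⟩ := hypF hn h
  obtain ⟨h4, h5⟩ := hSF hLF hJF hTR n hn hQ h2 h3
  have hf := fin_back (mul_ne_zero (by norm_num) (nn_ne hn)) (by
    have e : (34 * (n : ℤ)) ^ 2 - 4 * (1 * (n : ℤ) ^ 2) = 1152 * (n : ℤ) ^ 2 := by ring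
    rw [e]
    exact mul_ne_zero (by norm_num) (nn_ne hn)) h1
  unfold Elem
  rw [baseF]
  refine ⟨hf, ?_, h5⟩
  have h6 : (n.primeFactors.filter fun p => ¬ IsSquare (2 : ZMod p)).card ≠ 0 := by
    intro h0
    rw [h0] at h4
    omega
  obtain ⟨m, hm⟩ := Nat.exists_eq_succ_of_ne_zero h6
  rw [hm, Nat.succ_eq_add_one, pow_succ 2 m] at h4
  rw [hm, Nat.succ_eq_add_one, Nat.add_sub_cancel]
  exact Nat.eq_of_mul_eq_mul_left two_pos (h4.trans (mul_comm _ _))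

end

end Pool.Agent.N818.SN
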