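import Pool.Agent.N818.SN.Core

/-!
# SN: the condition in terms of the class group of `ℚ(√-n)`

The proof follows helper877's `Results/MP_92892c_nt/TwoPartTwistsX24`.
-/

set_option autoImplicit false

open scoped Classical

namespace Pool.Agent.N818.SN

open Pool.Agent.N877.P24 (Qc)

/-- The ideal class group of `ℚ(√-n)` has no element of order four. -/
def NoFour (n : ℕ) : Prop :=
  ∀ (K : Type) [Field K] [NumberField K], Module.finrank ℚ K = 2 → (∃ s : K, s ^ 2 = -(n : K)) →
    ∀ c : ClassGroup (NumberField.RingOfIntegers K), orderOf c ≠ 4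

lemma order_iff {G : Type} [Group G] : (∀ c : G, orderOf c ≠ 4) ↔ ∀ c : G, c ^ 4 = 1 → c ^ 2 = 1 := by
  constructor
  · intro h c h4
    by_contra h2
    refine h c ?_
    have := orderOf_eq_prime_pow (x := c) (p := 2) (n := 1) (by simpa using h2)
      (by norm_num; exact h4)
    simpa using this
  · intro h c h4
    have h1 : c ^ 4 = 1 := by rw [← h4]; exact pow_orderOf_eq_one c
    have h2 := orderOf_dvd_of_pow_eq_one (h c h1)
    rw [h4] at h2
    omega

theorem noFour_iff {n : ℕ} (hn : Fm n) : NoFour n ↔ Qc n := by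
  have h11 := hn.2
  have h0 : 0 < n := by omega
  have key : ∀ (K : Type) [Field K] [NumberField K], Module.finrank ℚ K = 2 →
      (∃ s : K, s ^ 2 = -(n : K)) →
      ((∀ c : ClassGroup (NumberField.RingOfIntegers K), orderOf c ≠ 4) ↔ Qc n) := by
    intro K _ _ h6 h7
    rw [order_iff, Pool.Agent.N875.X15.qc_iff_class hn.1 (by omega) K h6 h7,
      ← Pool.Agent.N373.P24.qc_iff h0.ne']
  constructor
  · intro h8
    obtain ⟨K, i1, i2, h6, h7⟩ := Pool.Agent.N969.P15.exists_qf h0
    exact (key K h6 h7).1 (h8 K h6 h7)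
  · intro h8 K i1 i2 h6 h7
    exact (key K h6 h7).2 h8

end Pool.Agent.N818.SN
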