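import Pool.Agent.N818.SN.Stm
import Pool.Agent.N818.SN.Stm4
import Pool.Agent.N877.P24.All
import Pool.Agent.N875.X15.Main
import Pool.Agent.N969.P15.QF
import Pool.Agent.Z932.Z702.Trn
import Pool.Agent.Y545.Z702.Tor

/-!
# SN: the value at the centre, in the same form for all the curves of the isogeny class

The proof of `core` follows helper877's `Results/MP_92892c_nt/TwoPartTwistsX24`.
-/

set_option autoImplicit false
set_option linter.style.haveILetI false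

open scoped Classical

namespace Pool.Agent.N818.SN

open WeierstrassCurve MeasureTheory Finset
open Pool.Agent.TH841.SH.D (Sha)
open Pool.Agent.N877.P24 (Qc)
open Pool.Agent.N877.P24.All (Val Tm QQ val_all crit_all sha_all)
open Pool.Agent.N373.P24.Forms (W24)
open Pool.Agent.N373.P24x (cX)
open Pool.Agent.Z702 (WZ LocI)
open Pool.Agent.Y700 (VR)

/-- `L` is the entire continuation of the L-function of the curve `W` over `ℚ` -/
def IsL (W : WeierstrassCurve ℤ) (L : ℂ → ℂ) : Prop :=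
  Differentiable ℂ L ∧ ∀ s : ℂ, 2 < s.re → L s = (base W ℚ).LSeries s

/-- The product of the Tamagawa numbers. -/
noncomputable def Tam (W : WeierstrassCurve ℤ) (c : ℕ → ℕ) : ℕ := ∏ p ∈ W.Δ.natAbs.primeFactors, c p

/-- The order of the Tate-Shafarevich group predicted by the formula in rank zero. -/
noncomputable def anOrder (W : WeierstrassCurve ℤ) (l : ℂ) (c : ℕ → ℕ) : ℂ :=
  l * (torsOrder W : ℂ) ^ 2 / ((Omega W : ℝ) * (Tam W c : ℂ))

variable {n : ℕ}

lemma fm_good (hn : Fm n) : Squarefree n ∧ (n % 8 = 3 ∨ n % 4 = 2) ∧ n % 3 ≠ 1 :=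
  ⟨hn.1, by have := hn.2; omega, by have := hn.2; omega⟩

lemma qq_qc (hn : Fm n) : QQ n ↔ Qc n := by
  have := hn.2
  exact ⟨fun h => h.1 (by omega), fun h => ⟨fun _ => h, fun h0 => by omega⟩⟩

lemma W_eq (n : ℕ) : Pool.Agent.N971.MF.W n = WA n := by
  unfold Pool.Agent.N971.MF.W WA
  congr 1

lemma omega_eq (n : ℕ) : Omega (WA n) = 2 * ∫ x in {x : ℝ |
    0 < Pool.Agent.N971.MF.cubic (Pool.Agent.N971.MF.W n) x},
      1 / √(Pool.Agent.N971.MF.cubic (Pool.Agent.N971.MF.W n) x) := by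
  rw [W_eq]
  rfl

lemma twist_eq (n : ℕ) : WA n = W24 n := rfl

lemma base_eq (n : ℕ) : base (WA n) ℚ = Pool.Agent.N373.P24.EQm (-(n : ℤ)) := by
  rw [twist_eq]
  exact Pool.Agent.N373.P24.Forms.W24_eq n ▸ rfl

/-- the value -/
theorem coreA (hn : Fm n) : ∃ (L : ℂ → ℂ) (y : ℤ), IsL (WA n) L ∧ torsOrder (WA n) = 4 ∧
    0 < Omega (WA n) ∧
    L 1 = (((y : ℝ) ^ 2 * 4 ^ (n.primeFactors.card + 1) / 16 * Omega (WA n) : ℝ) : ℂ) ∧
    (Odd y ↔ Qc n) := by
  obtain ⟨h1, h2, h3⟩ := fm_good hn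
  obtain ⟨y, ⟨L, hL1, hL2, hL3, hL4⟩, hy⟩ := val_all h1 h2 h3
  have hlt : 1 < n := by
    have := hn.2
    omega
  have htor : torsOrder (WA n) = 4 := Pool.Agent.N373.P24x.tors_fourX h1 hlt
  have hΩ : 0 < Omega (WA n) := by
    rw [omega_eq]
    linarith
  have hT : (Tm n : ℝ) = 4 ^ (n.primeFactors.card + 1) := by
    unfold Tm
    have := hn.2
    rw [if_neg (by omega), if_neg (by omega)]
    push_cast
    ring
  rw [← omega_eq, hT] at hL3
  refine ⟨L, y, ⟨hL1, fun s hs => ?_⟩, htor, hΩ, hL3, hy.trans (qq_qc hn)⟩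
  rw [hL2 s hs, W_eq]

/-- the value of the predicted order for a curve of the isogeny class -/
theorem an_eq {W : WeierstrassCurve ℤ} {c : ℕ → ℕ} {l : ℂ} {y : ℤ} {t k a b T : ℕ}
    (hΩ : 0 < Omega (WA n)) (ha : 0 < a) (hb : 0 < b)
    (hl : l = (((y : ℝ) ^ 2 * 4 ^ (n.primeFactors.card + 1) / 16 * Omega (WA n) : ℝ) : ℂ))
    (ht : torsOrder W = t) (hO : (a : ℝ) * Omega W = b * Omega (WA n)) (hT : Tam W c = T)
    (hT0 : 0 < T) (he : 4 ^ (n.primeFactors.card + 1) * t ^ 2 * a = 16 * b * T * 2 ^ k) :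
    0 < Omega W ∧ anOrder W l c = 2 ^ k * (y : ℂ) ^ 2 := by
  have haR : (0 : ℝ) < a := by exact_mod_cast ha
  have hbR : (0 : ℝ) < b := by exact_mod_cast hb
  have hOm : Omega W = b / a * Omega (WA n) := by
    field_simp
    linarith
  have hpos : 0 < Omega W := by
    rw [hOm]
    positivity
  refine ⟨hpos, ?_⟩
  have haC : (a : ℂ) ≠ 0 := by exact_mod_cast ha.ne'
  have hbC : (b : ℂ) ≠ 0 := by exact_mod_cast hb.ne'
  have hTC : (T : ℂ) ≠ 0 := by exact_mod_cast hT0.ne'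
  have hΩC : ((Omega (WA n) : ℝ) : ℂ) ≠ 0 := by exact_mod_cast hΩ.ne'
  have heC : (4 : ℂ) ^ (n.primeFactors.card + 1) * (t : ℂ) ^ 2 * a = 16 * b * T * 2 ^ k := by
    exact_mod_cast he
  unfold anOrder
  rw [hl, ht, hT, hOm]
  push_cast
  rw [div_eq_iff (mul_ne_zero (mul_ne_zero (div_ne_zero hbC haC) hΩC) hTC)]
  field_simp
  linear_combination ((y : ℂ) ^ 2) * heC

/-! ### the products of the Tamagawa numbers -/

lemma pf_D (hn : Fm n) {a b : ℕ} (ha : a ≠ 0) (hb : b ≠ 0) :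
    (2 ^ a * 3 ^ b * n ^ 6).primeFactors = insert 2 (insert 3 n.primeFactors) := by
  have hn0 : n ≠ 0 := hn.1.ne_zero
  rw [Nat.primeFactors_mul (by positivity) (by positivity), Nat.primeFactors_mul (by positivity)
    (by positivity), Nat.primeFactors_prime_pow ha Nat.prime_two,
    Nat.primeFactors_prime_pow hb Nat.prime_three, Nat.primeFactors_pow _ (by norm_num : (6 : ℕ) ≠ 0)]
  ext p
  simp

lemma natAbs_D {W : WeierstrassCurve ℤ} {a b : ℕ} (h : W.Δ = 2 ^ a * 3 ^ b * (n : ℤ) ^ 6 ∨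
    W.Δ = -(2 ^ a * 3 ^ b * (n : ℤ) ^ 6)) : W.Δ.natAbs = 2 ^ a * 3 ^ b * n ^ 6 := by
  rcases h with h | h
  · rw [h, Int.natAbs_mul, Int.natAbs_mul, Int.natAbs_pow, Int.natAbs_pow, Int.natAbs_pow]
    simp
  · rw [h, Int.natAbs_neg, Int.natAbs_mul, Int.natAbs_mul, Int.natAbs_pow, Int.natAbs_pow,
      Int.natAbs_pow]
    simp

lemma two_notMem (hn : Fm n) : (2 : ℕ) ∉ insert 3 n.primeFactors := by
  rw [mem_insert, not_or]
  refine ⟨by norm_num, fun h => ?_⟩
  have h1 := Nat.dvd_of_mem_primeFactors h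
  have := hn.2
  omega

lemma three_notMem (hn : Fm n) : (3 : ℕ) ∉ n.primeFactors := fun h => by
  have h1 := Nat.dvd_of_mem_primeFactors h
  have := hn.2
  omega

/-- the product over the prime factors of `n` -/
lemma prod42 (n : ℕ) (c : ℕ → ℕ) (P : ℕ → Prop) [DecidablePred P]
    (hc : ∀ p ∈ n.primeFactors, c p = if P p then 4 else 2) :
    (∏ p ∈ n.primeFactors, c p) * 2 ^ (n.primeFactors.filter fun p => ¬ P p).card =
      4 ^ n.primeFactors.card := by
  rw [prod_congr rfl hc, prod_ite, prod_const, prod_const]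
  have h := card_filter_add_card_filter_not (s := n.primeFactors) (p := P)
  calc 4 ^ (n.primeFactors.filter P).card * 2 ^ (n.primeFactors.filter fun p => ¬ P p).card *
        2 ^ (n.primeFactors.filter fun p => ¬ P p).card =
        4 ^ (n.primeFactors.filter P).card * 4 ^ (n.primeFactors.filter fun p => ¬ P p).card := by
          rw [mul_assoc, ← pow_add, ← two_mul, pow_mul]
          norm_num
    _ = 4 ^ n.primeFactors.card := by rw [← pow_add, h]

lemma tam_eq (hn : Fm n) {W : WeierstrassCurve ℤ} {a b : ℕ} (ha : a ≠ 0) (hb : b ≠ 0)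
    (h : W.Δ = 2 ^ a * 3 ^ b * (n : ℤ) ^ 6 ∨ W.Δ = -(2 ^ a * 3 ^ b * (n : ℤ) ^ 6)) (c : ℕ → ℕ) :
    Tam W c = c 2 * (c 3 * ∏ p ∈ n.primeFactors, c p) := by
  unfold Tam
  rw [natAbs_D h, pf_D hn ha hb, prod_insert (two_notMem hn), prod_insert (three_notMem hn)]

lemma pf23 (hn : Fm n) {p : ℕ} (hp : p ∈ n.primeFactors) : p.Prime ∧ p ∣ n ∧ p ≠ 2 ∧ p ≠ 3 := by
  have h1 := Nat.dvd_of_mem_primeFactors hp
  have h2 := hn.2
  refine ⟨Nat.prime_of_mem_primeFactors hp, h1, ?_, ?_⟩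
  · rintro rfl
    omega
  · rintro rfl
    omega

lemma ΔA (n : ℕ) : (WA n).Δ = 2 ^ 8 * 3 ^ 2 * (n : ℤ) ^ 6 := by
  simp only [WA, WeierstrassCurve.Δ, WeierstrassCurve.b₂, WeierstrassCurve.b₄,
    WeierstrassCurve.b₆, WeierstrassCurve.b₈]
  ring

lemma ΔB (n : ℕ) : (WB n).Δ = -(2 ^ 4 * 3 ^ 1 * (n : ℤ) ^ 6) := by
  simp only [WB, WeierstrassCurve.Δ, WeierstrassCurve.b₂, WeierstrassCurve.b₄,
    WeierstrassCurve.b₆, WeierstrassCurve.b₈]
  ring

lemma ΔC (n : ℕ) : (WC n).Δ = 2 ^ 10 * 3 ^ 1 * (n : ℤ) ^ 6 := by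
  simp only [WC, WeierstrassCurve.Δ, WeierstrassCurve.b₂, WeierstrassCurve.b₄,
    WeierstrassCurve.b₆, WeierstrassCurve.b₈]
  ring

lemma ΔD (n : ℕ) : (WD n).Δ = 2 ^ 10 * 3 ^ 4 * (n : ℤ) ^ 6 := by
  simp only [WD, WeierstrassCurve.Δ, WeierstrassCurve.b₂, WeierstrassCurve.b₄,
    WeierstrassCurve.b₆, WeierstrassCurve.b₈]
  ring

lemma ΔE (n : ℕ) : (WE n).Δ = -(2 ^ 11 * 3 ^ 8 * (n : ℤ) ^ 6) := by
  simp only [WE, WeierstrassCurve.Δ, WeierstrassCurve.b₂, WeierstrassCurve.b₄,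
    WeierstrassCurve.b₆, WeierstrassCurve.b₈]
  ring

lemma ΔF (n : ℕ) : (WF n).Δ = 2 ^ 11 * 3 ^ 2 * (n : ℤ) ^ 6 := by
  simp only [WF, WeierstrassCurve.Δ, WeierstrassCurve.b₂, WeierstrassCurve.b₄,
    WeierstrassCurve.b₆, WeierstrassCurve.b₈]
  ring

/-- the Tamagawa numbers of the twist of `X_0(24)` -/
lemma tamA (hn : Fm n) : Tam (WA n) (cX n) = 4 ^ (n.primeFactors.card + 1) := by
  rw [tam_eq hn (by norm_num) (by norm_num) (Or.inl (ΔA n))]
  have h24 := hn.2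
  have e2 : cX n 2 = 2 := by
    unfold cX
    rw [if_pos rfl, if_neg (by omega)]
  have e3 : cX n 3 = 2 := by
    unfold cX
    rw [if_neg (by norm_num), if_pos rfl, if_neg (by omega)]
  have ep : ∀ p ∈ n.primeFactors, cX n p = 4 := by
    intro p hp
    obtain ⟨-, h1, h2, h3⟩ := pf23 hn hp
    unfold cX
    rw [if_neg h2, if_neg h3, if_pos h1]
  rw [e2, e3, prod_congr rfl ep, prod_const, pow_succ]
  ring

lemma tamB (hn : Fm n) : Tam (WB n) (cB n) * 2 ^ (n.primeFactors.filter fun p => p % 3 = 2).card =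
    2 * 4 ^ n.primeFactors.card := by
  rw [tam_eq hn (by norm_num) (by norm_num) (Or.inr (ΔB n))]
  have h24 := hn.2
  have e2 : cB n 2 = 2 := by
    unfold cB
    rw [if_pos rfl]
  have e3 : cB n 3 = 1 := by
    unfold cB
    rw [if_neg (by norm_num), if_neg (by omega)]
  have h := prod42 n (cB n) (fun p => p % 3 = 1) (fun p hp => by
    obtain ⟨-, h1, h2, h3⟩ := pf23 hn hp
    unfold cB
    rw [if_neg h2, if_pos h1])
  have e : (n.primeFactors.filter fun p => ¬ p % 3 = 1) = n.primeFactors.filter fun p => p % 3 = 2 := by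
    refine filter_congr fun p hp => ?_
    obtain ⟨hp', h1, h2, h3⟩ := pf23 hn hp
    have h4 : p % 3 ≠ 0 := fun h =>
      h3 ((Nat.prime_dvd_prime_iff_eq Nat.prime_three hp').1 (Nat.dvd_of_mod_eq_zero h)).symm
    omega
  rw [e] at h
  rw [e2, e3, ← h]
  ring

lemma tamC (hn : Fm n) : Tam (WC n) (cC n) *
    2 ^ (n.primeFactors.filter fun p => ¬ IsSquare (3 : ZMod p)).card = 2 * 4 ^ n.primeFactors.card := by
  rw [tam_eq hn (by norm_num) (by norm_num) (Or.inl (ΔC n))]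
  have h24 := hn.2
  have e2 : cC n 2 = 2 := by
    unfold cC
    rw [if_pos rfl]
  have e3 : cC n 3 = 1 := by
    unfold cC
    rw [if_neg (by norm_num), if_neg (by omega)]
  have h := prod42 n (cC n) (fun p => IsSquare (3 : ZMod p)) (fun p hp => by
    obtain ⟨-, h1, h2, h3⟩ := pf23 hn hp
    unfold cC
    rw [if_neg h2, if_pos h1])
  rw [e2, e3, ← h]
  ring

lemma tamD (hn : Fm n) : Tam (WD n) (cD n) = 4 ^ (n.primeFactors.card + 1) := by
  rw [tam_eq hn (by norm_num) (by norm_num) (Or.inl (ΔD n))]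
  have e2 : cD n 2 = 2 := by
    unfold cD
    rw [if_pos (Or.inl rfl)]
  have e3 : cD n 3 = 2 := by
    unfold cD
    rw [if_pos (Or.inr rfl)]
  have ep : ∀ p ∈ n.primeFactors, cD n p = 4 := by
    intro p hp
    obtain ⟨-, h1, h2, h3⟩ := pf23 hn hp
    unfold cD
    rw [if_neg (by tauto), if_pos h1]
  rw [e2, e3, prod_congr rfl ep, prod_const, pow_succ]
  ring

lemma tamE (hn : Fm n) : Tam (WE n) (cE n) *
    2 ^ (n.primeFactors.filter fun p => ¬ IsSquare (-2 : ZMod p)).card =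
      2 * 4 ^ n.primeFactors.card := by
  rw [tam_eq hn (by norm_num) (by norm_num) (Or.inr (ΔE n))]
  have h24 := hn.2
  have e2 : cE n 2 = 1 := by
    unfold cE
    rw [if_neg (by norm_num), if_neg (by omega)]
  have e3 : cE n 3 = 2 := by
    unfold cE
    rw [if_pos rfl]
  have h := prod42 n (cE n) (fun p => IsSquare (-2 : ZMod p)) (fun p hp => by
    obtain ⟨-, h1, h2, h3⟩ := pf23 hn hp
    unfold cE
    rw [if_neg h3, if_pos h1])
  rw [e2, e3, ← h]
  ring

lemma tamF (hn : Fm n) : Tam (WF n) (cF n) *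
    2 ^ (n.primeFactors.filter fun p => ¬ IsSquare (2 : ZMod p)).card =
      2 * 4 ^ n.primeFactors.card := by
  rw [tam_eq hn (by norm_num) (by norm_num) (Or.inl (ΔF n))]
  have h24 := hn.2
  have e2 : cF n 2 = 1 := by
    unfold cF
    rw [if_neg (by norm_num), if_neg (by omega)]
  have e3 : cF n 3 = 2 := by
    unfold cF
    rw [if_pos rfl]
  have h := prod42 n (cF n) (fun p => IsSquare (2 : ZMod p)) (fun p hp => by
    obtain ⟨-, h1, h2, h3⟩ := pf23 hn hp
    unfold cF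
    rw [if_neg h3, if_pos h1])
  rw [e2, e3, ← h]
  ring

/-- the rank and `Ш[2]` for the twist of `X_0(24)` -/
theorem critA (hn : Fm n) : (Finite (base (WA n) ℚ).toAffine.Point ∧
    ∀ x : Sha (base (WA n) ℚ), x + x = 0 → x = 0) ↔ Qc n := by
  obtain ⟨h1, h2, h3⟩ := fm_good hn
  rw [base_eq, crit_all h1 h2 h3]
  exact qq_qc hn

theorem shaA (hn : Fm n) (hQ : Qc n) (k : ℕ) (x : Sha (base (WA n) ℚ)) (hx : 2 ^ k • x = 0) :
    x = 0 := by
  obtain ⟨h1, h2, h3⟩ := fm_good hn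
  revert x
  rw [base_eq]
  exact fun x hx => sha_all h1 h2 h3 ((qq_qc hn).2 hQ) k x hx

/-- the Euler factors determine the L-series -/
theorem lser {W W' : WeierstrassCurve ℤ} (h : ∀ v : IsDedekindDomain.HeightOneSpectrum
    (NumberField.RingOfIntegers ℚ),
    ((base W ℚ).baseChange (v.adicCompletion ℚ)).localEulerFactor
        (v.adicCompletionIntegers ℚ) =
      ((base W' ℚ).baseChange (v.adicCompletion ℚ)).localEulerFactor
        (v.adicCompletionIntegers ℚ)) {L : ℂ → ℂ} (hL : IsL W' L) : IsL W L := by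
  refine ⟨hL.1, fun s hs => ?_⟩
  rw [hL.2 s hs]
  have h1 : (base W ℚ).LFunction = (base W' ℚ).LFunction := by
    unfold WeierstrassCurve.LFunction
    congr 1
    funext v
    exact h v
  unfold WeierstrassCurve.LSeries
  rw [h1]

end Pool.Agent.N818.SN
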