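import Pool.Agent.N818.SN.Hyp

/-!
# SN: the six curves of the isogeny class together
-/

set_option autoImplicit false
set_option linter.style.haveILetI false

open scoped Classical

namespace Pool.Agent.N818.SN

open WeierstrassCurve Finset
open Pool.Agent.TH841.SH.D (Sha)
open Pool.Agent.N877.P24 (Qc)
open Pool.Agent.N373.P24x (cX)

/-- the parts -/
structure Parts : Prop where
  MIN : S_MIN
  TO : S_TO
  TB : S_TB
  TC : S_TC
  LB : S_LB
  LC : S_LC
  OB : S_OB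
  OC : S_OC
  T2B : S_T2B
  T2C : S_T2C
  T3 : S_T3
  NP : S_NP
  SP : S_SP
  TR : S_TR
  JB : S_JB
  JC : S_JC
  MIN2 : S_MIN2
  TO2 : S_TO2
  TD : S_TD
  TE : S_TE
  TF : S_TF
  LD : S_LD
  LE : S_LE
  LF : S_LF
  OD : S_OD
  OE : S_OE
  OF : S_OF
  LOCD : S_LOCD
  LOCE : S_LOCE
  LOCF : S_LOCF
  JD : S_JD
  JE : S_JE
  JF : S_JF
  SD : S_SD
  SE : S_SE
  SF : S_SF

/-- the six curves -/
def WW (i : Fin 6) (n : ℕ) : WeierstrassCurve ℤ :=
  (![WA n, WD n, WB n, WC n, WE n, WF n] : Fin 6 → WeierstrassCurve ℤ) i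

/-- the number of the prime factors modulo which `c` is not a square -/
noncomputable def nsq (c : ℤ) (n : ℕ) : ℕ := (n.primeFactors.filter fun p => ¬ IsSquare (c : ZMod p)).card

/-- the exponents -/
noncomputable def ex (i : Fin 6) (n : ℕ) : ℕ :=
  (![0, 0, nsq (-3) n - 1, nsq 3 n, nsq (-2) n, nsq 2 n - 1] : Fin 6 → ℕ) i

/-- the orders of the torsion subgroups -/
def tor6 (i : Fin 6) : ℕ := (![4, 4, 2, 2, 2, 2] : Fin 6 → ℕ) i

/-- the factors of the products of the Tamagawa numbers -/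
def tam6 (i : Fin 6) : ℕ := (![4, 4, 1, 2, 2, 1] : Fin 6 → ℕ) i

variable {n : ℕ}

lemma fin24 (P : ℕ → Prop) (h : ∀ r < 24, r % 2 = 1 → r % 3 ≠ 0 → P r) {p : ℕ} (h2 : p % 2 = 1)
    (h3 : p % 3 ≠ 0) : P (p % 24) :=
  h _ (Nat.mod_lt _ (by norm_num)) (by rw [Nat.mod_mod_of_dvd p (by norm_num)]; exact h2)
    (by rw [Nat.mod_mod_of_dvd p (by norm_num)]; exact h3)

lemma m24 (p : ℕ) : p % 24 % 3 = p % 3 ∧ p % 24 % 12 = p % 12 ∧ p % 24 % 8 = p % 8 :=
  ⟨Nat.mod_mod_of_dvd p (by norm_num), Nat.mod_mod_of_dvd p (by norm_num),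
    Nat.mod_mod_of_dvd p (by norm_num)⟩

lemma sq_neg_three (hn : Fm n) {p : ℕ} (hp : p ∈ n.primeFactors) :
    ¬ IsSquare (((-3 : ℤ)) : ZMod p) ↔ p % 24 ∈ ({5, 11, 17, 23} : Finset ℕ) := by
  obtain ⟨h1, h2, h3, h4⟩ := pf23 hn hp
  haveI : Fact p.Prime := ⟨h1⟩
  have h5 := sqm3_iff p h3 h4
  have h6 : p % 2 = 1 := by
    have := h1.eq_two_or_odd
    omega
  have h7 := mod3_ne h1 h4
  push_cast
  rw [h5]
  rw [← (m24 p).1]
  exact fin24 (fun r => ¬ r % 3 = 1 ↔ r ∈ ({5, 11, 17, 23} : Finset ℕ)) (by decide) h6 h7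

lemma sq_three (hn : Fm n) {p : ℕ} (hp : p ∈ n.primeFactors) :
    ¬ IsSquare (((3 : ℤ)) : ZMod p) ↔ p % 24 ∈ ({5, 7, 17, 19} : Finset ℕ) := by
  obtain ⟨h1, h2, h3, h4⟩ := pf23 hn hp
  haveI : Fact p.Prime := ⟨h1⟩
  have h5 := sq3_iff p h3 h4
  have h6 : p % 2 = 1 := by
    have := h1.eq_two_or_odd
    omega
  have h7 := mod3_ne h1 h4
  push_cast
  rw [h5]
  rw [← (m24 p).2.1]
  exact fin24 (fun r => ¬ (r % 12 = 1 ∨ r % 12 = 11) ↔ r ∈ ({5, 7, 17, 19} : Finset ℕ)) (by decide) h6 h7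

lemma sq_neg_two (hn : Fm n) {p : ℕ} (hp : p ∈ n.primeFactors) :
    ¬ IsSquare (((-2 : ℤ)) : ZMod p) ↔ p % 24 ∈ ({5, 7, 13, 23} : Finset ℕ) := by
  obtain ⟨h1, h2, h3, h4⟩ := pf23 hn hp
  haveI : Fact p.Prime := ⟨h1⟩
  have h5 := ZMod.exists_sq_eq_neg_two_iff (p := p) h3
  have h6 : p % 2 = 1 := by
    have := h1.eq_two_or_odd
    omega
  have h7 := mod3_ne h1 h4
  push_cast
  rw [h5]
  rw [← (m24 p).2.2]
  exact fin24 (fun r => ¬ (r % 8 = 1 ∨ r % 8 = 3) ↔ r ∈ ({5, 7, 13, 23} : Finset ℕ)) (by decide) h6 h7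

lemma sq_two (hn : Fm n) {p : ℕ} (hp : p ∈ n.primeFactors) :
    ¬ IsSquare (((2 : ℤ)) : ZMod p) ↔ p % 24 ∈ ({5, 11, 13, 19} : Finset ℕ) := by
  obtain ⟨h1, h2, h3, h4⟩ := pf23 hn hp
  haveI : Fact p.Prime := ⟨h1⟩
  have h5 := ZMod.exists_sq_eq_two_iff (p := p) h3
  have h6 : p % 2 = 1 := by
    have := h1.eq_two_or_odd
    omega
  have h7 := mod3_ne h1 h4
  push_cast
  rw [h5]
  rw [← (m24 p).2.2]
  exact fin24 (fun r => ¬ (r % 8 = 1 ∨ r % 8 = 7) ↔ r ∈ ({5, 11, 13, 19} : Finset ℕ)) (by decide) h6 h7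

lemma mX0 (hn : Fm n) : mX 0 n = nsq (-3) n := by
  unfold nsq
  exact congrArg card (filter_congr fun p hp => (sq_neg_three hn hp).symm)

lemma mX1 (hn : Fm n) : mX 1 n = nsq 3 n := by
  unfold nsq
  exact congrArg card (filter_congr fun p hp => (sq_three hn hp).symm)

lemma mX2 (hn : Fm n) : mX 2 n = nsq (-2) n := by
  unfold nsq
  exact congrArg card (filter_congr fun p hp => (sq_neg_two hn hp).symm)

lemma mX3 (hn : Fm n) : mX 3 n = nsq 2 n := by
  unfold nsq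
  exact congrArg card (filter_congr fun p hp => (sq_two hn hp).symm)

lemma nsq_neg_three (hn : Fm n) :
    nsq (-3) n = (n.primeFactors.filter fun p => p % 3 = 2).card := by
  unfold nsq
  refine congrArg card (filter_congr fun p hp => ?_)
  rw [sq_neg_three hn hp]
  obtain ⟨h1, h2, h3, h4⟩ := pf23 hn hp
  have h6 : p % 2 = 1 := by
    have := h1.eq_two_or_odd
    omega
  have h7 := mod3_ne h1 h4
  rw [← (m24 p).1]
  exact fin24 (fun r => r ∈ ({5, 11, 17, 23} : Finset ℕ) ↔ r % 3 = 2) (by decide) h6 h7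

/-- a product of numbers in a subgroup of the classes -/
lemma exists_pf (hn : Fm n) {m : ℕ} (S : Finset ℕ) (h1 : 1 % m ∈ S)
    (hS : ∀ a ∈ S, ∀ b ∈ S, a * b % m ∈ S) (hr : n % m ∉ S) :
    ∃ p ∈ n.primeFactors, p % m ∉ S := by
  by_contra h
  push Not at h
  have h2 : ∀ J : Finset ℕ, J ⊆ n.primeFactors → (∏ p ∈ J, p) % m ∈ S := by
    intro J
    induction J using Finset.induction_on with
    | empty => intro _; simpa using h1
    | insert q J hq ih =>
      intro hJ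
      rw [prod_insert hq, Nat.mul_mod]
      exact hS _ (h q (hJ (mem_insert_self _ _))) _ (ih ((subset_insert _ _).trans hJ))
  have h3 := h2 _ Subset.rfl
  rw [Nat.prod_primeFactors_of_squarefree hn.1] at h3
  exact hr h3

lemma nsq3_pos (hn : Fm n) : 0 < nsq (-3) n := by
  rw [nsq_neg_three hn]
  obtain ⟨p, hp, h⟩ := exists_pf hn (m := 3) {0, 1} (by decide) (by decide) (by
    have := hn.2
    have h1 : n % 3 = 2 := by omega
    rw [h1]
    decide)
  refine card_pos.2 ⟨p, mem_filter.2 ⟨hp, ?_⟩⟩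
  simp only [mem_insert, mem_singleton] at h
  omega

lemma nsq2_pos (hn : Fm n) : 0 < nsq 2 n := by
  obtain ⟨p, hp, h⟩ := exists_pf hn (m := 8) {1, 7} (by decide) (by decide) (by
    have := hn.2
    have h1 : n % 8 = 3 := by omega
    rw [h1]
    decide)
  unfold nsq
  refine card_pos.2 ⟨p, mem_filter.2 ⟨hp, ?_⟩⟩
  rw [sq_two hn hp]
  obtain ⟨h1, h2, h3, h4⟩ := pf23 hn hp
  have h6 : p % 2 = 1 := by
    have := h1.eq_two_or_odd
    omega
  have h7 := mod3_ne h1 h4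
  rw [← (m24 p).2.2] at h
  exact fin24 (fun r => r % 8 ∉ ({1, 7} : Finset ℕ) → r ∈ ({5, 11, 13, 19} : Finset ℕ)) (by decide) h6 h7 h

/-- the statement for one of the curves -/
def Curve (W : WeierstrassCurve ℤ) (L : ℂ → ℂ) (y : ℤ) (t k T : ℕ) : Prop :=
  Minimal W ∧ IsL W L ∧ torsOrder W = t ∧ 0 < Omega W ∧
    ∃ c : ℕ → ℕ, IsTamagawa W c ∧ Tam W c * 2 ^ k = T ∧ anOrder W (L 1) c = 2 ^ k * (y : ℂ) ^ 2

lemma curve {W : WeierstrassCurve ℤ} {L : ℂ → ℂ} {y : ℤ} {t k T a b : ℕ} {c : ℕ → ℕ}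
    (hΩ : 0 < Omega (WA n)) (ha : 0 < a) (hb : 0 < b) (hM : Minimal W) (hL : IsL W L)
    (hl : L 1 = (((y : ℝ) ^ 2 * 4 ^ (n.primeFactors.card + 1) / 16 * Omega (WA n) : ℝ) : ℂ))
    (ht : torsOrder W = t) (hO : (a : ℝ) * Omega W = b * Omega (WA n)) (hc : IsTamagawa W c)
    (hT : Tam W c * 2 ^ k = T) (hT0 : 0 < T)
    (he : 4 ^ (n.primeFactors.card + 1) * t ^ 2 * a = 16 * b * T) : Curve W L y t k T := by
  have h0 : 0 < Tam W c := by
    rcases Nat.eq_zero_or_pos (Tam W c) with h | h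
    · rw [h, zero_mul] at hT
      omega
    · exact h
  obtain ⟨h1, h2⟩ := an_eq (k := k) hΩ ha hb hl ht hO rfl h0 (by rw [he, ← hT]; ring)
  exact ⟨hM, hL, ht, h1, c, hc, hT, h2⟩

/-- **the values for all the curves** -/
theorem six (H : Parts) (hn : Fm n) : ∃ (L : ℂ → ℂ) (y : ℤ), (Odd y ↔ Qc n) ∧
    (y ≠ 0 → L 1 ≠ 0) ∧
    ∀ i, Curve (WW i n) L y (tor6 i) (ex i n) (tam6 i * 4 ^ n.primeFactors.card) := by
  obtain ⟨L, y, hL, ht, hΩ, hl, hy⟩ := coreA hn
  have h0 : 0 < n := by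
    have := hn.2
    omega
  have hLD := lser (H.LD n hn) hL
  have hLE := lser (H.LE n hn) hLD
  have hLF := lser (H.LF n hn) hLD
  have hLB := lser (H.LB n hn) hL
  have hLC := lser (H.LC n hn) hL
  have hTO := H.TO n hn ht
  have hTO2 := H.TO2 n hn ht
  have hp3 := nsq3_pos hn
  have hp2 := nsq2_pos hn
  have hOE := H.OE n h0
  have hOF := H.OF n h0
  rw [H.OD n h0] at hOE hOF
  obtain ⟨k3, hk3⟩ : ∃ k, nsq (-3) n = k + 1 := ⟨nsq (-3) n - 1, by omega⟩
  obtain ⟨k2, hk2⟩ : ∃ k, nsq 2 n = k + 1 := ⟨nsq 2 n - 1, by omega⟩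
  have hTB := tamB hn
  rw [← nsq_neg_three hn, hk3] at hTB
  have hTC := tamC hn
  have hTE := tamE hn
  have hTF := tamF hn
  have e3 : (n.primeFactors.filter fun p => ¬ IsSquare (3 : ZMod p)).card = nsq 3 n := by
    unfold nsq
    push_cast
    rfl
  have e2 : (n.primeFactors.filter fun p => ¬ IsSquare (2 : ZMod p)).card = nsq 2 n := by
    unfold nsq
    push_cast
    rfl
  have em2 : (n.primeFactors.filter fun p => ¬ IsSquare (-2 : ZMod p)).card = nsq (-2) n := by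
    unfold nsq
    push_cast
    rfl
  rw [e3] at hTC
  rw [em2] at hTE
  rw [e2, hk2] at hTF
  refine ⟨L, y, hy, fun hy0 hL0 => ?_, fun i => ?_⟩
  · rw [hL0] at hl
    have h5 : (y : ℝ) ^ 2 * 4 ^ (n.primeFactors.card + 1) / 16 * Omega (WA n) = 0 := by
      exact_mod_cast hl.symm
    have h6 : (y : ℝ) ≠ 0 := by exact_mod_cast hy0
    exact absurd h5 (mul_ne_zero (div_ne_zero (mul_ne_zero (pow_ne_zero 2 h6)
      (pow_ne_zero _ (by norm_num))) (by norm_num)) hΩ.ne')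
  · fin_cases i
    · show Curve (WA n) L y 4 0 (4 * 4 ^ n.primeFactors.card)
      refine curve (n := n) (a := 1) (b := 1) hΩ one_pos one_pos
        (Pool.Agent.N373.P24x.minimalX hn.1 (fm_good hn).2.1) hL hl ht rfl
        (Pool.Agent.N373.P24x.tamagawaX hn.1 (fm_good hn).2.1) ?_ (by positivity) ?_
      · show Tam (WA n) (cX n) * 2 ^ 0 = _
        rw [tamA hn]
        ring
      · ring
    · show Curve (WD n) L y 4 0 (4 * 4 ^ n.primeFactors.card)
      refine curve (n := n) (a := 1) (b := 1) hΩ one_pos one_pos (H.MIN2 n hn).1 hLD hl hTO2.1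
        (by rw [H.OD n h0]) (H.TD n hn) ?_ (by positivity) ?_
      · rw [tamD hn]
        ring
      · ring
    · show Curve (WB n) L y 2 (nsq (-3) n - 1) (1 * 4 ^ n.primeFactors.card)
      rw [hk3, Nat.add_sub_cancel]
      refine curve (n := n) (a := 1) (b := 1) hΩ one_pos one_pos (H.MIN n hn).1 hLB hl hTO.1
        (by rw [H.OB n h0]) (H.TB n hn) ?_ (by positivity) ?_
      · rw [pow_succ 2 k3] at hTB
        linarith
      · ring
    · show Curve (WC n) L y 2 (nsq 3 n) (2 * 4 ^ n.primeFactors.card)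
      refine curve (n := n) (a := 2) (b := 1) hΩ two_pos one_pos (H.MIN n hn).2 hLC hl hTO.2
        (by have := H.OC n h0; push_cast; linarith) (H.TC n hn) hTC (by positivity) ?_
      ring
    · show Curve (WE n) L y 2 (nsq (-2) n) (2 * 4 ^ n.primeFactors.card)
      refine curve (n := n) (a := 2) (b := 1) hΩ two_pos one_pos (H.MIN2 n hn).2.1 hLE hl hTO2.2.1
        (by push_cast; linarith) (H.TE n hn) hTE (by positivity) ?_
      ring
    · show Curve (WF n) L y 2 (nsq 2 n - 1) (1 * 4 ^ n.primeFactors.card)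
      rw [hk2, Nat.add_sub_cancel]
      refine curve (n := n) (a := 1) (b := 1) hΩ one_pos one_pos (H.MIN2 n hn).2.2 hLF hl hTO2.2.2
        (by push_cast; linarith) (H.TF n hn) ?_ (by positivity) ?_
      · rw [pow_succ 2 k2] at hTF
        linarith
      · ring

/-- **the groups `Ш` for all the curves** -/
theorem sixSha (H : Parts) (hn : Fm n) (hQ : Qc n) (i : Fin 6) : Elem (WW i n) (ex i n) := by
  obtain ⟨L, y, -, ht, -⟩ := coreA hn
  have hA := hyA hn hQ ht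
  have hD := hyD hn H.SD H.LOCD H.JD H.TO2 hQ hA
  fin_cases i
  · exact elem_zero hA.1 hA.2.2
  · exact elem_zero hD.1 hD.2.2
  · show Elem (WB n) (nsq (-3) n - 1)
    rw [nsq_neg_three hn]
    exact elemB hn H.T2B H.T3 H.NP H.SP H.TR H.JB hQ hA
  · show Elem (WC n) (nsq 3 n)
    have h := elemC hn H.T2C H.T3 H.NP H.SP H.TR H.JC hQ hA
    unfold nsq
    push_cast
    exact h
  · show Elem (WE n) (nsq (-2) n)
    have h := elemE hn H.SE H.LOCE H.JE H.TR hQ hD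
    unfold nsq
    push_cast
    exact h
  · show Elem (WF n) (nsq 2 n - 1)
    have h := elemF hn H.SF H.LOCF H.JF H.TR hQ hD
    unfold nsq
    push_cast
    exact h

end Pool.Agent.N818.SN
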