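import Pool.Agent.N818.SN.Law4
import Pool.Agent.N818.SN.Six
import Pool.Agent.N818.SN.Cls

/-!
# SN: the densities and the law in terms of the exponents
-/

set_option autoImplicit false

open scoped Classical

namespace Pool.Agent.N818.SN

open Finset Filter
open Pool.Agent.N877.P24 (Qc)
open Pool.Agent.N916.GB (eta)

lemma ex_two {n : ℕ} (hn : Fm n) : (ex 2 n : ℝ) = mX 0 n + -1 := by
  have h1 : ex 2 n = nsq (-3) n - 1 := rfl
  have h2 := nsq3_pos hn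
  rw [h1, mX0 hn, Nat.cast_sub h2]
  push_cast
  ring

lemma ex_three {n : ℕ} (hn : Fm n) : (ex 3 n : ℝ) = mX 1 n + 0 := by
  have h1 : ex 3 n = nsq 3 n := rfl
  rw [h1, mX1 hn, add_zero]

lemma ex_four {n : ℕ} (hn : Fm n) : (ex 4 n : ℝ) = mX 2 n + 0 := by
  have h1 : ex 4 n = nsq (-2) n := rfl
  rw [h1, mX2 hn, add_zero]

lemma ex_five {n : ℕ} (hn : Fm n) : (ex 5 n : ℝ) = mX 3 n + -1 := by
  have h1 : ex 5 n = nsq 2 n - 1 := rfl
  have h2 := nsq2_pos hn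
  rw [h1, mX3 hn, Nat.cast_sub h2]
  push_cast
  ring

lemma sum_ex {n : ℕ} (hn : Fm n) (w : Fin 6 → ℝ) : ∑ i, w i * (ex i n : ℝ) =
    ∑ i : Fin 4, (![w 2, w 3, w 4, w 5] : Fin 4 → ℝ) i *
      ((mX i n : ℝ) + (![-1, 0, 0, -1] : Fin 4 → ℝ) i) := by
  have h0 : ex 0 n = 0 := rfl
  have h1 : ex 1 n = 0 := rfl
  rw [Fin.sum_univ_six, Fin.sum_univ_four, h0, h1, ex_two hn, ex_three hn, ex_four hn, ex_five hn]
  simp

/-- **the joint law of the exponents** -/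
theorem lawE (hAMF : S_AMF) (hGL4 : S_GL4) (w : Fin 6 → ℝ)
    (hw : ¬ (w 2 = 0 ∧ w 3 = 0 ∧ w 4 = 0 ∧ w 5 = 0)) (t : ℝ) :
    Tendsto (fun X : ℕ => (((cls24 X).filter fun n => NoFour n ∧
      ∑ i, w i * (ex i n : ℝ) ≤ (w 2 + w 3 + w 4 + w 5) / 2 * Real.log (Real.log X) +
        t * √(((w 2 + w 3 + w 4 + w 5) ^ 2 + (w 2 ^ 2 + w 3 ^ 2 + w 4 ^ 2 + w 5 ^ 2)) / 4 *
          Real.log (Real.log X))).card : ℝ) / ((cls24 X).card : ℝ)) atTop
      (nhds (eta * (ProbabilityTheory.gaussianReal 0 1).real (Set.Iic t))) := by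
  have hw' : (![w 2, w 3, w 4, w 5] : Fin 4 → ℝ) ≠ 0 := by
    intro h
    exact hw ⟨congrFun h 0, congrFun h 1, congrFun h 2, congrFun h 3⟩
  have h1 := law4 hAMF hGL4 ![w 2, w 3, w 4, w 5] ![-1, 0, 0, -1] t hw'
  have e1 : ∑ i : Fin 4, (![w 2, w 3, w 4, w 5] : Fin 4 → ℝ) i = w 2 + w 3 + w 4 + w 5 := by
    rw [Fin.sum_univ_four]
    simp
  have e2 : ∑ i : Fin 4, (![w 2, w 3, w 4, w 5] : Fin 4 → ℝ) i ^ 2 =
      w 2 ^ 2 + w 3 ^ 2 + w 4 ^ 2 + w 5 ^ 2 := by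
    rw [Fin.sum_univ_four]
    simp
  rw [e1, e2] at h1
  refine h1.congr fun X => ?_
  congr 3
  refine filter_congr fun n hn => ?_
  have hF := (mem_cls.1 hn).2
  rw [noFour_iff hF, sum_ex hF]

lemma ge_iff {n V : ℕ} (hn : Fm n) : (∀ i : Fin 6, 2 ≤ i → V ≤ ex i n) ↔
    V + 1 ≤ mX 0 n ∧ V ≤ mX 1 n ∧ V ≤ mX 2 n ∧ V + 1 ≤ mX 3 n := by
  have h2 : ex 2 n = mX 0 n - 1 := by rw [mX0 hn]; rfl
  have h3 : ex 3 n = mX 1 n := by rw [mX1 hn]; rfl
  have h4 : ex 4 n = mX 2 n := by rw [mX2 hn]; rfl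
  have h5 : ex 5 n = mX 3 n - 1 := by rw [mX3 hn]; rfl
  have p2 : 0 < mX 0 n := by rw [mX0 hn]; exact nsq3_pos hn
  have p5 : 0 < mX 3 n := by rw [mX3 hn]; exact nsq2_pos hn
  constructor
  · intro h
    have g2 := h 2 (by decide)
    have g3 := h 3 (by decide)
    have g4 := h 4 (by decide)
    have g5 := h 5 (by decide)
    omega
  · rintro ⟨g2, g3, g4, g5⟩ i hi
    fin_cases i
    · exact absurd hi (by decide)
    · exact absurd hi (by decide)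
    · show V ≤ ex 2 n
      omega
    · show V ≤ ex 3 n
      omega
    · show V ≤ ex 4 n
      omega
    · show V ≤ ex 5 n
      omega

/-- **the density above every bound** -/
theorem densE (hAMF : S_AMF) (hGL4 : S_GL4) (V : ℕ) :
    Tendsto (fun X : ℕ => (((cls24 X).filter fun n => NoFour n ∧
      ∀ i : Fin 6, 2 ≤ i → V ≤ ex i n).card : ℝ) / ((cls24 X).card : ℝ)) atTop (nhds eta) := by
  refine tendsto_of_tendsto_of_tendsto_of_le_of_le (densV hAMF hGL4 (V + 1)) (densV hAMF hGL4 V)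
    (fun X => ?_) (fun X => ?_)
  · refine div_le_div_of_nonneg_right ?_ (Nat.cast_nonneg _)
    refine Nat.cast_le.2 (card_le_card fun n hn => ?_)
    obtain ⟨h1, h2, h3⟩ := mem_filter.1 hn
    have hF := (mem_cls.1 h1).2
    refine mem_filter.2 ⟨h1, (noFour_iff hF).2 h2, (ge_iff hF).2 ?_⟩
    exact ⟨h3 0, (Nat.le_succ V).trans (h3 1), (Nat.le_succ V).trans (h3 2), h3 3⟩
  · refine div_le_div_of_nonneg_right ?_ (Nat.cast_nonneg _)
    refine Nat.cast_le.2 (card_le_card fun n hn => ?_)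
    obtain ⟨h1, h2, h3⟩ := mem_filter.1 hn
    have hF := (mem_cls.1 h1).2
    obtain ⟨g0, g1, g2, g3⟩ := (ge_iff hF).1 h3
    refine mem_filter.2 ⟨h1, (noFour_iff hF).1 h2, fun i => ?_⟩
    fin_cases i
    · exact (Nat.le_succ V).trans g0
    · exact g1
    · exact g2
    · exact (Nat.le_succ V).trans g3

end Pool.Agent.N818.SN
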