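import Pool.Agent.N818.SL.Str
import Pool.Agent.N818.SN.Stm

/-!
# SN: the classes `coc d` of the points of the isogenous curve over `ℚ`, general lemmas
-/

set_option autoImplicit false

open scoped Classical

namespace Pool.Agent.N818.SN

open Finset WeierstrassCurve
open Pool.Agent.TH841.SH.D
open Pool.Agent.Z702 (LocI WZ coc T0)
open Pool.Agent.N818.SL (coc_add cls cls_eq cls_add cls_zero_iff prim lcb cob_of_eq)

variable {a b : ℤ}

section

attribute [-instance] DivisionRing.toRatAlgebra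

lemma act_id {W : WeierstrassCurve ℚ} (P : Pt W (AlgebraicClosure ℚ)) :
    act W (AlgHom.id ℚ (AlgebraicClosure ℚ)) P = P := by
  rcases P with _ | ⟨x, y, h⟩
  · rfl
  · rfl

/-- the class of a rational point of the isogenous curve is trivial -/
theorem loc_cob (hb : b ≠ 0) (hab : a ^ 2 - 4 * b ≠ 0) {d : ℤ} (hd : d ≠ 0)
    (h : LocI ℚ a b d) : IsCob (WZ a b) (coc hb d) := by
  obtain ⟨P, hP⟩ := Pool.Agent.Y210.Z702.t_LOT a b hb d hab hd ℚ h (AlgHom.id ℚ _)
  refine ⟨P, fun σ => ?_⟩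
  have h1 := hP σ σ (fun x => rfl)
  rw [act_id] at h1
  exact h1

end

lemma coc_two (hb : b ≠ 0) (y : ℤ) : coc (a := a) hb y + coc hb y = 0 :=
  (Pool.Agent.Z488.t_COC a b hb y : IsCoc (WZ a b) _ ∧ _).2

/-- two classes are equal iff the class of the product is trivial -/
lemma cob_sub (hb : b ≠ 0) {x y c m : ℤ} (hx : x ≠ 0) (hy : y ≠ 0) (hm : m ≠ 0)
    (hxy : x * y = c * m ^ 2) :
    IsCob (WZ a b) (coc hb x - coc hb y) ↔ IsCob (WZ a b) (coc hb c) := by
  have h3 := coc_add (a := a) hb hx hy hm hxy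
  have e : coc (a := a) hb x - coc hb y = coc hb c := by
    rw [h3, sub_eq_iff_eq_add, add_assoc, coc_two, add_zero]
  rw [e]

/-- the classes of the rational points, if `E'(ℚ)` is finite of order four times an odd number -/
theorem cob_tor (hTR : S_TR) {n d : ℤ} (hn : n ≠ 0) (hb : n ^ 2 ≠ 0)
    (hab : a ^ 2 - 4 * n ^ 2 ≠ 0) (hd : d ≠ 0)
    (hk : ∃ k : ℕ, Odd k ∧ Nat.card (WZ (-2 * a) (a ^ 2 - 4 * n ^ 2)).toAffine.Point = 4 * k)
    (h : IsCob (WZ a (n ^ 2)) (coc hb d)) :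
    IsSquare (d : ℚ) ∨ IsSquare ((d : ℚ) * ((a : ℚ) ^ 2 - 4 * (n : ℚ) ^ 2)) ∨
    IsSquare ((d : ℚ) * ((a : ℚ) + 2 * n)) ∨ IsSquare ((d : ℚ) * ((a : ℚ) - 2 * n)) := by
  rcases Pool.Agent.Z290.COBf.t_COB a (n ^ 2) hb d hab hd h with h1 | h1 | h1
  · exact Or.inl h1
  · refine Or.inr (Or.inl ?_)
    push_cast at h1
    exact h1
  · exact hTR a n d hn hab hd hk h1

/-- a nonzero integral square times a rational number -/
lemma sq_iff {x y : ℤ} {m : ℤ} (hm : m ≠ 0) (h : x = y * m ^ 2) :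
    IsSquare (x : ℚ) ↔ IsSquare (y : ℚ) := by
  have hmQ : (m : ℚ) ≠ 0 := by exact_mod_cast hm
  rw [h]
  push_cast
  constructor
  · intro h1
    have h2 := h1.div (IsSquare.sq (m : ℚ))
    rwa [mul_div_assoc, div_self (pow_ne_zero 2 hmQ), mul_one] at h2
  · exact fun h1 => h1.mul (IsSquare.sq (m : ℚ))

/-- a squarefree integer which is a square is `1` -/
lemma one_of_sqZ {c : ℤ} (hc : Squarefree c) (h : IsSquare (c : ℚ)) : c = 1 := by
  rw [Rat.isSquare_intCast_iff] at h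
  obtain ⟨r, rfl⟩ := h
  have h1 := hc r (dvd_refl _)
  rcases Int.isUnit_iff.1 h1 with h2 | h2 <;> rw [h2] <;> norm_num

/-- `c = d` if both are squarefree and `c d` is a square -/
lemma eq_of_sqZ {c d : ℤ} (hc : Squarefree c) (hd : Squarefree d)
    (h : IsSquare ((c : ℚ) * (d : ℚ))) : c = d := by
  have h1 : IsSquare (((c * d : ℤ)) : ℚ) := by
    push_cast
    exact h
  rw [Rat.isSquare_intCast_iff] at h1
  have hass : Associated c d := by
    have hg : IsSquare (c * d) := h1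
    -- divide by the gcd
    obtain ⟨g, c', d', hc', hd', hcop⟩ : ∃ g c' d' : ℤ, c = g * c' ∧ d = g * d' ∧ IsCoprime c' d' := by
      have hc0 : c ≠ 0 := hc.ne_zero
      obtain ⟨c', d', h4, h5, h3⟩ := extract_gcd (α := ℤ) c d
      exact ⟨gcd c d, c', d', h4, h5, (gcd_isUnit_iff _ _).1 h3⟩
    have hg0 : g ≠ 0 := by
      rintro rfl
      rw [zero_mul] at hc'
      exact hc.ne_zero hc'
    have h6 : IsSquare (c' * d') := by
      obtain ⟨r, hr⟩ := hg
      rw [hc', hd'] at hr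
      have h7 : g ^ 2 * (c' * d') = r ^ 2 := by linear_combination hr
      have h8 : g ^ 2 ∣ r ^ 2 := ⟨_, h7.symm⟩
      obtain ⟨s, hs⟩ := (Int.pow_dvd_pow_iff (by norm_num : (2 : ℕ) ≠ 0)).1 h8
      refine ⟨s, ?_⟩
      rw [hs] at h7
      have h9 : g ^ 2 * (c' * d') = g ^ 2 * (s * s) := by linear_combination h7
      exact mul_left_cancel₀ (pow_ne_zero 2 hg0) h9
    have hc'sq : Squarefree c' := hc.squarefree_of_dvd (Dvd.intro_left _ hc'.symm)
    have hd'sq : Squarefree d' := hd.squarefree_of_dvd (Dvd.intro_left _ hd'.symm)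
    have h10 : Squarefree (c' * d') := by
      rw [squarefree_mul_iff]
      exact ⟨hcop.isRelPrime, hc'sq, hd'sq⟩
    obtain ⟨s, hs⟩ := h6
    have h11 := h10 s (by rw [hs])
    have h12 : IsUnit (c' * d') := by
      rw [hs]
      exact h11.mul h11
    rw [IsUnit.mul_iff] at h12
    rw [hc', hd']
    exact (Associated.refl g).mul_mul ((associated_one_iff_isUnit.2 h12.1).trans
      (associated_one_iff_isUnit.2 h12.2).symm)
  rcases Int.associated_iff.1 hass with h2 | h2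
  · exact h2
  · exfalso
    have h3 := h1.nonneg
    rw [h2] at h3
    have h4 : d ≠ 0 := hd.ne_zero
    have h5 : 0 < d ^ 2 := by positivity
    nlinarith

end Pool.Agent.N818.SN
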