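import Pool.Agent.N818.SN.Stm
import Pool.Agent.N818.SN.Stm2
import Pool.Agent.N818.SN.Stm3
import Pool.Agent.N916.AM.Fd
import Pool.Agent.N875.X15.ClE
import Pool.Agent.N373.P24.Main
import Pool.Agent.R421.EK.Fin

/-!
# SN: the joint law of the numbers of primes on the set without ideal classes of order four
-/

set_option autoImplicit false
set_option linter.style.haveILetI false

open scoped Classical

namespace Pool.Agent.N818.SN

open Finset Filter
open Pool.Agent.N916.AM (SS LAH Cl)
open Pool.Agent.N877.P24 (Qc)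
open Pool.Agent.N916.GB (eta Gd)

lemma lah24 : LAH 24 {11} (Gd false 0 0) eta :=
  Pool.Agent.N916.AM.lah_red (by norm_num) (by norm_num) (fun _ => rfl)
    (fun h => absurd h (by decide)) (fun a ha => by
      rw [mem_singleton] at ha
      rw [ha, if_pos rfl])

lemma qc_gd {n : ℕ} (hn : Fm n) : Gd false 0 0 n.primeFactors ↔ Qc n := by
  have h4 : n % 4 = 3 := by
    have := hn.2
    omega
  rw [Pool.Agent.N916.GB.Gd_iff_Qc hn.1 h4, Pool.Agent.N373.P24.qc_iff hn.1.ne_zero,
    Pool.Agent.N875.X15.qc_P15 hn.1.ne_zero]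

/-- the class -/
noncomputable def cls24 (X : ℕ) : Finset ℕ := (Icc 1 X).filter fun n => Squarefree n ∧ n % 24 = 11

lemma mem_cls {X n : ℕ} : n ∈ cls24 X ↔ n ∈ Icc 1 X ∧ Fm n := by
  unfold cls24 Fm
  rw [mem_filter]

/-- from the sets to the numbers -/
lemma card_cls (X : ℕ) (Q : Finset ℕ → Prop) :
    ((cls24 X).filter fun n => Q n.primeFactors).card = ((SS 24 {11} X).filter Q).card := by
  rw [← Pool.Agent.N916.AM.card_eq (by norm_num) (by
    intro a ha
    rw [mem_singleton] at ha
    rw [ha]) X Q]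
  congr 1
  ext n
  rw [mem_filter, mem_cls, mem_filter, mem_singleton]
  unfold Fm
  tauto

/-- the density with an event -/
theorem ev (hAMF : S_AMF) (A : ℕ → (ℕ → ℕ) → Prop) (ε : ℝ) (hε : 0 < ε) : ∃ X₀ : ℕ, ∀ X : ℕ,
    X₀ ≤ X → |(((cls24 X).filter fun n => Qc n ∧ A X (cn 24 n.primeFactors)).card : ℝ) -
      eta * (((cls24 X).filter fun n => A X (cn 24 n.primeFactors)).card : ℝ)| ≤ ε * X := by
  have h01 := Pool.Agent.N916.AM.eta01
  obtain ⟨X₀, h⟩ := hAMF 24 {11} (Gd false 0 0) eta (by norm_num) (by norm_num) h01.1 h01.2 lah24 A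
    ε hε
  refine ⟨X₀, fun X hX => ?_⟩
  have h1 := h X hX
  have k1 : ((SS 24 {11} X).filter fun S => A X (cn 24 S) ∧ Gd false 0 0 S).card =
      ((cls24 X).filter fun n => A X (cn 24 n.primeFactors) ∧ Gd false 0 0 n.primeFactors).card := by
    have h2 := card_cls X (fun S => A X (cn 24 S) ∧ Gd false 0 0 S)
    convert h2.symm
  have k2 : ((SS 24 {11} X).filter fun S => A X (cn 24 S)).card =
      ((cls24 X).filter fun n => A X (cn 24 n.primeFactors)).card := by
    have h2 := card_cls X (fun S => A X (cn 24 S))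
    convert h2.symm
  rw [k1, k2] at h1
  have e : ((cls24 X).filter fun n => Qc n ∧ A X (cn 24 n.primeFactors)) =
      (cls24 X).filter fun n => A X (cn 24 n.primeFactors) ∧ Gd false 0 0 n.primeFactors := by
    refine filter_congr fun n hn => ?_
    rw [qc_gd (mem_cls.1 hn).2]
    tauto
  rw [e]
  exact h1

/-- the class has positive density -/
theorem low24 : ∃ (c : ℝ) (X₀ : ℕ), 0 < c ∧ ∀ X : ℕ, X₀ ≤ X → c * X ≤ ((cls24 X).card : ℝ) := by
  obtain ⟨c, X₀, hc, h⟩ := Pool.Agent.N916.AM.low (M := 24) (n₀ := 11) (by norm_num) (by norm_num)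
    (by norm_num : Nat.Prime 11).prime.squarefree
  exact ⟨c, X₀, hc, h⟩

/-- the limit of the proportion with an event -/
theorem ev_lim (hAMF : S_AMF) (A : ℕ → (ℕ → ℕ) → Prop) {g : ℝ}
    (h : Tendsto (fun X : ℕ => (((cls24 X).filter fun n => A X (cn 24 n.primeFactors)).card : ℝ) /
      ((cls24 X).card : ℝ)) atTop (nhds g)) :
    Tendsto (fun X : ℕ => (((cls24 X).filter fun n => Qc n ∧ A X (cn 24 n.primeFactors)).card : ℝ) /
      ((cls24 X).card : ℝ)) atTop (nhds (eta * g)) := by
  obtain ⟨c, X₁, hc, hlow⟩ := low24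
  have h0 : Tendsto (fun X : ℕ =>
      (((cls24 X).filter fun n => Qc n ∧ A X (cn 24 n.primeFactors)).card : ℝ) /
        ((cls24 X).card : ℝ) -
      eta * ((((cls24 X).filter fun n => A X (cn 24 n.primeFactors)).card : ℝ) /
        ((cls24 X).card : ℝ))) atTop (nhds 0) := by
    rw [Metric.tendsto_nhds]
    intro ε hε
    obtain ⟨X₂, h2⟩ := ev hAMF A (c * ε / 2) (by positivity)
    filter_upwards [eventually_ge_atTop X₁, eventually_ge_atTop X₂, eventually_ge_atTop 1] with X g1
      g2 g3
    have k1 := hlow X g1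
    have k2 := h2 X g2
    have hX : (0 : ℝ) < X := by exact_mod_cast g3
    have hS : (0 : ℝ) < ((cls24 X).card : ℝ) := lt_of_lt_of_le (by positivity) k1
    rw [Real.dist_eq, sub_zero, ← mul_div_assoc, ← sub_div, abs_div, abs_of_pos hS, div_lt_iff₀ hS]
    refine lt_of_le_of_lt k2 ?_
    have k3 : ε * (c * X) ≤ ε * ((cls24 X).card : ℝ) := mul_le_mul_of_nonneg_left k1 hε.le
    have k4 : 0 < c * ε * X := by positivity
    linarith
  have h1 := h0.add (h.const_mul eta)
  rw [zero_add] at h1
  refine h1.congr fun X => ?_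
  ring

/-- a small shift of the threshold -/
theorem shift {F : ℕ → ℝ → ℝ} (hmono : ∀ X a b, a ≤ b → F X a ≤ F X b) {Φ : ℝ → ℝ} {t : ℝ}
    (hc : ContinuousAt Φ t) (hF : ∀ s, Tendsto (fun X => F X s) atTop (nhds (Φ s))) {e : ℕ → ℝ}
    (he : Tendsto e atTop (nhds 0)) : Tendsto (fun X => F X (t + e X)) atTop (nhds (Φ t)) := by
  rw [Metric.tendsto_nhds]
  intro ε hε
  obtain ⟨δ, hδ, hδ'⟩ := Metric.continuousAt_iff.1 hc (ε / 2) (by positivity)
  have a1 := Metric.tendsto_nhds.1 he (δ / 2) (by positivity)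
  have a2 := Metric.tendsto_nhds.1 (hF (t + δ / 2)) (ε / 2) (by positivity)
  have a3 := Metric.tendsto_nhds.1 (hF (t - δ / 2)) (ε / 2) (by positivity)
  have b2 := hδ' (x := t + δ / 2) (by
    rw [Real.dist_eq, add_sub_cancel_left, abs_of_pos (by positivity)]
    linarith)
  have b3 := hδ' (x := t - δ / 2) (by
    rw [Real.dist_eq, sub_sub_cancel_left, abs_neg, abs_of_pos (by positivity)]
    linarith)
  filter_upwards [a1, a2, a3] with X h1 h2 h3
  rw [Real.dist_eq, sub_zero, abs_lt] at h1
  rw [Real.dist_eq, abs_lt] at h2 h3 b2 b3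
  have m1 := hmono X (t + e X) (t + δ / 2) (by linarith)
  have m2 := hmono X (t - δ / 2) (t + e X) (by linarith)
  rw [Real.dist_eq, abs_lt]
  constructor
  · linarith
  · linarith

lemma gauss_cont : Continuous fun t : ℝ => (ProbabilityTheory.gaussianReal 0 1).real (Set.Iic t) := by
  have hm : ∀ a b : ℝ, a ≤ b → (ProbabilityTheory.gaussianReal 0 1).real (Set.Iic a) ≤
      (ProbabilityTheory.gaussianReal 0 1).real (Set.Iic b) := fun a b h =>
    MeasureTheory.measureReal_mono (Set.Iic_subset_Iic.2 h)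
  rw [Metric.continuous_iff]
  intro b ε hε
  refine ⟨ε, hε, fun a ha => ?_⟩
  rw [Real.dist_eq, abs_lt] at ha ⊢
  rcases le_total a b with h | h
  · have h1 := hm a b h
    have h2 := Pool.Agent.R421.EK.gauss_lip h
    constructor <;> linarith
  · have h1 := hm b a h
    have h2 := Pool.Agent.R421.EK.gauss_lip h
    constructor <;> linarith

lemma two_classes {S : Finset ℕ} {a b c : ℕ} (hab : a ≠ b)
    (hc : ∀ p : ℕ, p % 12 = c ↔ p % 24 = a ∨ p % 24 = b) :
    (S.filter fun p => p % 12 = c).card = cn 24 S a + cn 24 S b := by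
  unfold cn
  rw [← card_union_of_disjoint]
  · congr 1
    ext p
    simp only [mem_union, mem_filter]
    rw [hc p]
    tauto
  · rw [disjoint_left]
    intro p h1 h2
    exact hab ((mem_filter.1 h1).2.symm.trans (mem_filter.1 h2).2)

lemma or_card (S : Finset ℕ) {a b : ℕ} (hab : a ≠ b) :
    (S.filter fun p => p % 12 = a ∨ p % 12 = b).card =
      (S.filter fun p => p % 12 = a).card + (S.filter fun p => p % 12 = b).card := by
  rw [filter_or, card_union_of_disjoint]
  rw [disjoint_left]
  intro p h1 h2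
  exact hab ((mem_filter.1 h1).2.symm.trans (mem_filter.1 h2).2)

lemma mB_cn (n : ℕ) : mB n = cn 24 n.primeFactors 5 + cn 24 n.primeFactors 17 +
    (cn 24 n.primeFactors 11 + cn 24 n.primeFactors 23) := by
  unfold mB
  rw [or_card _ (by norm_num), two_classes (a := 5) (b := 17) (by norm_num) (fun p => by omega), two_classes (a := 11) (b := 23) (by norm_num) (fun p => by omega)]

lemma mC_cn (n : ℕ) : mC n = cn 24 n.primeFactors 5 + cn 24 n.primeFactors 17 +
    (cn 24 n.primeFactors 7 + cn 24 n.primeFactors 19) := by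
  unfold mC
  rw [or_card _ (by norm_num), two_classes (a := 5) (b := 17) (by norm_num) (fun p => by omega), two_classes (a := 7) (b := 19) (by norm_num) (fun p => by omega)]

lemma loglog_top : Tendsto (fun X : ℕ => Real.log (Real.log (X : ℝ))) atTop atTop :=
  Real.tendsto_log_atTop.comp (Real.tendsto_log_atTop.comp tendsto_natCast_atTop_atTop)

/-- **the joint law on the good set**, with shifts `a`, `b` -/
theorem law (hAMF : S_AMF) (hGLC : S_GLC) (u v t a b : ℝ) (huv : u ≠ 0 ∨ v ≠ 0) :
    Tendsto (fun X : ℕ => (((cls24 X).filter fun n => Qc n ∧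
      u * (mB n + a) + v * (mC n + b) ≤ (u + v) / 2 * Real.log (Real.log X) +
        t * √((u ^ 2 + u * v + v ^ 2) / 2 * Real.log (Real.log X))).card : ℝ) /
      ((cls24 X).card : ℝ)) atTop
      (nhds (eta * (ProbabilityTheory.gaussianReal 0 1).real (Set.Iic t))) := by
  have hpos : 0 < (u ^ 2 + u * v + v ^ 2) / 2 := by
    have h1 : u ^ 2 + u * v + v ^ 2 = (u + v / 2) ^ 2 + 3 / 4 * v ^ 2 := by ring
    rcases huv with h | h
    · by_cases hv : v = 0
      · rw [hv]
        have : 0 < u ^ 2 := by positivity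
        linarith
      · have : 0 < v ^ 2 := by positivity
        nlinarith [sq_nonneg (u + v / 2)]
    · have : 0 < v ^ 2 := by positivity
      nlinarith [sq_nonneg (u + v / 2)]
  set s : ℕ → ℝ := fun X => √((u ^ 2 + u * v + v ^ 2) / 2 * Real.log (Real.log (X : ℝ))) with hs
  have hs_top : Tendsto s atTop atTop :=
    Real.tendsto_sqrt_atTop.comp (loglog_top.const_mul_atTop hpos)
  let F : ℕ → ℝ → ℝ := fun X r => (((cls24 X).filter fun n =>
    u * mB n + v * mC n ≤ (u + v) / 2 * Real.log (Real.log X) + r * s X).card : ℝ) /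
      ((cls24 X).card : ℝ)
  have hF : ∀ r, Tendsto (fun X => F X r) atTop
      (nhds ((ProbabilityTheory.gaussianReal 0 1).real (Set.Iic r))) := by
    intro r
    have h1 := hGLC u v r huv
    refine h1.congr fun X => ?_
    show _ = F X r
    have e1 : ((Icc 1 X).filter fun n => Squarefree n ∧ n % 24 = 11) = cls24 X := rfl
    simp only [F, e1]
    congr 3
    ext n
    simp only [mem_filter, mem_cls, Fm, hs]
    tauto
  have hmono : ∀ X a b, a ≤ b → F X a ≤ F X b := by
    intro X a b hab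
    have hs0 : 0 ≤ s X := Real.sqrt_nonneg _
    refine div_le_div_of_nonneg_right ?_ (Nat.cast_nonneg _)
    refine Nat.cast_le.2 (card_le_card fun n hn => ?_)
    rw [mem_filter] at hn ⊢
    refine ⟨hn.1, hn.2.trans ?_⟩
    have := mul_le_mul_of_nonneg_right hab hs0
    linarith
  have he : Tendsto (fun X => -(u * a + v * b) / s X) atTop (nhds 0) :=
    hs_top.const_div_atTop _
  have h2 := shift hmono gauss_cont.continuousAt hF he (t := t)
  -- the event
  let A : ℕ → (ℕ → ℕ) → Prop := fun X f =>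
    u * (((f 5 + f 17 + (f 11 + f 23) : ℕ) : ℝ) + a) + v * (((f 5 + f 17 + (f 7 + f 19) : ℕ) : ℝ) + b) ≤
      (u + v) / 2 * Real.log (Real.log X) + t * s X
  have hA : ∀ X n, A X (cn 24 n.primeFactors) ↔ u * (mB n + a) + v * (mC n + b) ≤
      (u + v) / 2 * Real.log (Real.log X) + t * s X := by
    intro X n
    simp only [A]
    rw [← mB_cn, ← mC_cn]
  have h3 : Tendsto (fun X : ℕ => (((cls24 X).filter fun n => A X (cn 24 n.primeFactors)).card : ℝ) /
      ((cls24 X).card : ℝ)) atTop (nhds ((ProbabilityTheory.gaussianReal 0 1).real (Set.Iic t))) := by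
    refine h2.congr' ?_
    filter_upwards [hs_top.eventually_gt_atTop 0] with X hX
    simp only [F]
    congr 3
    refine filter_congr fun n _ => ?_
    rw [hA, add_mul, div_mul_cancel₀ _ hX.ne']
    constructor <;> intro h <;> linarith
  have h4 := ev_lim hAMF A h3
  refine h4.congr fun X => ?_
  congr 3
  refine filter_congr fun n _ => ?_
  rw [hA]

end Pool.Agent.N818.SN
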