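import Pool.Agent.N818.SN.Law
import Pool.Agent.N818.SN.Stm4

/-!
# SN: the joint law of the four numbers on the set without ideal classes of order four
-/

set_option autoImplicit false
set_option linter.style.haveILetI false

open scoped Classical

namespace Pool.Agent.N818.SN

open Finset Filter
open Pool.Agent.N877.P24 (Qc)
open Pool.Agent.N916.GB (eta)

/-- the classes -/
def TT : Fin 4 → Finset ℕ := ![{5, 11, 17, 23}, {5, 7, 17, 19}, {5, 7, 13, 23}, {5, 11, 13, 19}]

lemma mX_cn (i : Fin 4) (n : ℕ) : mX i n = ∑ a ∈ TT i, cn 24 n.primeFactors a := by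
  have h : mX i n = (n.primeFactors.filter fun p => p % 24 ∈ TT i).card := rfl
  have h2 := card_eq_sum_card_fiberwise (s := n.primeFactors.filter fun p => p % 24 ∈ TT i)
    (f := fun p => p % 24) (t := TT i) (fun p hp => (mem_filter.1 hp).2)
  rw [h, h2]
  refine sum_congr rfl fun a ha => ?_
  unfold cn
  congr 1
  ext p
  simp only [mem_filter]
  constructor
  · rintro ⟨⟨h1, h2⟩, h3⟩
    exact ⟨h1, h3⟩
  · rintro ⟨h1, h2⟩
    exact ⟨⟨h1, h2 ▸ ha⟩, h2⟩

lemma quad_pos {w : Fin 4 → ℝ} (hw : w ≠ 0) : 0 < ((∑ i, w i) ^ 2 + ∑ i, w i ^ 2) / 4 := by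
  obtain ⟨i, hi⟩ := Function.ne_iff.1 hw
  have h1 : 0 < ∑ i, w i ^ 2 :=
    sum_pos' (fun j _ => sq_nonneg _) ⟨i, mem_univ _, by
      have : w i ≠ 0 := hi
      positivity⟩
  have h2 : 0 ≤ (∑ i, w i) ^ 2 := sq_nonneg _
  linarith

/-- **the joint law on the good set**, with shifts `a` -/
theorem law4 (hAMF : S_AMF) (hGL4 : S_GL4) (w a : Fin 4 → ℝ) (t : ℝ) (hw : w ≠ 0) :
    Tendsto (fun X : ℕ => (((cls24 X).filter fun n => Qc n ∧
      ∑ i, w i * (mX i n + a i) ≤ (∑ i, w i) / 2 * Real.log (Real.log X) +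
        t * √(((∑ i, w i) ^ 2 + ∑ i, w i ^ 2) / 4 * Real.log (Real.log X))).card : ℝ) /
      ((cls24 X).card : ℝ)) atTop
      (nhds (eta * (ProbabilityTheory.gaussianReal 0 1).real (Set.Iic t))) := by
  have hpos := quad_pos hw
  set s : ℕ → ℝ := fun X => √(((∑ i, w i) ^ 2 + ∑ i, w i ^ 2) / 4 * Real.log (Real.log (X : ℝ)))
    with hs
  have hs_top : Tendsto s atTop atTop :=
    Real.tendsto_sqrt_atTop.comp (loglog_top.const_mul_atTop hpos)
  let F : ℕ → ℝ → ℝ := fun X r => (((cls24 X).filter fun n =>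
    ∑ i, w i * mX i n ≤ (∑ i, w i) / 2 * Real.log (Real.log X) + r * s X).card : ℝ) /
      ((cls24 X).card : ℝ)
  have hF : ∀ r, Tendsto (fun X => F X r) atTop
      (nhds ((ProbabilityTheory.gaussianReal 0 1).real (Set.Iic r))) := by
    intro r
    have h1 := hGL4 w r hw
    refine h1.congr fun X => ?_
    show _ = F X r
    have e1 : ((Icc 1 X).filter fun n => Squarefree n ∧ n % 24 = 11) = cls24 X := rfl
    simp only [F, e1]
    congr 3
    ext n
    simp only [mem_filter, mem_cls, Fm, hs]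
    tauto
  have hmono : ∀ X a b, a ≤ b → F X a ≤ F X b := by
    intro X a b hab
    have hs0 : 0 ≤ s X := Real.sqrt_nonneg _
    refine div_le_div_of_nonneg_right ?_ (Nat.cast_nonneg _)
    refine Nat.cast_le.2 (card_le_card fun n hn => ?_)
    rw [mem_filter] at hn ⊢
    refine ⟨hn.1, hn.2.trans ?_⟩
    have := mul_le_mul_of_nonneg_right hab hs0
    linarith
  have he : Tendsto (fun X => -(∑ i, w i * a i) / s X) atTop (nhds 0) :=
    hs_top.const_div_atTop _
  have h2 := shift hmono gauss_cont.continuousAt hF he (t := t)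
  -- the event
  let A : ℕ → (ℕ → ℕ) → Prop := fun X f =>
    ∑ i, w i * (((∑ b ∈ TT i, f b : ℕ) : ℝ) + a i) ≤
      (∑ i, w i) / 2 * Real.log (Real.log X) + t * s X
  have hA : ∀ X n, A X (cn 24 n.primeFactors) ↔ ∑ i, w i * (mX i n + a i) ≤
      (∑ i, w i) / 2 * Real.log (Real.log X) + t * s X := by
    intro X n
    simp only [A, ← mX_cn]
  have hsum : ∀ n, ∑ i, w i * ((mX i n : ℝ) + a i) = ∑ i, w i * (mX i n : ℝ) + ∑ i, w i * a i := by
    intro n
    rw [← sum_add_distrib]
    exact sum_congr rfl fun i _ => by ring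
  have h3 : Tendsto (fun X : ℕ => (((cls24 X).filter fun n => A X (cn 24 n.primeFactors)).card : ℝ) /
      ((cls24 X).card : ℝ)) atTop (nhds ((ProbabilityTheory.gaussianReal 0 1).real (Set.Iic t))) := by
    refine h2.congr' ?_
    filter_upwards [hs_top.eventually_gt_atTop 0] with X hX
    simp only [F]
    congr 3
    refine filter_congr fun n _ => ?_
    rw [hA, add_mul, div_mul_cancel₀ _ hX.ne', hsum]
    constructor <;> intro h <;> linarith
  have h4 := ev_lim hAMF A h3
  refine h4.congr fun X => ?_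
  congr 3
  refine filter_congr fun n _ => ?_
  rw [hA]

/-- few numbers have less than `V` prime factors in the classes -/
theorem few (hGL4 : S_GL4) (i : Fin 4) (V : ℕ) : Tendsto (fun X : ℕ =>
    (((cls24 X).filter fun n => mX i n < V).card : ℝ) / ((cls24 X).card : ℝ)) atTop (nhds 0) := by
  rw [Metric.tendsto_nhds]
  intro ε hε
  obtain ⟨t, ht⟩ : ∃ t : ℝ, (ProbabilityTheory.gaussianReal 0 1).real (Set.Iic t) < ε := by
    have h := ProbabilityTheory.tendsto_cdf_atBot (ProbabilityTheory.gaussianReal 0 1)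
    obtain ⟨t, ht⟩ := (h.eventually (gt_mem_nhds hε)).exists
    exact ⟨t, by rwa [ProbabilityTheory.cdf_eq_real] at ht⟩
  have hw : (Pi.single i 1 : Fin 4 → ℝ) ≠ 0 := by
    intro h
    have := congrFun h i
    simp at this
  have h1 := hGL4 (Pi.single i 1) t hw
  have e1 : ∑ j, (Pi.single i 1 : Fin 4 → ℝ) j = 1 := by simp
  have e2 : ∑ j, (Pi.single i 1 : Fin 4 → ℝ) j ^ 2 = 1 := by
    simp [Pi.single_apply, ite_pow]
  have e3 : ∀ n, ∑ j, (Pi.single i 1 : Fin 4 → ℝ) j * (mX j n : ℝ) = mX i n := by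
    intro n
    simp [Pi.single_apply, ite_mul]
  simp only [e1, e2, e3] at h1
  have hcls : ∀ X : ℕ, ((Icc 1 X).filter fun n => Squarefree n ∧ n % 24 = 11) = cls24 X :=
    fun X => rfl
  simp only [hcls] at h1
  have h2 := h1.eventually (gt_mem_nhds ht)
  -- the threshold
  have hL : Tendsto (fun X : ℕ => √(1 / 2 * Real.log (Real.log (X : ℝ)))) atTop atTop :=
    Real.tendsto_sqrt_atTop.comp (loglog_top.const_mul_atTop (by norm_num))
  have hth : ∀ᶠ X : ℕ in atTop, (V : ℝ) ≤ 1 / 2 * Real.log (Real.log (X : ℝ)) +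
      t * √(((1 : ℝ) ^ 2 + 1) / 4 * Real.log (Real.log (X : ℝ))) := by
    have h3 := hL.atTop_mul_atTop₀ (tendsto_atTop_add_const_right atTop t hL)
    filter_upwards [h3.eventually_ge_atTop (V : ℝ), loglog_top.eventually_ge_atTop 0] with X g1 g2
    have e4 : √(1 / 2 * Real.log (Real.log (X : ℝ))) * √(1 / 2 * Real.log (Real.log (X : ℝ))) =
        1 / 2 * Real.log (Real.log (X : ℝ)) := Real.mul_self_sqrt (by positivity)
    have e5 : ((1 : ℝ) ^ 2 + 1) / 4 = 1 / 2 := by norm_num
    rw [e5]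
    rw [mul_add, e4] at g1
    linarith
  filter_upwards [h2, hth] with X g1 g2
  rw [Real.dist_eq, sub_zero, abs_of_nonneg (by positivity)]
  refine lt_of_le_of_lt ?_ g1
  refine div_le_div_of_nonneg_right ?_ (Nat.cast_nonneg _)
  refine Nat.cast_le.2 (card_le_card fun n hn => ?_)
  obtain ⟨g3, g4⟩ := mem_filter.1 hn
  obtain ⟨g5, g6⟩ := mem_cls.1 g3
  refine mem_filter.2 ⟨g5, ⟨g6.1, g6.2⟩, ?_⟩
  have g7 : (mX i n : ℝ) ≤ V := by exact_mod_cast g4.le
  linarith

/-- the good numbers with at least `V` prime factors in each of the sets of classes -/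
theorem densV (hAMF : S_AMF) (hGL4 : S_GL4) (V : ℕ) : Tendsto (fun X : ℕ =>
    (((cls24 X).filter fun n => Qc n ∧ ∀ i, V ≤ mX i n).card : ℝ) / ((cls24 X).card : ℝ)) atTop
    (nhds eta) := by
  obtain ⟨A, hA⟩ : ∃ A : ℕ → (ℕ → ℕ) → Prop, ∀ X n, A X (cn 24 n.primeFactors) ↔
      ∀ i, V ≤ mX i n := ⟨fun _ f => ∀ i, V ≤ ∑ b ∈ TT i, f b, fun X n => by simp only [← mX_cn]⟩
  obtain ⟨c, X₁, hc, hlow⟩ := low24
  have h0 : Tendsto (fun X : ℕ => ∑ i : Fin 4,
      (((cls24 X).filter fun n => mX i n < V).card : ℝ) / ((cls24 X).card : ℝ)) atTop (nhds 0) := by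
    have := tendsto_finsetSum (univ : Finset (Fin 4)) fun i _ => few hGL4 i V
    simpa using this
  have h1 : Tendsto (fun X : ℕ => (((cls24 X).filter fun n => A X (cn 24 n.primeFactors)).card : ℝ) /
      ((cls24 X).card : ℝ)) atTop (nhds 1) := by
    have h2 : Tendsto (fun X : ℕ => 1 - ∑ i : Fin 4,
      (((cls24 X).filter fun n => mX i n < V).card : ℝ) / ((cls24 X).card : ℝ)) atTop (nhds 1) := by
      simpa using h0.const_sub 1
    refine tendsto_of_tendsto_of_tendsto_of_le_of_le' h2 tendsto_const_nhds ?_ ?_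
    · filter_upwards [eventually_ge_atTop X₁, eventually_ge_atTop 1] with X g1 g2
      have hX : (0 : ℝ) < X := by exact_mod_cast g2
      have hS : (0 : ℝ) < ((cls24 X).card : ℝ) := lt_of_lt_of_le (by positivity) (hlow X g1)
      rw [← sum_div, sub_le_iff_le_add, ← add_div, le_div_iff₀ hS, one_mul, ← Nat.cast_sum,
        ← Nat.cast_add, Nat.cast_le]
      have h3 := card_filter_add_card_filter_not (s := cls24 X)
        (p := fun n => A X (cn 24 n.primeFactors))
      have h4 : ((cls24 X).filter fun n => ¬ A X (cn 24 n.primeFactors)).card ≤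
          ∑ i : Fin 4, ((cls24 X).filter fun n => mX i n < V).card := by
        refine le_trans (card_le_card ?_) (card_biUnion_le (s := (univ : Finset (Fin 4)))
          (t := fun i => (cls24 X).filter fun n => mX i n < V))
        intro n hn
        obtain ⟨g3, g4⟩ := mem_filter.1 hn
        have g5 := (not_congr (hA X n)).1 g4
        push Not at g5
        obtain ⟨i, hi⟩ := g5
        exact mem_biUnion.2 ⟨i, mem_univ _, mem_filter.2 ⟨g3, hi⟩⟩
      omega
    · filter_upwards with X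
      refine div_le_one_of_le₀ ?_ (Nat.cast_nonneg _)
      exact_mod_cast card_filter_le _ _
  have h5 := ev_lim hAMF A h1
  rw [mul_one] at h5
  refine h5.congr fun X => ?_
  congr 3
  refine filter_congr fun n _ => ?_
  rw [hA]

end Pool.Agent.N818.SN
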