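import Pool.Agent.N818.SN.CntC
import Pool.Agent.N818.SN.Stm4

/-!
# SN: `Ш(WD n)` has no element of order two
-/

set_option autoImplicit false
set_option linter.style.haveILetI false

open scoped Classical

namespace Pool.Agent.N818.SN

open Finset WeierstrassCurve
open Pool.Agent.TH841.SH.D
open Pool.Agent.Z702 (LocI WZ coc T0)
open Pool.Agent.N877.P24 (Qc)
open Pool.Agent.N818.SL (coc_add cls cls_eq cls_add cls_zero_iff prim lcb cob_of_eq coc_cob)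

theorem t_SD' : S_SD := by
  intro hLOC hJD n hn hQ hSha x hx
  have h24 := hn.2
  have hb : 9 * (n : ℤ) ^ 2 ≠ 0 := mul_ne_zero (by norm_num) (nn_ne hn)
  have hab : (10 * (n : ℤ)) ^ 2 - 4 * (9 * (n : ℤ) ^ 2) ≠ 0 := by
    have e : (10 * (n : ℤ)) ^ 2 - 4 * (9 * (n : ℤ) ^ 2) = 64 * (n : ℤ) ^ 2 := by ring
    rw [e]
    exact mul_ne_zero (by norm_num) (nn_ne hn)
  obtain ⟨d, hd, hc, hx'⟩ := prim hb hab hSha x 1 (by rw [pow_one, two_nsmul]; exact hx)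
  have hd0 : d ≠ 0 := hd.ne_zero
  obtain ⟨g2, g3, gR, gp⟩ := hLOC n d (by omega) (n_pos hn) (n_sqf hn) hd
  haveI : Fact (Nat.Prime 2) := ⟨Nat.prime_two⟩
  haveI : Fact (Nat.Prime 3) := ⟨Nat.prime_three⟩
  have hl : ∀ (p : ℕ) [Fact p.Prime], LK ℚ_[p] (10 * n) (9 * (n : ℤ) ^ 2) d := fun p _ =>
    lcb _ _ hb d hd0 ℚ_[p] (hc.2.1 p)
  have hlR : LK ℝ (10 * n) (9 * (n : ℤ) ^ 2) d := lcb _ _ hb d hd0 ℝ hc.2.2
  have hd2 := g2 (hl 2)
  have hd3 := g3 (hl 3)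
  have hpos := gR hlR
  have gp' := fun (p : ℕ) (hp : p.Prime) (hp2 : p ≠ 2) (hp3 : p ≠ 3) =>
    @gp p ⟨hp⟩ hp2 hp3 (@hl p ⟨hp⟩)
  have hfac : ∀ p : ℕ, p.Prime → p ≠ 3 → (p : ℤ) ∣ d → p ∈ n.primeFactors := by
    intro p hp hp3 hpd
    by_contra hpD
    have hp2 : p ≠ 2 := by
      rintro rfl
      exact hd2 (by exact_mod_cast hpd)
    exact (gp' p hp hp2 hp3).1 (fun h => hpD ((mem_pf hn hp).1 h)) hpd
  obtain ⟨J, hJdef⟩ : ∃ J, J = n.primeFactors.filter (fun q : ℕ => (q : ℤ) ∣ d) := ⟨_, rfl⟩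
  have hJs : J ⊆ n.primeFactors := by
    rw [hJdef]
    exact filter_subset _ _
  have habs := natAbs_of hd hfac (by omega)
  rw [← hJdef, if_neg hd3, one_mul] at habs
  have hdJ : d = dC J := by
    rw [dC_cast]
    omega
  have hmem : ∀ p ∈ n.primeFactors, (p ∈ J ↔ (p : ℤ) ∣ d) := by
    intro p hpD
    rw [hJdef, mem_filter]
    exact ⟨fun h => h.2, fun h => ⟨hpD, h⟩⟩
  have hCG : CG 1 1 n.primeFactors J := by
    refine ⟨hJs, fun p hpD _ => ?_⟩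
    obtain ⟨hp, hpd, hp2, hp3⟩ := pf_ne hn hpD
    obtain ⟨h2, h3⟩ := (gp' p hp hp2 hp3).2 ((mem_pf hn hp).2 hpD)
    constructor
    · intro hpJ
      have h4 := h2 fun h => hpJ ((hmem p hpD).2 h)
      rw [one_mul]
      have e : (∏ q ∈ J, (q : ℤ)) = d := by
        rw [hdJ]
        rfl
      rw [e]
      exact h4
    · intro hpJ
      have h4 := h3 _ (∏ q ∈ J.erase p, (q : ℤ)) (n_erase hn hpD) (by rw [hdJ, dC_erase hpJ])
      rw [one_mul]
      exact h4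
  rw [← hx', cls_zero_iff]
  change IsCob (WZ (10 * n) (9 * (n : ℤ) ^ 2)) (coc hb d)
  rcases hJD n hn hQ J hCG with h | h
  · have e : d = 1 := by
      rw [hdJ, h]
      rfl
    rw [e, Pool.Agent.N818.SL.coc_one]
    exact cob_zero _
  · have e : d = n := by rw [hdJ, h, dC_all hn]
    rw [e]
    have hnQ : (n : ℚ) ≠ 0 := by exact_mod_cast n_ne hn
    refine loc_cob hb hab (n_ne hn) ⟨4 * n, 0, 2, mul_ne_zero (by norm_num) hnQ, ?_, ?_⟩
    · push_cast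
      ring
    · push_cast
      ring

end Pool.Agent.N818.SN
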