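import Pool.Agent.N818.SN.Six
import Pool.Agent.N818.SN.Stm3
import Pool.Agent.N87.SN.MinTo
import Pool.Agent.N897.SN.TB
import Pool.Agent.N271.SN.TC
import Pool.Agent.N455.SN.LB
import Pool.Agent.N558.SN.LC
import Pool.Agent.N591.SN.OBC
import Pool.Agent.N216.SN.T
import Pool.Agent.N592.SN.NPSP
import Pool.Agent.N457.SN.TR
import Pool.Agent.N73.SN.J
import Pool.Agent.N323.SN.AMF
import Pool.Agent.N644.SN.MinTo2
import Pool.Agent.N559.SN.TD
import Pool.Agent.N87.SN.TE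
import Pool.Agent.N692.SN.TF
import Pool.Agent.N433.SN.LDEF
import Pool.Agent.N832.SN.ODEF
import Pool.Agent.N572.SN.LOCD
import Pool.Agent.N163.SN.LocEF
import Pool.Agent.N507.SN.J2
import Pool.Agent.N818.SN.StrD
import Pool.Agent.N721.SN.StrE
import Pool.Agent.N681.SN.SF
import Pool.Agent.N558.SN.GL4

/-!
# SN: the parts
-/

set_option autoImplicit false

namespace Pool.Agent.N818.SN

/-- all the parts, proved by helpers 87, 897, 271, 455, 558, 591, 216, 592, 457, 73, 644, 559, 692, 433,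
832, 572, 163, 507, 721, 681 -/
theorem parts : Parts where
  MIN := Pool.Agent.N87.SN.t_MIN
  TO := Pool.Agent.N87.SN.t_TO
  TB := Pool.Agent.N897.SN.TB.t_TB
  TC := Pool.Agent.N271.SN.t_TC
  LB := Pool.Agent.N455.SN.t_LB
  LC := Pool.Agent.N558.SN.t_LC
  OB := Pool.Agent.N591.SN.t_OB
  OC := Pool.Agent.N591.SN.t_OC
  T2B := Pool.Agent.N216.SN.t_T2B
  T2C := Pool.Agent.N216.SN.t_T2C
  T3 := Pool.Agent.N216.SN.t_T3
  NP := Pool.Agent.N592.SN.t_NP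
  SP := Pool.Agent.N592.SN.t_SP
  TR := Pool.Agent.N457.SN.TR.t_TR
  JB := Pool.Agent.N73.SN.t_JB
  JC := Pool.Agent.N73.SN.t_JC
  MIN2 := Pool.Agent.N644.SN.t_MIN2
  TO2 := Pool.Agent.N644.SN.t_TO2
  TD := Pool.Agent.N559.SN.t_TD
  TE := Pool.Agent.N87.SN.TE.t_TE
  TF := Pool.Agent.N692.SN.t_TF
  LD := Pool.Agent.N433.SN.t_LD
  LE := Pool.Agent.N433.SN.t_LE
  LF := Pool.Agent.N433.SN.t_LF
  OD := Pool.Agent.N832.SN.t_OD
  OE := Pool.Agent.N832.SN.t_OE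
  OF := Pool.Agent.N832.SN.t_OF
  LOCD := Pool.Agent.N572.SN.t_LOCD
  LOCE := Pool.Agent.N163.SN.t_LOCE
  LOCF := Pool.Agent.N163.SN.t_LOCF
  JD := Pool.Agent.N507.SN.t_JD
  JE := Pool.Agent.N507.SN.t_JE
  JF := Pool.Agent.N507.SN.t_JF
  SD := t_SD'
  SE := Pool.Agent.N721.SN.t_SE
  SF := Pool.Agent.N681.SN.t_SF

theorem amf : S_AMF := Pool.Agent.N323.SN.AMF.t_AMF

theorem gl4 : S_GL4 := Pool.Agent.N558.SN.t_GL4

end Pool.Agent.N818.SN
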