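import Mathlib

/-!
# SN: `3` and `-3` modulo a prime
-/

set_option autoImplicit false

namespace Pool.Agent.N818.SN

lemma sq_mod3 (p : ℕ) (h3 : p % 3 ≠ 0) : IsSquare (p : ZMod 3) ↔ p % 3 = 1 := by
  have h1 : ((p % 3 : ℕ) : ZMod 3) = (p : ZMod 3) := ZMod.natCast_mod p 3
  rw [← h1]
  have h2 : p % 3 = 1 ∨ p % 3 = 2 := by omega
  rcases h2 with h | h <;> rw [h]
  · exact ⟨fun _ => rfl, fun _ => ⟨1, by decide⟩⟩
  · constructor
    · rintro ⟨r, hr⟩
      revert r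
      decide
    · intro h
      omega

lemma mod3_ne {p : ℕ} (hp : p.Prime) (h3 : p ≠ 3) : p % 3 ≠ 0 := by
  intro h
  have h1 : 3 ∣ p := Nat.dvd_of_mod_eq_zero h
  exact h3 ((Nat.prime_dvd_prime_iff_eq Nat.prime_three hp).1 h1).symm

theorem sq3_iff (p : ℕ) [hp : Fact p.Prime] (h2 : p ≠ 2) (h3 : p ≠ 3) :
    IsSquare (3 : ZMod p) ↔ p % 12 = 1 ∨ p % 12 = 11 := by
  haveI : Fact (Nat.Prime 3) := ⟨Nat.prime_three⟩
  have hodd : p % 4 = 1 ∨ p % 4 = 3 := by
    have := hp.out.eq_two_or_odd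
    omega
  have hm := mod3_ne hp.out h3
  rcases hodd with h | h
  · have h4 := ZMod.exists_sq_eq_prime_iff_of_mod_four_eq_one (p := p) (q := 3) h (by norm_num)
    push_cast at h4
    rw [h4, sq_mod3 p hm]
    omega
  · have h4 := ZMod.exists_sq_eq_prime_iff_of_mod_four_eq_three (p := p) (q := 3) h (by norm_num) h3
    push_cast at h4
    rw [h4, sq_mod3 p hm]
    omega

/-- the product of two elements which are not squares is a square -/
lemma sq_mul_iff {p : ℕ} [hp : Fact p.Prime] (h2 : p ≠ 2) {a b : ZMod p} (ha : a ≠ 0) (hb : b ≠ 0) :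
    IsSquare (a * b) ↔ (IsSquare a ↔ IsSquare b) := by
  have hp2 : ringChar (ZMod p) ≠ 2 := by
    rw [ZMod.ringChar_zmod_n]
    exact h2
  have hne : (-1 : ZMod p) ≠ 1 := by
    haveI : Fact (2 < p) := ⟨lt_of_le_of_ne hp.out.two_le (Ne.symm h2)⟩
    exact ZMod.neg_one_ne_one
  rw [FiniteField.isSquare_iff hp2 (mul_ne_zero ha hb), FiniteField.isSquare_iff hp2 ha,
    FiniteField.isSquare_iff hp2 hb, mul_pow]
  rcases FiniteField.pow_dichotomy hp2 ha with h3 | h3 <;>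
    rcases FiniteField.pow_dichotomy hp2 hb with h4 | h4 <;> rw [h3, h4]
  · simp
  · rw [one_mul]
    exact ⟨fun h => absurd h hne, fun h => absurd (h.1 rfl) hne⟩
  · rw [mul_one]
    exact ⟨fun h => absurd h hne, fun h => absurd (h.2 rfl) hne⟩
  · simp

theorem sqm3_iff (p : ℕ) [hp : Fact p.Prime] (h2 : p ≠ 2) (h3 : p ≠ 3) :
    IsSquare (-3 : ZMod p) ↔ p % 3 = 1 := by
  have hodd : p % 4 = 1 ∨ p % 4 = 3 := by
    have := hp.out.eq_two_or_odd
    omega
  have hm := mod3_ne hp.out h3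
  have h30 : (3 : ZMod p) ≠ 0 := by
    intro h
    have h5 : ((3 : ℕ) : ZMod p) = 0 := by exact_mod_cast h
    rw [ZMod.natCast_eq_zero_iff] at h5
    exact h3 ((Nat.prime_dvd_prime_iff_eq hp.out Nat.prime_three).1 h5)
  have e : (-3 : ZMod p) = -1 * 3 := by ring
  rw [e, sq_mul_iff h2 (neg_ne_zero.2 one_ne_zero) h30, sq3_iff p h2 h3]
  have h6 : IsSquare (-1 : ZMod p) ↔ p % 4 ≠ 3 := ZMod.exists_sq_eq_neg_one_iff
  rw [h6]
  omega

end Pool.Agent.N818.SN
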