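import Pool.Agent.N818.SN.Gen
import Pool.Agent.N818.SN.Qr

/-!
# SN: the 2-primary part of `Ш(WB n)`
-/

set_option autoImplicit false

open scoped Classical

namespace Pool.Agent.N818.SN

open Finset WeierstrassCurve
open Pool.Agent.TH841.SH.D
open Pool.Agent.Z702 (LocI WZ coc T0)
open Pool.Agent.N818.SL (coc_add cls cls_eq cls_add cls_zero_iff prim lcb cob_of_eq coc_cob
  ndvd_prod sqf_prod)

/-! ### elementary facts -/

section

variable {n : ℕ}

lemma pf_ne (hn : Fm n) {p : ℕ} (hp : p ∈ n.primeFactors) : p.Prime ∧ p ∣ n ∧ p ≠ 2 ∧ p ≠ 3 := by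
  obtain ⟨h1, h2, h3⟩ := Nat.mem_primeFactors.1 hp
  have h4 := hn.2
  refine ⟨h1, h2, ?_, ?_⟩
  · rintro rfl
    omega
  · rintro rfl
    omega

lemma n_ne (hn : Fm n) : (n : ℤ) ≠ 0 := by
  have h4 := hn.2
  have : n ≠ 0 := by omega
  exact_mod_cast this

lemma n_pos (hn : Fm n) : (0 : ℤ) < n := by
  have h4 := hn.2
  have : 0 < n := by omega
  exact_mod_cast this

lemma n_sqf (hn : Fm n) : Squarefree (n : ℤ) := Int.squarefree_natCast.2 hn.1

lemma nn_ne (hn : Fm n) : (n : ℤ) ^ 2 ≠ 0 := pow_ne_zero 2 (n_ne hn)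

lemma st_eq (p : ℕ) : st p = sg p * p := by
  unfold st sg
  split_ifs <;> ring

lemma natAbs_st (p : ℕ) : (st p).natAbs = p := by
  unfold st
  split_ifs <;> simp

lemma natAbs_dB (J : Finset ℕ) : (∏ q ∈ J, st q).natAbs = ∏ q ∈ J, q := by
  induction J using Finset.induction_on with
  | empty => simp
  | insert q J hq ih => rw [prod_insert hq, prod_insert hq, Int.natAbs_mul, ih, natAbs_st]

lemma dB_mod {J : Finset ℕ} (hJ : ∀ q ∈ J, q % 2 = 1) : (∏ q ∈ J, st q) % 4 = 1 := by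
  induction J using Finset.induction_on with
  | empty => simp
  | insert q J hq ih =>
    rw [prod_insert hq, Int.mul_emod, ih fun r hr => hJ r (mem_insert_of_mem hr)]
    have h1 := hJ q (mem_insert_self q J)
    have h2 : st q % 4 = 1 := by
      unfold st
      split_ifs <;> omega
    rw [h2]
    norm_num

lemma pf_odd (hn : Fm n) {p : ℕ} (hp : p ∈ n.primeFactors) : p % 2 = 1 := by
  have h := pf_ne hn hp
  exact (h.1.eq_two_or_odd).resolve_left h.2.2.1

lemma dB_sqf (hn : Fm n) {J : Finset ℕ} (hJ : J ⊆ n.primeFactors) :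
    Squarefree (∏ q ∈ J, st q) := by
  rw [← Int.squarefree_natAbs, natAbs_dB]
  exact sqf_prod fun q hq => (pf_ne hn (hJ hq)).1

lemma dB_all (hn : Fm n) : ∏ q ∈ n.primeFactors, st q = -(n : ℤ) := by
  have h1 := natAbs_dB n.primeFactors
  rw [Nat.prod_primeFactors_of_squarefree hn.1] at h1
  have h2 := dB_mod (J := n.primeFactors) fun q hq => pf_odd hn hq
  have h3 := hn.2
  omega

lemma three_dB (hn : Fm n) {J : Finset ℕ} (hJ : J ⊆ n.primeFactors) :
    ¬ (3 : ℤ) ∣ ∏ q ∈ J, st q := by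
  intro h
  have h1 : (3 : ℕ) ∣ (∏ q ∈ J, st q).natAbs := by
    rw [← Int.natCast_dvd]
    exact_mod_cast h
  rw [natAbs_dB, Nat.prime_three.prime.dvd_finsetProd_iff] at h1
  obtain ⟨q, hq, h2⟩ := h1
  have h3 := pf_ne hn (hJ hq)
  exact h3.2.2.2 ((Nat.prime_dvd_prime_iff_eq Nat.prime_three h3.1).1 h2).symm

lemma dvd_dB (hn : Fm n) {J : Finset ℕ} (hJ : J ⊆ n.primeFactors) {p : ℕ} (hp : p.Prime) :
    (p : ℤ) ∣ ∏ q ∈ J, st q ↔ p ∈ J := by
  rw [Int.natCast_dvd, natAbs_dB, hp.prime.dvd_finsetProd_iff]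
  constructor
  · rintro ⟨q, hq, h2⟩
    rw [(Nat.prime_dvd_prime_iff_eq hp (pf_ne hn (hJ hq)).1)] at h2
    exact h2 ▸ hq
  · exact fun h => ⟨p, h, dvd_refl p⟩

/-- the set of the prime factors of `d` which divide `n` -/
lemma natAbs_of {d : ℤ} (hd : Squarefree d)
    (h : ∀ p : ℕ, p.Prime → p ≠ 3 → (p : ℤ) ∣ d → p ∈ n.primeFactors) (h3n : ¬ 3 ∣ n) :
    d.natAbs = (if (3 : ℤ) ∣ d then 3 else 1) * ∏ q ∈ n.primeFactors.filter (fun q : ℕ => (q : ℤ) ∣ d), q := by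
  have hd0 : d.natAbs ≠ 0 := Int.natAbs_ne_zero.2 hd.ne_zero
  have hsq := Int.squarefree_natAbs.2 hd
  rw [← Nat.prod_primeFactors_of_squarefree hsq]
  have h3 : 3 ∉ n.primeFactors.filter (fun q : ℕ => (q : ℤ) ∣ d) := by
    intro h4
    exact h3n (Nat.dvd_of_mem_primeFactors (mem_filter.1 h4).1)
  have key : ∀ p : ℕ, p ∈ d.natAbs.primeFactors ↔ p.Prime ∧ (p : ℤ) ∣ d := by
    intro p
    rw [Nat.mem_primeFactors, Int.natCast_dvd]
    exact ⟨fun h => ⟨h.1, h.2.1⟩, fun h => ⟨h.1, h.2, hd0⟩⟩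
  by_cases h5 : (3 : ℤ) ∣ d
  · rw [if_pos h5, ← prod_insert (f := fun q => q) h3]
    refine prod_congr (Finset.ext fun p => ?_) fun _ _ => rfl
    rw [key, mem_insert, mem_filter]
    constructor
    · rintro ⟨hp, hpd⟩
      by_cases hp3 : p = 3
      · exact Or.inl hp3
      · exact Or.inr ⟨h p hp hp3 hpd, hpd⟩
    · rintro (rfl | ⟨h6, h7⟩)
      · exact ⟨Nat.prime_three, by exact_mod_cast h5⟩
      · exact ⟨Nat.prime_of_mem_primeFactors h6, h7⟩
  · rw [if_neg h5, one_mul]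
    refine prod_congr (Finset.ext fun p => ?_) fun _ _ => rfl
    rw [key, mem_filter]
    constructor
    · rintro ⟨hp, hpd⟩
      refine ⟨h p hp ?_ hpd, hpd⟩
      rintro rfl
      exact h5 (by exact_mod_cast hpd)
    · rintro ⟨h6, h7⟩
      exact ⟨Nat.prime_of_mem_primeFactors h6, h7⟩

lemma n_erase (hn : Fm n) {p : ℕ} (hp : p ∈ n.primeFactors) :
    (n : ℤ) = p * ∏ q ∈ n.primeFactors.erase p, (q : ℤ) := by
  rw [Finset.mul_prod_erase _ (fun q : ℕ => (q : ℤ)) hp]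
  have := congrArg (Nat.cast : ℕ → ℤ) (Nat.prod_primeFactors_of_squarefree hn.1)
  rw [Nat.cast_prod] at this
  exact this.symm

lemma dB_erase {J : Finset ℕ} {p : ℕ} (hp : p ∈ J) :
    ∏ q ∈ J, st q = p * (sg p * ∏ q ∈ J.erase p, st q) := by
  rw [← Finset.mul_prod_erase _ st hp, st_eq]
  ring

/-- in a field, `c` a nonzero square: `c x` is a square iff `x` is -/
lemma sq_cancel {K : Type} [Field K] {c x : K} (hc : IsSquare c) (hc0 : c ≠ 0)
    (h : IsSquare (c * x)) : IsSquare x := by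
  have h1 := h.div hc
  rwa [mul_div_cancel_left₀ x hc0] at h1

end

section

variable {n : ℕ} (hn : Fm n)

include hn in
lemma habB : (n : ℤ) ^ 2 - 4 * (n : ℤ) ^ 2 ≠ 0 := by
  have e : (n : ℤ) ^ 2 - 4 * (n : ℤ) ^ 2 = -3 * (n : ℤ) ^ 2 := by ring
  rw [e]
  exact mul_ne_zero (by norm_num) (nn_ne hn)

lemma zp3 {p : ℕ} [hp : Fact p.Prime] (h3 : p ≠ 3) : (-3 : ZMod p) ≠ 0 := by
  intro h
  have h5 : ((3 : ℕ) : ZMod p) = 0 := by
    have : (3 : ZMod p) = 0 := by linear_combination -h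
    exact_mod_cast this
  rw [ZMod.natCast_eq_zero_iff] at h5
  exact h3 ((Nat.prime_dvd_prime_iff_eq hp.out Nat.prime_three).1 h5)

include hn in
/-- sufficiency -/
theorem sufB (hT2 : S_T2B) (hT3 : S_T3) (hSP : S_SP) {J : Finset ℕ} (hJ : CB n.primeFactors J)
    (p : ℕ) [hfp : Fact p.Prime] : LocI ℚ_[p] n ((n : ℤ) ^ 2) (∏ q ∈ J, st q) := by
  have hp : p.Prime := hfp.out
  have hsf := dB_sqf hn hJ.1
  have h24 := hn.2
  by_cases hp2 : p = 2
  · subst hp2
    exact (hT2 n _ (by omega)).2 (dB_mod fun q hq => pf_odd hn (hJ.1 hq))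
  by_cases hp3 : p = 3
  · subst hp3
    exact (hT3 n _ (by omega) (n_pos hn) hsf).1
  obtain ⟨s1, s2, s3, s4⟩ := hSP p 1 n (∏ q ∈ J, st q) hp2 hp3 (Or.inl rfl) (n_sqf hn) hsf
  rw [one_mul] at s1 s2 s3 s4
  have hpn : (p : ℤ) ∣ n ↔ p ∈ n.primeFactors := by
    rw [Int.natCast_dvd_natCast, Nat.mem_primeFactors]
    have : n ≠ 0 := by omega
    tauto
  by_cases hpD : p ∈ n.primeFactors
  swap
  · exact s1 (fun h => hpD (hpn.1 h)) fun h => hpD (hJ.1 ((dvd_dB hn hJ.1 hp).1 h))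
  have e3 : (((1 : ℤ) ^ 2 - 4 : ℤ) : ZMod p) = -3 := by
    push_cast
    ring
  by_cases hp1 : p % 3 = 1
  · by_cases hpJ : p ∈ J
    · exact s4 _ _ (n_erase hn hpD) (dB_erase hpJ) ((hJ.2 p hpD hp1).2 hpJ)
    · exact s3 (fun h => hpJ ((dvd_dB hn hJ.1 hp).1 h)) ((hJ.2 p hpD hp1).1 hpJ)
  · refine s2 (hpn.2 hpD) ?_
    rw [e3, sqm3_iff p hp2 hp3]
    exact hp1

include hn in
/-- necessity -/
theorem necB (hT2 : S_T2B) (hNP : S_NP) {d : ℤ} (hd : Squarefree d)
    (hl : ∀ (p : ℕ) [Fact p.Prime], LK ℚ_[p] n ((n : ℤ) ^ 2) d) :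
    ∃ J, CB n.primeFactors J ∧ (d = ∏ q ∈ J, st q ∨ d = -3 * ∏ q ∈ J, st q) := by
  have h24 := hn.2
  haveI : Fact (Nat.Prime 2) := ⟨Nat.prime_two⟩
  have hd4 : d % 4 = 1 := (hT2 n d (by omega)).1 hd (hl 2)
  have hpn : ∀ {p : ℕ}, p.Prime → ((p : ℤ) ∣ n ↔ p ∈ n.primeFactors) := by
    intro p hp
    rw [Int.natCast_dvd_natCast, Nat.mem_primeFactors]
    have : n ≠ 0 := by omega
    tauto
  have hfac : ∀ p : ℕ, p.Prime → p ≠ 3 → (p : ℤ) ∣ d → p ∈ n.primeFactors := by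
    intro p hp hp3 hpd
    by_contra hpD
    have hp2 : p ≠ 2 := by
      rintro rfl
      omega
    haveI : Fact p.Prime := ⟨hp⟩
    have h1 := hl p
    rw [← one_mul (n : ℤ)] at h1
    have h2 := (hNP p 1 n d hp2 hp3 (Or.inl rfl) (n_sqf hn) hd (by
      have e : ((1 * (n : ℤ)) ^ 2 : ℤ) = (n : ℤ) ^ 2 := by ring
      rwa [e] at h1)).1 (fun h => hpD ((hpn hp).1 h))
    exact h2 hpd
  obtain ⟨J, hJdef⟩ : ∃ J, J = n.primeFactors.filter (fun q : ℕ => (q : ℤ) ∣ d) := ⟨_, rfl⟩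
  have hJs : J ⊆ n.primeFactors := by
    rw [hJdef]
    exact filter_subset _ _
  have hab := natAbs_of hd hfac (by omega)
  rw [← hJdef] at hab
  have hm := dB_mod (J := J) fun q hq => pf_odd hn (hJs hq)
  have hdJ : d = ∏ q ∈ J, st q ∨ d = -3 * ∏ q ∈ J, st q := by
    have h5 := natAbs_dB J
    rw [← h5] at hab
    split_ifs at hab with h6
    · right
      omega
    · left
      omega
  refine ⟨J, ⟨hJs, fun p hpD hp1 => ?_⟩, hdJ⟩
  obtain ⟨hp, hpd, hp2, hp3⟩ := pf_ne hn hpD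
  haveI : Fact p.Prime := ⟨hp⟩
  have h1 := hl p
  rw [← one_mul (n : ℤ)] at h1
  have hsq3 : IsSquare (-3 : ZMod p) := (sqm3_iff p hp2 hp3).2 hp1
  obtain ⟨h2, h3⟩ := (hNP p 1 n d hp2 hp3 (Or.inl rfl) (n_sqf hn) hd (by
      have e : ((1 * (n : ℤ)) ^ 2 : ℤ) = (n : ℤ) ^ 2 := by ring
      rwa [e] at h1)).2 ((hpn hp).2 hpD) (by
      have e3 : (((1 : ℤ) ^ 2 - 4 : ℤ) : ZMod p) = -3 := by
        push_cast
        ring
      rw [e3]
      exact hsq3)
  have hmem : p ∈ J ↔ (p : ℤ) ∣ d := by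
    rw [hJdef, mem_filter]
    exact ⟨fun h => h.2, fun h => ⟨hpD, h⟩⟩
  constructor
  · intro hpJ
    have h4 := h2 fun h => hpJ (hmem.2 h)
    rcases hdJ with h5 | h5
    · rw [h5] at h4
      exact h4
    · rw [h5] at h4
      refine sq_cancel hsq3 (zp3 hp3) ?_
      push_cast at h4 ⊢
      exact h4
  · intro hpJ
    have e5 := dB_erase hpJ
    rcases hdJ with h5 | h5
    · exact h3 _ _ (n_erase hn hpD) (h5.trans e5)
    · have h6 := h3 _ (-3 * (sg p * ∏ q ∈ J.erase p, st q)) (n_erase hn hpD) (by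
        rw [h5, e5]
        ring)
      refine sq_cancel hsq3 (zp3 hp3) ?_
      have e6 : (-3 : ZMod p) * ((-(∏ q ∈ n.primeFactors.erase p, (q : ℤ)) *
          (sg p * ∏ q ∈ J.erase p, st q) : ℤ) : ZMod p) =
          ((-(∏ q ∈ n.primeFactors.erase p, (q : ℤ)) *
            (-3 * (sg p * ∏ q ∈ J.erase p, st q)) : ℤ) : ZMod p) := by
        push_cast
        ring
      rw [e6]
      exact h6

include hn in
/-- the class of a set -/
theorem memB (hT2 : S_T2B) (hT3 : S_T3) (hSP : S_SP) {J : Finset ℕ} (hJ : CB n.primeFactors J) :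
    coc (a := (n : ℤ)) (nn_ne hn) (∏ q ∈ J, st q) ∈ shaCoc (WZ n ((n : ℤ) ^ 2)) := by
  have h24 := hn.2
  have hsf := dB_sqf hn hJ.1
  refine ⟨(Pool.Agent.Z488.t_COC _ _ (nn_ne hn) _).1, fun p hp => ?_, ?_⟩
  · exact Pool.Agent.Y210.Z702.t_LOT _ _ (nn_ne hn) _ (habB hn) hsf.ne_zero ℚ_[p]
      (sufB hn hT2 hT3 hSP hJ p)
  · exact Pool.Agent.Y210.Z702.t_LOT _ _ (nn_ne hn) _ (habB hn) hsf.ne_zero ℝ
      (hT3 n _ (by omega) (n_pos hn) hsf).2.2.1

/-- the trivial classes -/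
lemma cobm3 : IsCob (WZ n ((n : ℤ) ^ 2)) (coc (nn_ne hn) (-3)) :=
  coc_cob (nn_ne hn) (m := 3 * (n : ℤ)) (by norm_num)
    (mul_ne_zero (by norm_num) (n_ne hn)) (by ring)

lemma cobmn : IsCob (WZ n ((n : ℤ) ^ 2)) (coc (nn_ne hn) (-(n : ℤ))) := by
  refine loc_cob (nn_ne hn) (habB hn) (neg_ne_zero.2 (n_ne hn)) ⟨-(n : ℚ), 0, 1, ?_, ?_, ?_⟩
  · exact neg_ne_zero.2 (by exact_mod_cast n_ne hn)
  · push_cast
    ring
  · push_cast
    ring

/-- when two sets give the same class -/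
theorem injB (hTR : S_TR)
    (hk : ∃ k : ℕ, Odd k ∧
      Nat.card (WZ (-2 * (n : ℤ)) ((n : ℤ) ^ 2 - 4 * (n : ℤ) ^ 2)).toAffine.Point = 4 * k)
    {J J' : Finset ℕ} (hJ : J ⊆ n.primeFactors) (hJ' : J' ⊆ n.primeFactors) :
    IsCob (WZ n ((n : ℤ) ^ 2)) (coc (nn_ne hn) (∏ q ∈ J, st q) - coc (nn_ne hn) (∏ q ∈ J', st q)) ↔
      J' = J ∨ J' = n.primeFactors \ J := by
  have hsJ := dB_sqf hn hJ
  have hsJ' := dB_sqf hn hJ'
  have hset : (J \ J') ∪ (J' \ J) ⊆ n.primeFactors := by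
    intro q hq
    rw [mem_union, mem_sdiff, mem_sdiff] at hq
    rcases hq with hq | hq
    · exact hJ hq.1
    · exact hJ' hq.1
  have hsc := dB_sqf hn hset
  have hi : ∏ q ∈ J ∩ J', st q ≠ 0 := (dB_sqf hn fun q hq => hJ (mem_inter.1 hq).1).ne_zero
  have hprod : (∏ q ∈ J, st q) * ∏ q ∈ J', st q =
      (∏ q ∈ (J \ J') ∪ (J' \ J), st q) * (∏ q ∈ J ∩ J', st q) ^ 2 := by
    rw [Finset.prod_union (by
      rw [Finset.disjoint_left]
      intro q h1 h2
      rw [mem_sdiff] at h1 h2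
      exact h1.2 h2.1)]
    have e1 : ∏ q ∈ J, st q = (∏ q ∈ J \ J', st q) * ∏ q ∈ J ∩ J', st q := by
      rw [← Finset.prod_union (by
        rw [Finset.disjoint_left]
        intro q h1 h2
        rw [mem_sdiff] at h1
        exact h1.2 (mem_inter.1 h2).2), Finset.sdiff_union_inter]
    have e2 : ∏ q ∈ J', st q = (∏ q ∈ J' \ J, st q) * ∏ q ∈ J ∩ J', st q := by
      rw [Finset.inter_comm, ← Finset.prod_union (by
        rw [Finset.disjoint_left]
        intro q h1 h2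
        rw [mem_sdiff] at h1
        exact h1.2 (mem_inter.1 h2).2), Finset.sdiff_union_inter]
    rw [e1, e2]
    ring
  rw [cob_sub (nn_ne hn) hsJ.ne_zero hsJ'.ne_zero hi hprod]
  have h3 := three_dB hn hset
  -- the possible products
  have hcase : IsCob (WZ n ((n : ℤ) ^ 2)) (coc (nn_ne hn) (∏ q ∈ (J \ J') ∪ (J' \ J), st q)) ↔
      ∏ q ∈ (J \ J') ∪ (J' \ J), st q = 1 ∨ ∏ q ∈ (J \ J') ∪ (J' \ J), st q = -(n : ℤ) := by
    constructor
    · intro h
      have h1 := cob_tor hTR (n_ne hn) (nn_ne hn) (habB hn) hsc.ne_zero hk h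
      set c := ∏ q ∈ (J \ J') ∪ (J' \ J), st q with hc
      have hn0 : (n : ℚ) ≠ 0 := by exact_mod_cast n_ne hn
      have hsq3 : Squarefree (-3 : ℤ) := by
        rw [← Int.squarefree_natAbs]
        exact Nat.prime_three.prime.squarefree
      rcases h1 with h1 | h1 | h1 | h1
      · exact Or.inl (one_of_sqZ hsc h1)
      · exfalso
        have h2 : IsSquare ((c : ℚ) * ((-3 : ℤ) : ℚ)) := by
          refine sq_cancel (c := (n : ℚ) ^ 2) (IsSquare.sq _) (pow_ne_zero 2 hn0) ?_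
          have e : (n : ℚ) ^ 2 * ((c : ℚ) * ((-3 : ℤ) : ℚ)) =
              (c : ℚ) * ((((n : ℤ)) : ℚ) ^ 2 - 4 * (((n : ℤ)) : ℚ) ^ 2) := by
            push_cast
            ring
          rw [e]
          exact h1
        have h4 := eq_of_sqZ hsc hsq3 h2
        exact h3 ⟨-1, by rw [h4]; norm_num⟩
      · exfalso
        have hs : Squarefree (3 * (n : ℤ)) := by
          rw [squarefree_mul_iff]
          refine ⟨?_, Int.prime_three.squarefree, n_sqf hn⟩
          have h24 := hn.2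
          have : IsCoprime (3 : ℤ) n := by
            rw [Int.isCoprime_iff_gcd_eq_one]
            have h5 : Nat.Coprime 3 n :=
              (Nat.Prime.coprime_iff_not_dvd Nat.prime_three).2 (by omega)
            exact_mod_cast h5
          exact this.isRelPrime
        have h2 : IsSquare ((c : ℚ) * ((3 * (n : ℤ) : ℤ) : ℚ)) := by
          have e : (c : ℚ) * ((3 * (n : ℤ) : ℤ) : ℚ) = (c : ℚ) * ((((n : ℤ)) : ℚ) + 2 * ((n : ℤ) : ℚ)) := by
            push_cast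
            ring
          rw [e]
          exact h1
        have h4 := eq_of_sqZ hsc hs h2
        exact h3 ⟨n, h4⟩
      · right
        have h2 : IsSquare ((c : ℚ) * ((-(n : ℤ) : ℤ) : ℚ)) := by
          have e : (c : ℚ) * ((-(n : ℤ) : ℤ) : ℚ) = (c : ℚ) * ((((n : ℤ)) : ℚ) - 2 * ((n : ℤ) : ℚ)) := by
            push_cast
            ring
          rw [e]
          exact h1
        refine eq_of_sqZ hsc ?_ h2
        rw [← Int.squarefree_natAbs, Int.natAbs_neg, Int.squarefree_natAbs]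
        exact n_sqf hn
    · rintro (h | h)
      · rw [h, Pool.Agent.N818.SL.coc_one]
        exact cob_zero _
      · rw [h]
        exact cobmn hn
  rw [hcase]
  have hmem : ∀ p : ℕ, p.Prime → ((p : ℤ) ∣ ∏ q ∈ (J \ J') ∪ (J' \ J), st q ↔
      p ∈ (J \ J') ∪ (J' \ J)) := fun p hp => dvd_dB hn hset hp
  constructor
  · rintro (h | h)
    · left
      have hem : (J \ J') ∪ (J' \ J) = ∅ := by
        rw [Finset.eq_empty_iff_forall_notMem]
        intro q hq
        have hqp := (pf_ne hn (hset hq)).1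
        have h5 := (hmem q hqp).2 hq
        rw [h] at h5
        have h6 : (q : ℤ) ∣ ((1 : ℕ) : ℤ) := by exact_mod_cast h5
        rw [Int.natCast_dvd_natCast] at h6
        exact hqp.one_lt.ne' (Nat.dvd_one.1 h6)
      rw [Finset.union_eq_empty, Finset.sdiff_eq_empty_iff_subset,
        Finset.sdiff_eq_empty_iff_subset] at hem
      exact Finset.Subset.antisymm hem.2 hem.1
    · right
      have hall : ∀ q ∈ n.primeFactors, q ∈ (J \ J') ∪ (J' \ J) := by
        intro q hq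
        obtain ⟨h5, h6, -⟩ := pf_ne hn hq
        rw [← hmem q h5, h]
        exact (dvd_neg).2 (by exact_mod_cast h6)
      ext q
      rw [mem_sdiff]
      constructor
      · intro hq
        refine ⟨hJ' hq, fun hq' => ?_⟩
        have h5 := hall q (hJ' hq)
        rw [mem_union, mem_sdiff, mem_sdiff] at h5
        tauto
      · rintro ⟨hq, hq'⟩
        have h5 := hall q hq
        rw [mem_union, mem_sdiff, mem_sdiff] at h5
        tauto
  · rintro (h | h)
    · left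
      rw [h]
      simp
    · right
      rw [← dB_all hn]
      refine prod_congr ?_ fun _ _ => rfl
      rw [h]
      ext q
      simp only [mem_union, mem_sdiff]
      constructor
      · rintro (h5 | h5)
        · exact hJ h5.1
        · exact h5.1.1
      · intro h5
        by_cases h6 : q ∈ J
        · exact Or.inl ⟨h6, fun h7 => h7.2 h6⟩
        · exact Or.inr ⟨⟨h5, h6⟩, h6⟩

end

end Pool.Agent.N818.SN
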