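import Pool.Agent.N818.SN.StrB

/-!
# SN: the 2-primary part of `Ш(WC n)`
-/

set_option autoImplicit false

open scoped Classical

namespace Pool.Agent.N818.SN

open Finset WeierstrassCurve
open Pool.Agent.TH841.SH.D
open Pool.Agent.Z702 (LocI WZ coc T0)
open Pool.Agent.N877.P24 (Qc)
open Pool.Agent.N818.SL (coc_add cls cls_eq cls_add cls_zero_iff prim lcb cob_of_eq coc_cob
  ndvd_prod sqf_prod)

/-- the product of the set -/
def dC (J : Finset ℕ) : ℤ := ∏ q ∈ J, (q : ℤ)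

lemma dC_cast (J : Finset ℕ) : dC J = ((∏ q ∈ J, q : ℕ) : ℤ) := by
  unfold dC
  rw [Nat.cast_prod]

section

variable {n : ℕ} (hn : Fm n)

include hn

lemma dC_sqf {J : Finset ℕ} (hJ : J ⊆ n.primeFactors) : Squarefree (dC J) := by
  rw [dC_cast, Int.squarefree_natCast]
  exact sqf_prod fun q hq => (pf_ne hn (hJ hq)).1

lemma dC_pos {J : Finset ℕ} (hJ : J ⊆ n.primeFactors) : 0 < dC J := by
  rw [dC_cast]
  exact_mod_cast Finset.prod_pos fun q hq => (pf_ne hn (hJ hq)).1.pos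

lemma dC_all : dC n.primeFactors = n := by
  rw [dC_cast, Nat.prod_primeFactors_of_squarefree hn.1]

lemma dvd_dC {J : Finset ℕ} (hJ : J ⊆ n.primeFactors) {p : ℕ} (hp : p.Prime) :
    (p : ℤ) ∣ dC J ↔ p ∈ J := by
  rw [dC_cast, Int.natCast_dvd_natCast, hp.prime.dvd_finsetProd_iff]
  constructor
  · rintro ⟨q, hq, h2⟩
    rw [(Nat.prime_dvd_prime_iff_eq hp (pf_ne hn (hJ hq)).1)] at h2
    exact h2 ▸ hq
  · exact fun h => ⟨p, h, dvd_refl p⟩

lemma p_dC {J : Finset ℕ} (hJ : J ⊆ n.primeFactors) {p : ℕ} (hp : p.Prime) (h : p ∉ n.primeFactors) :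
    ¬ (p : ℤ) ∣ dC J := fun h' => h (hJ ((dvd_dC hn hJ hp).1 h'))

lemma three_not : 3 ∉ n.primeFactors := fun h => (pf_ne hn h).2.2.2 rfl

lemma two_not : 2 ∉ n.primeFactors := fun h => (pf_ne hn h).2.2.1 rfl

lemma habC : (-14 * (n : ℤ)) ^ 2 - 4 * (n : ℤ) ^ 2 ≠ 0 := by
  have e : (-14 * (n : ℤ)) ^ 2 - 4 * (n : ℤ) ^ 2 = 192 * (n : ℤ) ^ 2 := by ring
  rw [e]
  exact mul_ne_zero (by norm_num) (nn_ne hn)

omit hn in
lemma e192 (p : ℕ) : (((-14 : ℤ) ^ 2 - 4 : ℤ) : ZMod p) = 3 * 8 ^ 2 := by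
  push_cast
  ring

omit hn in
lemma sq192 {p : ℕ} [hp : Fact p.Prime] (h2 : p ≠ 2) :
    IsSquare (((-14 : ℤ) ^ 2 - 4 : ℤ) : ZMod p) ↔ IsSquare (3 : ZMod p) := by
  rw [e192]
  have h8 : ((8 : ZMod p)) ≠ 0 := by
    intro h
    have h5 : ((8 : ℕ) : ZMod p) = 0 := by exact_mod_cast h
    rw [ZMod.natCast_eq_zero_iff] at h5
    have h6 : p ∣ 2 ^ 3 := h5
    exact h2 ((Nat.prime_dvd_prime_iff_eq hp.out Nat.prime_two).1 (hp.out.dvd_of_dvd_pow h6))
  constructor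
  · intro h
    have h3 := h.div (IsSquare.sq (8 : ZMod p))
    rwa [mul_div_assoc, div_self (pow_ne_zero 2 h8), mul_one] at h3
  · exact fun h => h.mul (IsSquare.sq _)

omit hn in
lemma dC_erase {J : Finset ℕ} {p : ℕ} (hp : p ∈ J) :
    dC J = p * ∏ q ∈ J.erase p, (q : ℤ) := by
  unfold dC
  rw [Finset.mul_prod_erase _ (fun q : ℕ => (q : ℤ)) hp]

lemma mem_pf {p : ℕ} (hp : p.Prime) : (p : ℤ) ∣ n ↔ p ∈ n.primeFactors := by
  rw [Int.natCast_dvd_natCast, Nat.mem_primeFactors]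
  have h24 := hn.2
  have : n ≠ 0 := by omega
  tauto

/-- sufficiency -/
theorem sufC (hT2 : S_T2C) (hT3 : S_T3) (hSP : S_SP) {J : Finset ℕ} (hJ : CC n.primeFactors J)
    (p : ℕ) [hfp : Fact p.Prime] : LocI ℚ_[p] (-14 * n) ((n : ℤ) ^ 2) (dC J) := by
  have hp : p.Prime := hfp.out
  have hsf := dC_sqf hn hJ.1
  have h24 := hn.2
  by_cases hp2 : p = 2
  · subst hp2
    refine (hT2 n _ (by omega)).2 ?_
    have := p_dC hn hJ.1 hp (two_not hn)
    exact_mod_cast this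
  by_cases hp3 : p = 3
  · subst hp3
    exact (hT3 n _ (by omega) (n_pos hn) hsf).2.1
  obtain ⟨s1, s2, s3, s4⟩ := hSP p (-14) n (dC J) hp2 hp3 (Or.inr rfl) (n_sqf hn) hsf
  by_cases hpD : p ∈ n.primeFactors
  swap
  · exact s1 (fun h => hpD ((mem_pf hn hp).1 h)) (p_dC hn hJ.1 hp hpD)
  by_cases hp1 : IsSquare (3 : ZMod p)
  · by_cases hpJ : p ∈ J
    · exact s4 _ _ (n_erase hn hpD) (dC_erase hpJ) ((hJ.2 p hpD hp1).2 hpJ)
    · exact s3 (fun h => hpJ ((dvd_dC hn hJ.1 hp).1 h)) ((hJ.2 p hpD hp1).1 hpJ)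
  · refine s2 ((mem_pf hn hp).2 hpD) ?_
    rw [sq192 hp2]
    exact hp1

/-- necessity -/
theorem necC (hT2 : S_T2C) (hNP : S_NP) {d : ℤ} (hd : Squarefree d)
    (hl : ∀ (p : ℕ) [Fact p.Prime], LK ℚ_[p] (-14 * n) ((n : ℤ) ^ 2) d) :
    ∃ J, CC n.primeFactors J ∧ ∃ m : ℤ, m ≠ 0 ∧ ∃ c : ℤ, (c = 1 ∨ c = 3 ∨ c = -n ∨ c = -3 * n) ∧
      d * dC J = c * m ^ 2 := by
  have h24 := hn.2
  haveI : Fact (Nat.Prime 2) := ⟨Nat.prime_two⟩
  have hd2 : ¬ (2 : ℤ) ∣ d := (hT2 n d (by omega)).1 hd (hl 2)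
  have hNP' := fun (p : ℕ) (hp : p.Prime) (hp2 : p ≠ 2) (hp3 : p ≠ 3) =>
    @hNP p ⟨hp⟩ (-14) n d hp2 hp3 (Or.inr rfl) (n_sqf hn) hd (@hl p ⟨hp⟩)
  have hfac : ∀ p : ℕ, p.Prime → p ≠ 3 → (p : ℤ) ∣ d → p ∈ n.primeFactors := by
    intro p hp hp3 hpd
    by_contra hpD
    have hp2 : p ≠ 2 := by
      rintro rfl
      exact hd2 (by exact_mod_cast hpd)
    exact (hNP' p hp hp2 hp3).1 (fun h => hpD ((mem_pf hn hp).1 h)) hpd
  obtain ⟨J, hJdef⟩ : ∃ J, J = n.primeFactors.filter (fun q : ℕ => (q : ℤ) ∣ d) := ⟨_, rfl⟩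
  have hJs : J ⊆ n.primeFactors := by
    rw [hJdef]
    exact filter_subset _ _
  have hab := natAbs_of hd hfac (by omega)
  rw [← hJdef] at hab
  obtain ⟨t, ht, ht'⟩ : ∃ t : ℤ, (t = 1 ∨ t = 3) ∧ (d = t * dC J ∨ d = -(t * dC J)) := by
    have h5 := dC_cast J
    by_cases h6 : (3 : ℤ) ∣ d
    · rw [if_pos h6] at hab
      refine ⟨3, Or.inr rfl, ?_⟩
      rw [h5]
      omega
    · rw [if_neg h6, one_mul] at hab
      refine ⟨1, Or.inl rfl, ?_⟩
      rw [h5, one_mul]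
      omega
  have ht3 : ∀ p ∈ n.primeFactors, IsSquare (3 : ZMod p) → IsSquare ((t : ℤ) : ZMod p) ∧
      ((t : ℤ) : ZMod p) ≠ 0 := by
    intro p hp h3
    obtain ⟨hpp, hpd, hp2, hp3⟩ := pf_ne hn hp
    haveI : Fact p.Prime := ⟨hpp⟩
    rcases ht with h | h
    · rw [h]
      push_cast
      exact ⟨IsSquare.one, one_ne_zero⟩
    · rw [h]
      push_cast
      refine ⟨h3, ?_⟩
      have := zp3 (p := p) hp3
      intro h4
      apply this
      linear_combination -h4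
  have hmem : ∀ p ∈ n.primeFactors, (p ∈ J ↔ (p : ℤ) ∣ d) := by
    intro p hpD
    rw [hJdef, mem_filter]
    exact ⟨fun h => h.2, fun h => ⟨hpD, h⟩⟩
  have hJ0 := (dC_sqf hn hJs).ne_zero
  rcases ht' with h5 | h5
  · -- `d` positive
    refine ⟨J, ⟨hJs, fun p hpD hp1 => ?_⟩, dC J, hJ0, t, ?_, by rw [h5]; ring⟩
    · obtain ⟨hp, hpd, hp2, hp3⟩ := pf_ne hn hpD
      haveI : Fact p.Prime := ⟨hp⟩
      obtain ⟨h2, h3⟩ := (hNP' p hp hp2 hp3).2 ((mem_pf hn hp).2 hpD) ((sq192 hp2).2 hp1)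
      obtain ⟨q1, q2⟩ := ht3 p hpD hp1
      constructor
      · intro hpJ
        have h4 := h2 fun h => hpJ ((hmem p hpD).2 h)
        rw [h5, Int.cast_mul] at h4
        exact sq_cancel q1 q2 h4
      · intro hpJ
        have h4 := h3 _ (t * ∏ q ∈ J.erase p, (q : ℤ)) (n_erase hn hpD) (by
          rw [h5, dC_erase hpJ]
          ring)
        refine sq_cancel q1 q2 ?_
        rw [← Int.cast_mul]
        have e6 : t * (-(∏ q ∈ n.primeFactors.erase p, (q : ℤ)) * ∏ q ∈ J.erase p, (q : ℤ)) =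
            -(∏ q ∈ n.primeFactors.erase p, (q : ℤ)) * (t * ∏ q ∈ J.erase p, (q : ℤ)) := by ring
        rw [e6]
        exact h4
    · rcases ht with h | h
      · exact Or.inl h
      · exact Or.inr (Or.inl h)
  · -- `d` negative
    have hsplit : ∀ {A : Finset ℕ} {B : Finset ℕ}, B ⊆ A → (∏ q ∈ A, (q : ℤ)) =
        (∏ q ∈ B, (q : ℤ)) * ∏ q ∈ A \ B, (q : ℤ) := by
      intro A B hBA
      rw [mul_comm, Finset.prod_sdiff hBA]
    have hnJ : (n : ℤ) = dC J * dC (n.primeFactors \ J) := by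
      rw [← dC_all hn]
      exact hsplit hJs
    have hJc : n.primeFactors \ J ⊆ n.primeFactors := sdiff_subset
    have hJc0 := (dC_sqf hn hJc).ne_zero
    refine ⟨n.primeFactors \ J, ⟨hJc, fun p hpD hp1 => ?_⟩, 1, one_ne_zero, -t * n, ?_, by
      rw [h5]
      linear_combination t * hnJ⟩
    · obtain ⟨hp, hpd, hp2, hp3⟩ := pf_ne hn hpD
      haveI : Fact p.Prime := ⟨hp⟩
      obtain ⟨h2, h3⟩ := (hNP' p hp hp2 hp3).2 ((mem_pf hn hp).2 hpD) ((sq192 hp2).2 hp1)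
      obtain ⟨q1, q2⟩ := ht3 p hpD hp1
      constructor
      · intro hpJ
        have hpJ' : p ∈ J := by
          by_contra h
          exact hpJ (mem_sdiff.2 ⟨hpD, h⟩)
        have h4 := h3 _ (-(t * ∏ q ∈ J.erase p, (q : ℤ))) (n_erase hn hpD) (by
          rw [h5, dC_erase hpJ']
          ring)
        have e7 : ∏ q ∈ n.primeFactors.erase p, (q : ℤ) =
            (∏ q ∈ J.erase p, (q : ℤ)) * ∏ q ∈ n.primeFactors \ J, (q : ℤ) := by
          rw [hsplit (Finset.erase_subset_erase p hJs)]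
          congr 1
          refine prod_congr ?_ fun _ _ => rfl
          ext q
          simp only [mem_sdiff, mem_erase]
          constructor
          · rintro ⟨⟨g1, g2⟩, g3⟩
            exact ⟨g2, fun g4 => g3 ⟨g1, g4⟩⟩
          · rintro ⟨g1, g2⟩
            refine ⟨⟨?_, g1⟩, fun g3 => g2 g3.2⟩
            rintro rfl
            exact g2 hpJ'
        have hne : (((∏ q ∈ J.erase p, (q : ℤ)) : ℤ) : ZMod p) ≠ 0 := by
          intro h
          rw [ZMod.intCast_zmod_eq_zero_iff_dvd] at h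
          have h8 := (dvd_dC hn (fun q hq => hJs (mem_of_mem_erase hq)) hp).1 h
          exact notMem_erase p J h8
        refine sq_cancel (c := ((t : ℤ) : ZMod p) * ((((∏ q ∈ J.erase p, (q : ℤ)) : ℤ) : ZMod p)) ^ 2)
          (q1.mul (IsSquare.sq _)) (mul_ne_zero q2 (pow_ne_zero 2 hne)) ?_
        have e8 : ((t : ℤ) : ZMod p) * ((((∏ q ∈ J.erase p, (q : ℤ)) : ℤ) : ZMod p)) ^ 2 *
            (((∏ q ∈ n.primeFactors \ J, (q : ℤ) : ℤ)) : ZMod p) =
            ((-(∏ q ∈ n.primeFactors.erase p, (q : ℤ)) *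
              -(t * ∏ q ∈ J.erase p, (q : ℤ)) : ℤ) : ZMod p) := by
          rw [e7]
          simp only [Int.cast_mul, Int.cast_neg]
          ring
        rw [e8]
        exact h4
      · intro hpJ
        have hpJ' : p ∉ J := (mem_sdiff.1 hpJ).2
        have h4 := h2 fun h => hpJ' ((hmem p hpD).2 h)
        have e7 : ∏ q ∈ n.primeFactors.erase p, (q : ℤ) =
            dC J * ∏ q ∈ (n.primeFactors \ J).erase p, (q : ℤ) := by
          have h8 : J ⊆ n.primeFactors.erase p := by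
            intro q hq
            rw [mem_erase]
            refine ⟨?_, hJs hq⟩
            rintro rfl
            exact hpJ' hq
          rw [hsplit h8]
          unfold dC
          congr 1
          refine prod_congr ?_ fun _ _ => rfl
          ext q
          simp only [mem_sdiff, mem_erase]
          tauto
        have hne : (((∏ q ∈ (n.primeFactors \ J).erase p, (q : ℤ)) : ℤ) : ZMod p) ≠ 0 := by
          intro h
          rw [ZMod.intCast_zmod_eq_zero_iff_dvd] at h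
          have h8 := (dvd_dC hn (fun q hq => hJc (mem_of_mem_erase hq)) hp).1 h
          exact notMem_erase p _ h8
        refine sq_cancel q1 q2 ?_
        have e8 : ((t : ℤ) : ZMod p) * ((-(∏ q ∈ n.primeFactors.erase p, (q : ℤ)) *
            (∏ q ∈ (n.primeFactors \ J).erase p, (q : ℤ)) : ℤ) : ZMod p) =
            ((d : ℤ) : ZMod p) *
              (((∏ q ∈ (n.primeFactors \ J).erase p, (q : ℤ)) : ℤ) : ZMod p) ^ 2 := by
          rw [h5, e7]
          simp only [Int.cast_mul, Int.cast_neg]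
          ring
        rw [e8]
        exact h4.mul (IsSquare.sq _)
    · rcases ht with h | h
      · right; right; left
        rw [h]
        ring
      · right; right; right
        rw [h]

end

end Pool.Agent.N818.SN
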